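import Mathlib

set_option autoImplicit false

/-!
# Semilinear maps and commuting families
-/

namespace Pool.Agent.Helper28.KW

open Module

/-- Rank and kernel of a `p`-semilinear map over a perfect field. -/
theorem semilin_dim {k : Type*} [Field k] (p : ℕ) (hk : ∀ c : k, ∃ d : k, d ^ p = c)
    {a W : Type*} [AddCommGroup a] [Module k a] [FiniteDimensional k a] [AddCommGroup W]
    [Module k W] (f : a → W) (hadd : ∀ y z, f (y + z) = f y + f z)
    (hsmul : ∀ (c : k) z, f (c • z) = c ^ p • f z) (N : Submodule k a)
    (hN : ∀ z, f z = 0 → z ∈ N) (Q : Submodule k W) [FiniteDimensional k Q]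
    (hQ : ∀ z, f z ∈ Q) : finrank k a ≤ finrank k N + finrank k Q := by
  obtain ⟨N', hN'⟩ := Submodule.exists_isCompl N
  have h1 : finrank k N + finrank k N' = finrank k a :=
    Submodule.finrank_add_eq_of_isCompl hN'
  let b := Module.finBasis k N'
  have hf0 : f 0 = 0 := by
    have := hadd 0 0
    rw [add_zero] at this
    simpa using this
  have hsum : ∀ (s : Finset (Fin (finrank k N'))) (g : Fin (finrank k N') → a),
      f (∑ i ∈ s, g i) = ∑ i ∈ s, f (g i) := by
    intro s g
    induction s using Finset.induction_on with
    | empty => rw [Finset.sum_empty, Finset.sum_empty, hf0]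
    | insert i s hi ih => rw [Finset.sum_insert hi, Finset.sum_insert hi, hadd, ih]
  have hli : LinearIndependent k (fun i => (⟨f (b i : a), hQ _⟩ : Q)) := by
    rw [Fintype.linearIndependent_iff]
    intro c hc i
    choose d hd using hk
    have h2 : f (∑ i, d (c i) • (b i : a)) = 0 := by
      rw [hsum]
      have h3 := congrArg Subtype.val hc
      rw [Submodule.coe_sum] at h3
      simp only [Submodule.coe_smul, Submodule.coe_zero] at h3
      rw [← h3]
      refine Finset.sum_congr rfl fun i _ => ?_
      rw [hsmul, hd]
    have h4 := hN _ h2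
    have h5 : ∑ i, d (c i) • (b i : a) ∈ N' :=
      Submodule.sum_mem _ fun i _ => Submodule.smul_mem _ _ (b i).2
    have h6 : ∑ i, d (c i) • (b i : a) = 0 := by
      have := (Submodule.disjoint_def.1 hN'.disjoint) _ h4 h5
      exact this
    have h7 : ∑ i, d (c i) • b i = 0 := by
      apply Subtype.ext
      rw [Submodule.coe_sum]
      simpa using h6
    have h8 := (Fintype.linearIndependent_iff.1 b.linearIndependent) _ h7 i
    rw [← hd (c i), h8]
    have hp : p ≠ 0 := by
      rintro rfl
      have := hd 0
      simp at this
    rw [zero_pow hp]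
  have h9 := hli.fintype_card_le_finrank
  rw [Fintype.card_fin] at h9
  omega

end Pool.Agent.Helper28.KW
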