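import Mathlib
import Pool.Agent.Helper28.KW.Semi

set_option autoImplicit false

/-!
# A semilinear map with square of corank at most three
-/

namespace Pool.Agent.Helper28.KW

open Module

section semi

variable {k : Type*} [Field k] {V W : Type*} [AddCommGroup V] [Module k V] [AddCommGroup W]
  [Module k W] [FiniteDimensional k V]

theorem semi_sub (p : ℕ) (hk : ∀ c : k, ∃ d : k, d ^ p = c) (a K : Submodule k V) (f : V → W)
    (hadd : ∀ y ∈ a, ∀ z ∈ a, f (y + z) = f y + f z)
    (hsmul : ∀ (c : k), ∀ z ∈ a, f (c • z) = c ^ p • f z)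
    (hK : ∀ z ∈ a, f z = 0 → z ∈ K) (Q : Submodule k W) [FiniteDimensional k Q]
    (hQ : ∀ z ∈ a, f z ∈ Q) : finrank k a ≤ finrank k K + finrank k Q := by
  have h1 := semilin_dim p hk (a := a) (fun z => f z)
    (fun y z => hadd y y.2 z z.2) (fun c z => hsmul c z z.2) (K.comap a.subtype)
    (fun z hz => hK z z.2 hz) Q (fun z => hQ z z.2)
  have h2 : finrank k (K.comap a.subtype) ≤ finrank k K := by
    have h3 : ∀ z : K.comap a.subtype, ((z : a) : V) ∈ K := fun z => z.2
    let g : K.comap a.subtype →ₗ[k] K :=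
      LinearMap.codRestrict K (a.subtype ∘ₗ (K.comap a.subtype).subtype) h3
    refine LinearMap.finrank_le_finrank_of_injective (f := g) ?_
    intro y z hyz
    have := congrArg Subtype.val hyz
    exact Subtype.ext (Subtype.ext this)
  omega

theorem semi_sub' (p : ℕ) (hp : p ≠ 0) (a K : Submodule k V) (f : V → W)
    (hadd : ∀ y ∈ a, ∀ z ∈ a, f (y + z) = f y + f z)
    (hsmul : ∀ (c : k), ∀ z ∈ a, f (c • z) = c ^ p • f z)
    (hK : ∀ z ∈ K, z ∈ a ∧ f z = 0) :
    finrank k (Submodule.span k (f '' a)) + finrank k K ≤ finrank k a := by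
  have hKa : K ≤ a := fun z hz => (hK z hz).1
  obtain ⟨N', hN'⟩ := Submodule.exists_isCompl (K.comap a.subtype)
  have h1 : finrank k (K.comap a.subtype) + finrank k N' = finrank k a :=
    Submodule.finrank_add_eq_of_isCompl hN'
  have h2 : finrank k K ≤ finrank k (K.comap a.subtype) := by
    let g : K →ₗ[k] K.comap a.subtype :=
      LinearMap.codRestrict _ (Submodule.inclusion hKa) (fun z => z.2)
    refine LinearMap.finrank_le_finrank_of_injective (f := g) ?_
    intro y z hyz
    have := congrArg (fun w : K.comap a.subtype => ((w : a) : V)) hyz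
    exact Subtype.ext this
  let b := Module.finBasis k N'
  have hf0 : f 0 = 0 := by
    have := hsmul 0 0 a.zero_mem
    rw [zero_smul, zero_pow hp, zero_smul] at this
    exact this
  have h3 : Submodule.span k (f '' a) ≤ Submodule.span k (Set.range fun i => f ((b i : a) : V)) := by
    rw [Submodule.span_le]
    rintro _ ⟨v, hv, rfl⟩
    obtain ⟨y, z, hyz⟩ : ∃ (y : K.comap a.subtype) (z : N'), (y : a) + (z : a) = ⟨v, hv⟩ := by
      have h4 : (⟨v, hv⟩ : a) ∈ (K.comap a.subtype) ⊔ N' := by
        rw [hN'.sup_eq_top]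
        trivial
      obtain ⟨y, hy, z, hz, h5⟩ := Submodule.mem_sup.1 h4
      exact ⟨⟨y, hy⟩, ⟨z, hz⟩, h5⟩
    have h4 : v = ((y : a) : V) + ((z : a) : V) := by
      have := congrArg Subtype.val hyz
      exact this.symm
    have h5 : f ((y : a) : V) = 0 := (hK _ y.2).2
    have h6 : f v = f ((z : a) : V) := by
      rw [h4, hadd _ (y : a).2 _ (z : a).2, h5, zero_add]
    have h7 : ∀ s : Finset (Fin (finrank k N')),
        f (∑ i ∈ s, b.repr z i • ((b i : a) : V)) =
          ∑ i ∈ s, (b.repr z i) ^ p • f ((b i : a) : V) := by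
      intro s
      induction s using Finset.induction_on with
      | empty => rw [Finset.sum_empty, Finset.sum_empty, hf0]
      | insert i s hi ih =>
        rw [Finset.sum_insert hi, Finset.sum_insert hi, hadd, ih, hsmul _ _ (b i : a).2]
        · exact a.smul_mem _ (b i : a).2
        · exact a.sum_mem fun j _ => a.smul_mem _ (b j : a).2
    have h8 : ((z : a) : V) = ∑ i, b.repr z i • ((b i : a) : V) := by
      conv_lhs => rw [← b.sum_repr z]
      rw [Submodule.coe_sum, Submodule.coe_sum]
      rfl
    rw [SetLike.mem_coe, h6, h8, h7]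
    exact Submodule.sum_mem _ fun i _ => Submodule.smul_mem _ _ (Submodule.subset_span ⟨i, rfl⟩)
  have h4 : finrank k (Submodule.span k (Set.range fun i => f ((b i : a) : V))) ≤ finrank k N' := by
    have := finrank_range_le_card (R := k) (fun i => f ((b i : a) : V))
    rw [Fintype.card_fin] at this
    exact this
  have h5 : finrank k (Submodule.span k (f '' a)) ≤
      finrank k (Submodule.span k (Set.range fun i => f ((b i : a) : V))) := by
    have : FiniteDimensional k (Submodule.span k (Set.range fun i => f ((b i : a) : V))) :=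
      FiniteDimensional.span_of_finite k (Set.finite_range _)
    exact Submodule.finrank_mono h3
  omega

end semi

section codim

variable {k : Type*} [Field k] {V : Type*} [AddCommGroup V] [Module k V] [FiniteDimensional k V]

/-- If the square of the `p`-map on `a` has corank at most three, its image and its kernel span a
subspace of codimension at most one. -/
theorem codim_one (p : ℕ) [hp : Fact p.Prime] [CharP k p] (hk : ∀ c : k, ∃ d : k, d ^ p = c)
    (br : V →ₗ[k] V →ₗ[k] V) (a b : Submodule k V)
    (hcom : ∀ v ∈ a, ∀ w ∈ a, Commute (br v : Module.End k V) (br w))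
    (hz : LinearMap.ker br ≤ a)
    (hb1 : ∀ y ∈ a, (br y : Module.End k V) ^ p = 0 → y ∈ b)
    (hb2 : ∀ v ∈ a, ∃ v', v' ∈ a ∧ v' ∈ b ∧ br v' = (br v : Module.End k V) ^ p)
    (hcor : finrank k a ≤ finrank k (LinearMap.ker br) + finrank k (Submodule.span k
      {T : Module.End k V | ∃ w ∈ a, T = (br w : Module.End k V) ^ (p ^ 2)}) + 3) :
    finrank k a ≤ finrank k (b ⊓ a : Submodule k V) + 1 := by
  by_cases hV : Subsingleton V
  · have h1 : finrank k a = 0 := by
      have h2 : finrank k V = 0 := finrank_zero_of_subsingleton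
      have := Submodule.finrank_le a
      omega
    omega
  have hnt : Nontrivial V := not_subsingleton_iff_nontrivial.1 hV
  have hch : CharP (Module.End k V) p :=
    charP_of_injective_algebraMap (FaithfulSMul.algebraMap_injective k (Module.End k V)) p
  let F : V → Module.End k V := fun w => (br w : Module.End k V) ^ p
  have hadd : ∀ y ∈ a, ∀ z ∈ a, F (y + z) = F y + F z := by
    intro y hy z hz
    show (br (y + z) : Module.End k V) ^ p = _
    rw [map_add]
    exact add_pow_char_of_commute p (hcom y hy z hz)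
  have hsmul : ∀ (c : k), ∀ z ∈ a, F (c • z) = c ^ p • F z := by
    intro c z _
    show (br (c • z) : Module.End k V) ^ p = _
    rw [map_smul]
    exact smul_pow c (br z : Module.End k V) p
  have hF0 : F 0 = 0 := by
    show (br 0 : Module.End k V) ^ p = 0
    rw [map_zero]
    exact zero_pow hp.out.ne_zero
  let K : Submodule k V :=
    { carrier := {y | y ∈ a ∧ F y = 0}
      zero_mem' := ⟨a.zero_mem, hF0⟩
      add_mem' := fun {y z} hy hz => ⟨a.add_mem hy.1 hz.1, by
        rw [hadd y hy.1 z hz.1, hy.2, hz.2, add_zero]⟩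
      smul_mem' := fun c y hy => ⟨a.smul_mem c hy.1, by
        rw [hsmul c y hy.1, hy.2, smul_zero]⟩ }
  have hmK : ∀ y, y ∈ K ↔ y ∈ a ∧ F y = 0 := fun y => Iff.rfl
  set S1 : Submodule k (Module.End k V) := Submodule.span k (F '' a) with hS1
  set S2 : Submodule k (Module.End k V) := Submodule.span k
      {T : Module.End k V | ∃ w ∈ a, T = (br w : Module.End k V) ^ (p ^ 2)} with hS2
  set I : Submodule k V := a ⊓ S1.comap br with hI
  have hIa : I ≤ a := inf_le_left
  -- the counting facts
  have e1 : finrank k a ≤ finrank k K + finrank k S1 :=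
    semi_sub p hk a K F hadd hsmul (fun z hz h => ⟨hz, h⟩) S1
      (fun z hz => Submodule.subset_span ⟨z, hz, rfl⟩)
  have e2 : finrank k S1 + finrank k K ≤ finrank k a :=
    semi_sub' p hp.out.ne_zero a K F hadd hsmul (fun z hz => hz)
  have e3 : finrank k S2 + finrank k (K ⊓ I : Submodule k V) ≤ finrank k I := by
    have h1 := semi_sub' p hp.out.ne_zero I (K ⊓ I) F
      (fun y hy z hz => hadd y (hIa hy) z (hIa hz)) (fun c z hz => hsmul c z (hIa hz))
      (fun z hz => ⟨hz.2, hz.1.2⟩)
    have h2 : S2 ≤ Submodule.span k (F '' I) := by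
      rw [hS2, Submodule.span_le]
      rintro _ ⟨w, hw, rfl⟩
      obtain ⟨w', hw'a, -, hw'⟩ := hb2 w hw
      refine Submodule.subset_span ⟨w', ⟨hw'a, ?_⟩, ?_⟩
      · show br w' ∈ S1
        rw [hw']
        exact Submodule.subset_span ⟨w, hw, rfl⟩
      · show (br w' : Module.End k V) ^ p = (br w : Module.End k V) ^ (p ^ 2)
        rw [hw', ← pow_mul, sq]
    have h3 := Submodule.finrank_mono h2
    omega
  have e4 : finrank k I = finrank k S1 + finrank k (LinearMap.ker br) := by
    have h1 := LinearMap.finrank_range_add_finrank_ker (br.domRestrict I)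
    have h2 : LinearMap.range (br.domRestrict I) = S1 := by
      apply le_antisymm
      · rintro _ ⟨y, rfl⟩
        exact y.2.2
      · rw [hS1, Submodule.span_le]
        rintro _ ⟨w, hw, rfl⟩
        obtain ⟨w', hw'a, -, hw'⟩ := hb2 w hw
        refine ⟨⟨w', ⟨hw'a, ?_⟩⟩, hw'⟩
        show br w' ∈ S1
        rw [hw']
        exact Submodule.subset_span ⟨w, hw, rfl⟩
    have h3 : finrank k (LinearMap.ker (br.domRestrict I)) = finrank k (LinearMap.ker br) := by
      have h4 : LinearMap.ker (br.domRestrict I) = (LinearMap.ker br).comap I.subtype := by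
        ext y
        rfl
      have h5 : LinearMap.ker br ≤ I := by
        intro y hy
        refine ⟨hz hy, ?_⟩
        show br y ∈ S1
        rw [LinearMap.mem_ker.1 hy]
        exact S1.zero_mem
      rw [h4]
      exact (Submodule.comapSubtypeEquivOfLe h5).finrank_eq
    have h6 : finrank k (LinearMap.range (br.domRestrict I)) = finrank k S1 := by
      rw [h2]
    rw [h6, h3] at h1
    omega
  have e5 := Submodule.finrank_sup_add_finrank_inf_eq K I
  have e6 : finrank k (K ⊓ I : Submodule k V) ≤ finrank k K :=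
    Submodule.finrank_mono inf_le_left
  have e7 : K ⊔ I ≤ b ⊓ a := by
    refine sup_le ?_ ?_
    · intro y hy
      exact ⟨hb1 y hy.1 hy.2, hy.1⟩
    · intro y hy
      refine ⟨?_, hIa hy⟩
      have h1 : S1 ≤ (b ⊓ a).map br := by
        rw [hS1, Submodule.span_le]
        rintro _ ⟨w, hw, rfl⟩
        obtain ⟨w', hw'a, hw'b, hw'⟩ := hb2 w hw
        exact ⟨w', ⟨hw'b, hw'a⟩, hw'⟩
      obtain ⟨y', ⟨hy'b, hy'a⟩, hy'⟩ := h1 hy.2
      have h2 : y - y' ∈ b := by
        refine hb1 _ (a.sub_mem (hIa hy) hy'a) ?_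
        rw [map_sub, hy', sub_self]
        exact zero_pow hp.out.ne_zero
      have h3 : y = (y - y') + y' := by abel
      rw [h3]
      exact b.add_mem h2 hy'b
  have e8 := Submodule.finrank_mono e7
  omega

/-- Two vectors are dependent modulo a subspace of codimension at most one. -/
theorem dep_of_codim (a b : Submodule k V)
    (h : finrank k a ≤ finrank k (b ⊓ a : Submodule k V) + 1) {v w : V} (hv : v ∈ a)
    (hw : w ∈ a) : ∃ α β : k, (α ≠ 0 ∨ β ≠ 0) ∧ α • v + β • w ∈ b := by
  by_cases hvb : v ∈ b
  · exact ⟨1, 0, Or.inl one_ne_zero, by rw [one_smul, zero_smul, add_zero]; exact hvb⟩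
  · have h1 : (b ⊓ a) ⊔ Submodule.span k {v} ≤ a := by
      refine sup_le inf_le_right ?_
      rw [Submodule.span_singleton_le_iff_mem]
      exact hv
    have h2 : (b ⊓ a) < (b ⊓ a) ⊔ Submodule.span k {v} := by
      refine lt_of_le_of_ne le_sup_left ?_
      intro h3
      apply hvb
      have h4 : v ∈ (b ⊓ a) := by
        rw [h3]
        exact Submodule.mem_sup_right (Submodule.mem_span_singleton_self v)
      exact h4.1
    have h3 := Submodule.finrank_lt_finrank_of_lt h2
    have h4 : (b ⊓ a) ⊔ Submodule.span k {v} = a :=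
      Submodule.eq_of_le_of_finrank_le h1 (by omega)
    rw [← h4] at hw
    obtain ⟨y, hy, z, hz, hyz⟩ := Submodule.mem_sup.1 hw
    obtain ⟨c, rfl⟩ := Submodule.mem_span_singleton.1 hz
    refine ⟨-c, 1, Or.inr one_ne_zero, ?_⟩
    have h5 : -c • v + (1 : k) • w = y := by
      rw [← hyz, one_smul, neg_smul]
      abel
    rw [h5]
    exact hy.1

end codim

end Pool.Agent.Helper28.KW
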