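import Pool.Agent.Helper58.KW.Defs

set_option autoImplicit false

/-!
# From functionals on the enveloping algebra to symbols

Let `η : A → k` be linear with `η ([y, a]) = 0` for all `a`, `θ = η ∘ ι`.  If `[y, u]` has degree
`≤ m` and symbol `q` of degree `m`, then `q (θ) = 0`.  `A` acts on the symmetric algebra of `A` by
`a ↦ mult a + L a`.
-/

namespace Pool.Agent.Helper28.KW

open MvPolynomial Module Pool.Agent.Helper58.KW

section deg

variable {k : Type*} [Field k] {B : Type*}

/-- Polynomials of degree `< d`. -/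
noncomputable def LT (k : Type*) [Field k] (B : Type*) (d : ℕ) : Submodule k (MvPolynomial B k) :=
  Submodule.span k {f | ∃ i < d, f.IsHomogeneous i}

theorem hom_mem_LT {i d : ℕ} (h : i < d) {f : MvPolynomial B k} (hf : f.IsHomogeneous i) :
    f ∈ LT k B d := Submodule.subset_span ⟨i, h, hf⟩

theorem LT_mono {d e : ℕ} (h : d ≤ e) : LT k B d ≤ LT k B e := by
  refine Submodule.span_mono ?_
  rintro f ⟨i, hi, hf⟩
  exact ⟨i, by omega, hf⟩

theorem LT_zero : LT k B 0 = ⊥ := by
  rw [eq_bot_iff]
  refine Submodule.span_le.2 ?_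
  rintro f ⟨i, hi, -⟩
  omega

theorem LT_mul {d : ℕ} {g f : MvPolynomial B k} (hg : g.IsHomogeneous 1) (hf : f ∈ LT k B d) :
    g * f ∈ LT k B (d + 1) := by
  induction hf using Submodule.span_induction with
  | mem f hf =>
    obtain ⟨i, hi, hf⟩ := hf
    exact hom_mem_LT (by omega) (hg.mul hf)
  | zero =>
    rw [mul_zero]
    exact zero_mem _
  | add x y _ _ hx hy =>
    rw [mul_add]
    exact add_mem hx hy
  | smul c x _ hx =>
    rw [mul_smul_comm]
    exact Submodule.smul_mem _ _ hx

theorem hc_LT {m : ℕ} {f : MvPolynomial B k} (hf : f ∈ LT k B m) :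
    homogeneousComponent m f = 0 := by
  induction hf using Submodule.span_induction with
  | mem f hf =>
    obtain ⟨i, hi, hf⟩ := hf
    rw [homogeneousComponent_of_mem hf, if_neg (by omega)]
  | zero => exact map_zero _
  | add x y _ _ hx hy => rw [map_add, hx, hy, add_zero]
  | smul c x _ hx => rw [map_smul, hx, smul_zero]

theorem hc_self {m : ℕ} {f : MvPolynomial B k} (hf : f.IsHomogeneous m) :
    homogeneousComponent m f = f := by
  rw [homogeneousComponent_of_mem hf, if_pos rfl]

/-- Derivations with linear coefficients preserve the degree. -/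
theorem der_hom {f : B → MvPolynomial B k} (hf : ∀ i, (f i).IsHomogeneous 1) {n : ℕ}
    {q : MvPolynomial B k} (hq : q.IsHomogeneous n) : (mkDerivation k f q).IsHomogeneous n := by
  classical
  rw [q.as_sum, map_sum]
  refine IsHomogeneous.sum _ _ _ fun ν hν => ?_
  have hdeg : Finsupp.degree ν = n := by
    have := hq (mem_support_iff.1 hν)
    rwa [Finsupp.degree_eq_weight_one]
  rw [mkDerivation_monomial]
  rw [smul_eq_C_mul]
  have h0 : (C (coeff ν q) : MvPolynomial B k).IsHomogeneous 0 := isHomogeneous_C _ _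
  have h1 : (ν.sum fun i c => (monomial (ν - Finsupp.single i 1) ((c : ℕ) : k) :
      MvPolynomial B k) • f i).IsHomogeneous n := by
    refine IsHomogeneous.sum _ _ _ fun i hi => ?_
    have hi0 : 1 ≤ ν i := Nat.one_le_iff_ne_zero.2 (Finsupp.mem_support_iff.1 hi)
    have h2 : Finsupp.degree (ν - Finsupp.single i 1) + 1 = n := by
      have h3 : (ν - Finsupp.single i 1) + Finsupp.single i 1 = ν := by
        apply tsub_add_cancel_of_le
        rw [Finsupp.single_le_iff]
        exact hi0
      have h4 := congrArg Finsupp.degree h3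
      rw [map_add, Finsupp.degree_single, hdeg] at h4
      exact h4
    have h5 := (isHomogeneous_monomial ((ν i : ℕ) : k) (d := ν - Finsupp.single i 1) rfl).mul (hf i)
    rw [h2] at h5
    exact h5
  have h6 := h0.mul h1
  rwa [zero_add] at h6

theorem der_LT {f : B → MvPolynomial B k} (hf : ∀ i, (f i).IsHomogeneous 1) {d : ℕ}
    {q : MvPolynomial B k} (hq : q ∈ LT k B d) : mkDerivation k f q ∈ LT k B d := by
  induction hq using Submodule.span_induction with
  | mem q hq =>
    obtain ⟨i, hi, hq⟩ := hq
    exact hom_mem_LT hi (der_hom hf hq)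
  | zero =>
    rw [map_zero]
    exact zero_mem _
  | add x y _ _ hx hy =>
    rw [map_add]
    exact add_mem hx hy
  | smul c x _ hx =>
    rw [Derivation.map_smul]
    exact Submodule.smul_mem _ _ hx

theorem hc_der {f : B → MvPolynomial B k} (hf : ∀ i, (f i).IsHomogeneous 1) (m : ℕ)
    (q : MvPolynomial B k) :
    homogeneousComponent m (mkDerivation k f q) = mkDerivation k f (homogeneousComponent m q) := by
  conv_lhs => rw [← sum_homogeneousComponent q]
  rw [map_sum, map_sum]
  have h1 : ∀ i ∈ Finset.range (q.totalDegree + 1),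
      homogeneousComponent m (mkDerivation k f (homogeneousComponent i q)) =
        if i = m then mkDerivation k f (homogeneousComponent i q) else 0 := by
    intro i _
    rw [homogeneousComponent_of_mem (der_hom hf (homogeneousComponent_isHomogeneous i q))]
    by_cases h : i = m
    · rw [if_pos h, if_pos h.symm]
    · rw [if_neg h, if_neg (fun h' => h h'.symm)]
  rw [Finset.sum_congr rfl h1, Finset.sum_ite_eq']
  split_ifs with h
  · rfl
  · have h2 : homogeneousComponent m q = 0 := by
      apply homogeneousComponent_eq_zero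
      rw [Finset.mem_range] at h
      omega
    rw [h2, map_zero]

end deg

section act

variable {k : Type*} [Field k] {A : Type*} [Ring A] [Algebra k A] {B : Type*} (b : Basis B k A)

/-- The linear form attached to an element of `A`. -/
noncomputable def ln : A →ₗ[k] MvPolynomial B k := b.constr k fun i => X i

theorem ln_basis (i : B) : ln b (b i) = X i := b.constr_basis k _ i

theorem ln_hom (a : A) : (ln b a).IsHomogeneous 1 := by
  have h1 : a ∈ Submodule.span k (Set.range b) := b.mem_span a
  have h2 : Submodule.span k (Set.range b) ≤ (homogeneousSubmodule B k 1).comap (ln b) := by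
    refine Submodule.span_le.2 ?_
    rintro _ ⟨x, rfl⟩
    show (ln b (b x)).IsHomogeneous 1
    rw [ln_basis]
    exact isHomogeneous_X k x
  exact h2 h1

/-- The derivation extending a linear endomorphism of `A`. -/
noncomputable def Ld (T : A →ₗ[k] A) : Derivation k (MvPolynomial B k) (MvPolynomial B k) :=
  mkDerivation k fun i => ln b (T (b i))

theorem Ld_ln (T : A →ₗ[k] A) (a : A) : Ld b T (ln b a) = ln b (T a) := by
  have h1 : ((Ld b T : Derivation k (MvPolynomial B k) (MvPolynomial B k)) :
      MvPolynomial B k →ₗ[k] MvPolynomial B k) ∘ₗ ln b = ln b ∘ₗ T := by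
    apply b.ext
    intro i
    show Ld b T (ln b (b i)) = ln b (T (b i))
    rw [ln_basis]
    exact mkDerivation_X k _ i
  exact LinearMap.congr_fun h1 a

theorem Ld_comm (S T : A →ₗ[k] A) (f : MvPolynomial B k) :
    Ld b S (Ld b T f) - Ld b T (Ld b S f) = Ld b (S ∘ₗ T - T ∘ₗ S) f := by
  have h1 : ⁅Ld b S, Ld b T⁆ = Ld b (S ∘ₗ T - T ∘ₗ S) := by
    apply derivation_ext
    intro i
    rw [Derivation.commutator_apply, ← ln_basis b i, Ld_ln, Ld_ln, Ld_ln, Ld_ln, Ld_ln, ← map_sub]
    rfl
  rw [← h1, Derivation.commutator_apply]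

/-- The action of `A` on the symmetric algebra of `A`. -/
noncomputable def rho (a : A) : MvPolynomial B k →ₗ[k] MvPolynomial B k :=
  LinearMap.mulLeft k (ln b a) + (Ld b (LinearMap.mulLeft k a) :
    MvPolynomial B k →ₗ[k] MvPolynomial B k)

theorem rho_apply (a : A) (f : MvPolynomial B k) :
    rho b a f = ln b a * f + Ld b (LinearMap.mulLeft k a) f := rfl

theorem Ld_sub (S T : A →ₗ[k] A) (f : MvPolynomial B k) :
    Ld b (S - T) f = Ld b S f - Ld b T f := by
  have h1 : Ld b (S - T) = Ld b S - Ld b T := by
    apply derivation_ext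
    intro i
    rw [Derivation.sub_apply, ← ln_basis b i, Ld_ln, Ld_ln, Ld_ln, LinearMap.sub_apply, map_sub]
  rw [h1, Derivation.sub_apply]

theorem rho_comm (a c : A) (f : MvPolynomial B k) :
    rho b a (rho b c f) - rho b c (rho b a f) = rho b (a * c - c * a) f := by
  have h1 := Ld_comm b (LinearMap.mulLeft k a) (LinearMap.mulLeft k c) f
  have h2 : (LinearMap.mulLeft k a ∘ₗ LinearMap.mulLeft k c -
      LinearMap.mulLeft k c ∘ₗ LinearMap.mulLeft k a : A →ₗ[k] A) =
      LinearMap.mulLeft k (a * c - c * a) := by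
    ext x
    simp only [LinearMap.sub_apply, LinearMap.comp_apply, LinearMap.mulLeft_apply]
    noncomm_ring
  rw [h2] at h1
  simp only [rho_apply, map_add, Derivation.leibniz, Ld_ln, LinearMap.mulLeft_apply, smul_eq_mul,
    map_sub]
  rw [← h1]
  ring

/-- The derivation of the symmetric algebra extending `ad y`. -/
noncomputable def dl (y : A) : Derivation k (MvPolynomial B k) (MvPolynomial B k) :=
  Ld b (LinearMap.mulLeft k y - LinearMap.mulRight k y)

theorem dl_rho (y a : A) (f : MvPolynomial B k) :
    dl b y (rho b a f) = rho b (y * a - a * y) f + rho b a (dl b y f) := by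
  have h1 := Ld_comm b (LinearMap.mulLeft k y - LinearMap.mulRight k y) (LinearMap.mulLeft k a) f
  have h2 : ((LinearMap.mulLeft k y - LinearMap.mulRight k y) ∘ₗ LinearMap.mulLeft k a -
      LinearMap.mulLeft k a ∘ₗ (LinearMap.mulLeft k y - LinearMap.mulRight k y) : A →ₗ[k] A) =
      LinearMap.mulLeft k (y * a - a * y) := by
    ext x
    simp only [LinearMap.sub_apply, LinearMap.comp_apply, LinearMap.mulLeft_apply,
      LinearMap.mulRight_apply]
    noncomm_ring
  rw [h2] at h1
  unfold dl
  simp only [rho_apply, map_add, Derivation.leibniz, Ld_ln, LinearMap.mulLeft_apply, smul_eq_mul,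
    LinearMap.sub_apply, LinearMap.mulRight_apply]
  rw [← h1]
  ring

/-- Evaluation at a functional. -/
noncomputable def evl (η : A →ₗ[k] k) : MvPolynomial B k →ₐ[k] k := aeval fun i => η (b i)

theorem evl_ln (η : A →ₗ[k] k) (a : A) : evl b η (ln b a) = η a := by
  have h1 : (evl b η).toLinearMap ∘ₗ ln b = η := by
    apply b.ext
    intro i
    show evl b η (ln b (b i)) = η (b i)
    rw [ln_basis]
    exact aeval_X _ i
  exact LinearMap.congr_fun h1 a

theorem evl_dl (η : A →ₗ[k] k) (y : A) (hη : ∀ a, η (y * a - a * y) = 0)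
    (f : MvPolynomial B k) : evl b η (dl b y f) = 0 := by
  induction f using MvPolynomial.induction_on with
  | C a =>
    rw [← algebraMap_eq, Derivation.map_algebraMap, map_zero]
  | add p q hp hq => rw [map_add, map_add, hp, hq, add_zero]
  | mul_X p i hp =>
    rw [Derivation.leibniz, map_add, smul_eq_mul, smul_eq_mul, map_mul, map_mul, hp, mul_zero,
      add_zero, ← ln_basis b i]
    unfold dl
    rw [Ld_ln, evl_ln, LinearMap.sub_apply, LinearMap.mulLeft_apply, LinearMap.mulRight_apply, hη,
      mul_zero]

end act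

section main

variable {k : Type*} [Field k] {V : Type*} [AddCommGroup V] [Module k V] {A : Type*} [Ring A]
  [Algebra k A] {X : Type*} {B : Type*} (b : Basis B k A)

theorem act_LT (T : A →ₐ[k] Module.End k (MvPolynomial B k)) (ι : V →ₗ[k] A)
    (hT : ∀ v, T (ι v) = rho b (ι v)) {d : ℕ} {f : MvPolynomial B k} (hf : f ∈ LT k B d) (v : V) :
    T (ι v) f ∈ LT k B (d + 1) := by
  rw [hT, rho_apply]
  refine add_mem (LT_mul (ln_hom b _) hf) (LT_mono (Nat.le_succ d) ?_)
  exact der_LT (fun i => ln_hom b _) hf

theorem act_word (T : A →ₐ[k] Module.End k (MvPolynomial B k)) (ι : V →ₗ[k] A)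
    (hT : ∀ v, T (ι v) = rho b (ι v)) (l : List V) :
    T (l.map ι).prod 1 ∈ LT k B (l.length + 1) := by
  induction l with
  | nil =>
    rw [List.map_nil, List.prod_nil, map_one T, Module.End.one_apply]
    exact hom_mem_LT (Nat.zero_lt_succ _) (isHomogeneous_one _ _)
  | cons v l ih =>
    rw [List.map_cons, List.prod_cons, map_mul, Module.End.mul_apply, List.length_cons]
    exact act_LT b T ι hT ih v

theorem act_G (T : A →ₐ[k] Module.End k (MvPolynomial B k)) (ι : V →ₗ[k] A)
    (hT : ∀ v, T (ι v) = rho b (ι v)) {d : ℕ} {a : A} (ha : a ∈ G ι d) :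
    T a 1 ∈ LT k B d := by
  induction ha using Submodule.span_induction with
  | mem a ha =>
    obtain ⟨l, hl, rfl⟩ := ha
    exact LT_mono (by omega) (act_word b T ι hT l)
  | zero =>
    rw [map_zero, LinearMap.zero_apply]
    exact zero_mem _
  | add x y _ _ hx hy =>
    rw [map_add, LinearMap.add_apply]
    exact add_mem hx hy
  | smul c x _ hx =>
    rw [map_smul, LinearMap.smul_apply]
    exact Submodule.smul_mem _ _ hx

theorem act_symb (T : A →ₐ[k] Module.End k (MvPolynomial B k)) (ι : V →ₗ[k] A)
    (hT : ∀ v, T (ι v) = rho b (ι v)) (e : Basis X k V) (symb : MvPolynomial X k →ₗ[k] A)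
    (h : PBW ι e symb) (m : ℕ) : ∀ q : MvPolynomial X k, q.IsHomogeneous m →
      T (symb q) 1 - aeval (fun x => ln b (ι (e x))) q ∈ LT k B m := by
  classical
  induction m with
  | zero =>
    intro q hq
    have h1 : q = C (coeff 0 q) := by
      have h2 := (totalDegree_zero_iff_isHomogeneous X).2 hq
      exact totalDegree_eq_zero_iff_eq_C.1 h2
    have h3 : q = (coeff 0 q) • (1 : MvPolynomial X k) := by
      conv_lhs => rw [h1]
      rw [smul_eq_C_mul, mul_one]
    have h4 : T (symb q) 1 = (coeff 0 q) • 1 := by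
      rw [h3, map_smul, h.symb_one, map_smul T, map_one T, LinearMap.smul_apply,
        Module.End.one_apply]
      simp
    have h5 : aeval (fun x => ln b (ι (e x))) q = (coeff 0 q) • (1 : MvPolynomial B k) := by
      conv_lhs => rw [h3]
      rw [map_smul, map_one]
    rw [h4, h5, sub_self]
    exact zero_mem _
  | succ m ih =>
    intro q hq
    have hsum : T (symb q) 1 - aeval (fun x => ln b (ι (e x))) q =
        ∑ ν ∈ q.support, (T (symb (monomial ν (coeff ν q))) 1 -
          aeval (fun x => ln b (ι (e x))) (monomial ν (coeff ν q))) := by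
      conv_lhs => rw [q.as_sum]
      rw [map_sum, map_sum, map_sum, LinearMap.sum_apply, Finset.sum_sub_distrib]
    rw [hsum]
    refine Submodule.sum_mem _ fun ν hν => ?_
    have hdeg : Finsupp.degree ν = m + 1 := by
      have := hq (mem_support_iff.1 hν)
      rwa [Finsupp.degree_eq_weight_one]
    obtain ⟨x, hx⟩ : ∃ x, ν x ≠ 0 := by
      by_contra hcon
      push Not at hcon
      have : ν = 0 := Finsupp.ext hcon
      rw [this, map_zero] at hdeg
      omega
    set μ := ν - Finsupp.single x 1 with hμ
    have hadd : Finsupp.single x 1 + μ = ν := by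
      rw [hμ, add_tsub_cancel_of_le]
      rw [Finsupp.single_le_iff]
      omega
    have hμd : Finsupp.degree μ = m := by
      have h4 := congrArg Finsupp.degree hadd
      rw [map_add, Finsupp.degree_single, hdeg] at h4
      omega
    have hmon : (monomial ν (coeff ν q) : MvPolynomial X k) =
        MvPolynomial.X x * monomial μ (coeff ν q) := by
      rw [← hadd]
      have : (MvPolynomial.X x : MvPolynomial X k) = monomial (Finsupp.single x 1) 1 := rfl
      rw [this, monomial_mul, one_mul]
    have hhom : (monomial μ (coeff ν q) : MvPolynomial X k).IsHomogeneous m :=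
      isHomogeneous_monomial _ hμd
    have h5 := ih _ hhom
    have h6 := h.symb_mul (isHomogeneous_X k x) hhom
    rw [← hmon, h.symb_X] at h6
    have h7 := act_G b T ι hT h6
    rw [map_sub, LinearMap.sub_apply, map_mul, Module.End.mul_apply] at h7
    have h8 := act_LT b T ι hT h5 (e x)
    have h9 : T (ι (e x)) (aeval (fun x => ln b (ι (e x))) (monomial μ (coeff ν q))) -
        aeval (fun x => ln b (ι (e x))) (monomial ν (coeff ν q)) ∈ LT k B (m + 1) := by
      rw [hT, rho_apply, hmon, map_mul, aeval_X, add_sub_cancel_left]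
      refine der_LT (fun i => ln_hom b _) (hom_mem_LT (Nat.lt_succ_self m) ?_)
      have h10 := hhom.aeval (fun x => ln b (ι (e x))) (n := 1) (fun x => ln_hom b _)
      simpa using h10
    rw [map_sub] at h8
    rw [add_comm 1 m] at h7
    have h11 := sub_mem (add_mem h8 h9) h7
    convert h11 using 1
    abel

/-- The main statement. -/
theorem symb_eval (T : A →ₐ[k] Module.End k (MvPolynomial B k)) (ι : V →ₗ[k] A)
    (hT : ∀ v, T (ι v) = rho b (ι v)) (br : V → V → V)
    (hbr : ∀ v w, ι v * ι w - ι w * ι v = ι (br v w)) (e : Basis X k V)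
    (symb : MvPolynomial X k →ₗ[k] A) (h : PBW ι e symb) (y : V) (η : A →ₗ[k] k)
    (hη : ∀ a, η (ι y * a - a * ι y) = 0) (u : A) (m : ℕ) (q : MvPolynomial X k)
    (hq : q.IsHomogeneous m) (hu : ι y * u - u * ι y - symb q ∈ G ι m) :
    eval (fun x => η (ι (e x))) q = 0 := by
  have hder : ∀ (a : A) (f : MvPolynomial B k),
      dl b (ι y) (T a f) = T (ι y * a - a * ι y) f + T a (dl b (ι y) f) := by
    intro a
    obtain ⟨d, hd⟩ := h.exhaust a
    induction hd using Submodule.span_induction with
    | mem a ha =>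
      obtain ⟨l, -, rfl⟩ := ha
      induction l with
      | nil =>
        intro f
        simp
      | cons v l ih =>
        intro f
        have e1 : ι y * (ι v * (l.map ι).prod) - ι v * (l.map ι).prod * ι y =
            ι (br y v) * (l.map ι).prod + ι v * (ι y * (l.map ι).prod - (l.map ι).prod * ι y) := by
          rw [← hbr]
          noncomm_ring
        rw [List.map_cons, List.prod_cons, e1, map_mul, Module.End.mul_apply, hT, dl_rho, hbr, ih,
          map_add, map_add, map_mul, map_mul, hT, hT]
        simp only [LinearMap.add_apply, Module.End.mul_apply]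
        rw [add_assoc]
    | zero =>
      intro f
      simp
    | add a c _ _ ha hc =>
      intro f
      have e1 : ι y * (a + c) - (a + c) * ι y = (ι y * a - a * ι y) + (ι y * c - c * ι y) := by
        noncomm_ring
      rw [e1, map_add, map_add, LinearMap.add_apply, LinearMap.add_apply, map_add, ha, hc,
        LinearMap.add_apply]
      abel
    | smul c a _ ha =>
      intro f
      have e1 : ι y * (c • a) - (c • a) * ι y = c • (ι y * a - a * ι y) := by
        rw [mul_smul_comm, smul_mul_assoc, smul_sub]
      rw [e1, map_smul, map_smul, LinearMap.smul_apply, LinearMap.smul_apply, Derivation.map_smul,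
        ha, smul_add, LinearMap.smul_apply]
  have h1 := hder u 1
  rw [Derivation.map_one_eq_zero, map_zero, add_zero] at h1
  have h2 := act_G b T ι hT hu
  rw [map_sub, LinearMap.sub_apply, ← h1] at h2
  have h3 := act_symb b T ι hT e symb h m q hq
  have h4 := hc_LT (add_mem h2 h3)
  have h5 : dl b (ι y) (T u 1) - T (symb q) 1 + (T (symb q) 1 -
      aeval (fun x => ln b (ι (e x))) q) = dl b (ι y) (T u 1) -
      aeval (fun x => ln b (ι (e x))) q := by abel
  have h6 : (aeval (fun x => ln b (ι (e x))) q : MvPolynomial B k).IsHomogeneous m := by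
    have h10 := hq.aeval (fun x => ln b (ι (e x))) (n := 1) (fun x => ln_hom b _)
    simpa using h10
  rw [h5, map_sub, hc_self h6] at h4
  have h7 : homogeneousComponent m (dl b (ι y) (T u 1)) =
      dl b (ι y) (homogeneousComponent m (T u 1)) := hc_der (fun i => ln_hom b _) m _
  rw [h7] at h4
  have h8 := congrArg (evl b η) h4
  rw [map_sub, evl_dl b η (ι y) hη, zero_sub, map_zero, neg_eq_zero] at h8
  have h9 : (evl b η).comp (aeval (fun x => ln b (ι (e x)))) = aeval (fun x => η (ι (e x))) := by
    apply MvPolynomial.algHom_ext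
    intro x
    rw [AlgHom.comp_apply, aeval_X, aeval_X, evl_ln]
  have h10 := AlgHom.congr_fun h9 q
  rw [AlgHom.comp_apply, h8] at h10
  rw [← coe_aeval_eq_eval]
  exact h10.symm

/-- A functional on a space factors through a linear map if it kills the kernel. -/
theorem exists_factor {Q : Type*} [AddCommGroup Q] [Module k Q] (f : V →ₗ[k] Q) (θ : V →ₗ[k] k)
    (h : ∀ v, f v = 0 → θ v = 0) : ∃ g : Q →ₗ[k] k, ∀ v, g (f v) = θ v := by
  let g0 : LinearMap.range f →ₗ[k] k :=
    ((LinearMap.ker f).liftQ θ (fun v hv => h v hv)) ∘ₗ f.quotKerEquivRange.symm.toLinearMap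
  obtain ⟨g, hg⟩ := LinearMap.exists_extend g0
  refine ⟨g, fun v => ?_⟩
  have h1 := LinearMap.congr_fun hg ⟨f v, v, rfl⟩
  have h2 : g0 ⟨f v, v, rfl⟩ = θ v := by
    show (LinearMap.ker f).liftQ θ (fun v hv => h v hv)
      (f.quotKerEquivRange.symm ⟨f v, v, rfl⟩) = θ v
    have h3 : f.quotKerEquivRange.symm ⟨f v, v, rfl⟩ = Submodule.Quotient.mk v := by
      rw [LinearEquiv.symm_apply_eq]
      rfl
    rw [h3]
    rfl
  rw [← h2]
  exact h1

/-- If `θ` kills the elements of `V` which are commutators with `y`, the symbols of commutators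
with `y` vanish at `θ`. -/
theorem symb_eval_E1 (T : A →ₐ[k] Module.End k (MvPolynomial B k)) (ι : V →ₗ[k] A)
    (hT : ∀ v, T (ι v) = rho b (ι v)) (br : V → V → V)
    (hbr : ∀ v w, ι v * ι w - ι w * ι v = ι (br v w)) (e : Basis X k V)
    (symb : MvPolynomial X k →ₗ[k] A) (h : PBW ι e symb) (y : V) (θ : V →ₗ[k] k)
    (hθ : ∀ v a, ι y * a - a * ι y = ι v → θ v = 0) (u : A) (m : ℕ) (q : MvPolynomial X k)
    (hq : q.IsHomogeneous m) (hu : ι y * u - u * ι y - symb q ∈ G ι m) :
    eval (fun x => θ (e x)) q = 0 := by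
  set R : Submodule k A :=
    LinearMap.range (LinearMap.mulLeft k (ι y) - LinearMap.mulRight k (ι y)) with hR
  obtain ⟨g, hg⟩ := exists_factor (R.mkQ ∘ₗ ι) θ (fun v hv => by
    have h1 : ι v ∈ R := by
      rw [← Submodule.Quotient.mk_eq_zero]
      exact hv
    obtain ⟨a, ha⟩ := h1
    exact hθ v a ha)
  have h2 := symb_eval b T ι hT br hbr e symb h y (g ∘ₗ R.mkQ) (fun a => by
    have h3 : R.mkQ (ι y * a - a * ι y) = 0 := by
      rw [Submodule.mkQ_apply, Submodule.Quotient.mk_eq_zero]
      exact ⟨a, rfl⟩
    rw [LinearMap.comp_apply, h3, map_zero]) u m q hq hu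
  have h4 : (fun x => (g ∘ₗ R.mkQ) (ι (e x))) = fun x => θ (e x) := by
    funext x
    exact hg (e x)
  rwa [h4] at h2

end main

end Pool.Agent.Helper28.KW
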