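import Pool.Agent.Helper28.KW.Gen
import Pool.Agent.Helper28.KW.Corank
import Pool.Agent.Helper28.KW.Trick

set_option autoImplicit false

/-!
# The symbols of commutators at a generic point
-/

namespace Pool.Agent.Helper28.KW

open MvPolynomial Module Finset Pool.Agent.Helper58.KW Pool.Agent.Helper34.KW

universe u₁ u₂ u₃ u₄

section point

variable {k : Type u₁} [Field k] {V : Type u₂} [AddCommGroup V] [Module k V] {A : Type u₃}
  [Ring A] [Algebra k A] {X : Type u₄} [Fintype X]

/-- `p`-th powers are central up to elements of `V`. -/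
def PM (p : ℕ) (ι : V →ₗ[k] A) : Prop :=
  ∀ v, ∃ v', ∀ a, (ι v ^ p - ι v') * a = a * (ι v ^ p - ι v')

/-- The algebra acts on its symmetric algebra. -/
def TM (ι : V →ₗ[k] A) : Prop :=
  ∃ (B : Type u₃) (b : Basis B k A) (T : A →ₐ[k] Module.End k (MvPolynomial B k)),
    ∀ v, T (ι v) = rho b (ι v)

variable {p : ℕ} {ι : V →ₗ[k] A} {e : Basis X k V} {symb : MvPolynomial X k →ₗ[k] A}
  {br : V →ₗ[k] V →ₗ[k] V} {pm : X → V}

/-- The symbol for a general vector. -/
noncomputable def lq (e : Basis X k V) (q : X → MvPolynomial X k) (v : V) : MvPolynomial X k :=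
  ∑ x, e.repr v x • q x

theorem lq_hom {m : ℕ} {q : X → MvPolynomial X k} (hq : ∀ x, (q x).IsHomogeneous m) (v : V) :
    (lq e q v).IsHomogeneous m :=
  Submodule.sum_mem (homogeneousSubmodule X k m) fun z _ => Submodule.smul_mem _ _ (hq z)

theorem lq_symb {u : A} {m : ℕ} {q : X → MvPolynomial X k} (hd : Dat ι e symb u m q) (v : V) :
    adA ι v u - symb (lq e q v) ∈ G ι m := by
  unfold lq
  rw [adA_sum ι e, map_sum, ← sum_sub_distrib]
  refine Submodule.sum_mem _ fun z _ => ?_
  rw [map_smul, ← smul_sub]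
  exact Submodule.smul_mem _ _ (hd.2 z)

/-- The restricted cocycle identity for a general vector. -/
theorem res_gen [Nontrivial A] [hp : Fact p.Prime] [CharP k p] (h : RD p ι e symb br pm) {u : A}
    {m : ℕ} {q : X → MvPolynomial X k} (hd : Dat ι e symb u m q) {v v' : V}
    (hv : ∀ a, (ι v ^ p - ι v') * a = a * (ι v ^ p - ι v')) :
    (Ham e br v)^[p - 1] (lq e q v) = lq e q v' := by
  have hit : ∀ n : ℕ, ((Ham e br v)^[n] (lq e q v)).IsHomogeneous m ∧
      ((adA ι v) ^ n) (adA ι v u) - symb ((Ham e br v)^[n] (lq e q v)) ∈ G ι m := by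
    intro n
    induction n with
    | zero => exact ⟨lq_hom hd.1 v, lq_symb hd v⟩
    | succ n ih =>
      rw [Function.iterate_succ_apply', pow_succ', Module.End.mul_apply]
      exact ⟨dS_hom e _ ih.1, h.ad_symb _ ih.1 ih.2⟩
  obtain ⟨h1, h2⟩ := hit (p - 1)
  refine h.symb_unique h1 (lq_hom hd.1 v') h2 ?_
  have h3 : ((adA ι v) ^ (p - 1)) (adA ι v u) = adA ι v' u := by
    have h4 : ((adA ι v) ^ (p - 1)) (adA ι v u) = ((adA ι v) ^ p) u := by
      have h5 : (adA ι v) ^ p = (adA ι v) ^ (p - 1) * adA ι v := by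
        rw [← pow_succ]
        congr 1
        have := hp.out.pos
        omega
      rw [h5, Module.End.mul_apply]
    rw [h4, adA_pow, adA_apply]
    have h5 := hv u
    rw [sub_mul, mul_sub] at h5
    have h6 : ι v ^ p * u - u * ι v ^ p - (ι v' * u - u * ι v') = 0 := by
      have h7 := sub_eq_zero.2 h5
      rw [← h7]
      abel
    exact sub_eq_zero.1 h6
  rw [h3]
  exact lq_symb hd v'

variable [DecidableEq X]

/-- The Hamiltonian derivation of an element of the stabiliser vanishes at the point. -/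
theorem ham_stab {θ : X → k} {v : V} (hv : v ∈ stab br (tof e θ)) (f : MvPolynomial X k) :
    eval θ (Ham e br v f) = 0 := by
  unfold Ham dS
  rw [mkDer_apply, map_sum]
  refine sum_eq_zero fun x _ => ?_
  rw [map_mul, eval_linf, hv, mul_zero]

theorem eval_lq (q : X → MvPolynomial X k) (θ : X → k) (v : V) :
    eval θ (lq e q v) = ∑ x, e.repr v x * eval θ (q x) := by
  unfold lq
  rw [map_sum]
  refine sum_congr rfl fun x _ => ?_
  rw [smul_eval]

/-- Vectors killed by all symbols of commutators at a point. -/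
noncomputable def kil (ι : V →ₗ[k] A) (e : Basis X k V) (symb : MvPolynomial X k →ₗ[k] A)
    (θ : X → k) : Submodule k V where
  carrier := {v | ∀ u m q, Dat ι e symb u m q → eval θ (lq e q v) = 0}
  zero_mem' := fun u m q _ => by
    rw [eval_lq]
    simp
  add_mem' := fun {a b} ha hb u m q hd => by
    have h1 := ha u m q hd
    have h2 := hb u m q hd
    rw [eval_lq] at h1 h2 ⊢
    have h3 : ∑ x, e.repr (a + b) x * eval θ (q x) =
        ∑ x, e.repr a x * eval θ (q x) + ∑ x, e.repr b x * eval θ (q x) := by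
      rw [← sum_add_distrib]
      refine sum_congr rfl fun x _ => ?_
      rw [map_add, Finsupp.add_apply, add_mul]
    rw [h3, h1, h2, add_zero]
  smul_mem' := fun c a ha u m q hd => by
    have h1 := ha u m q hd
    rw [eval_lq] at h1 ⊢
    rw [← mul_zero c, ← h1, mul_sum]
    refine sum_congr rfl fun x _ => ?_
    rw [map_smul, Finsupp.smul_apply, smul_eq_mul, mul_assoc]

theorem kil_pow [Nontrivial A] [hp : Fact p.Prime] [CharP k p] (h : RD p ι e symb br pm)
    {θ : X → k} {v v' : V} (hvs : v ∈ stab br (tof e θ))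
    (hv : ∀ a, (ι v ^ p - ι v') * a = a * (ι v ^ p - ι v')) : v' ∈ kil ι e symb θ := by
  intro u m q hd
  rw [← res_gen h hd hv]
  obtain ⟨n, hn⟩ : ∃ n, p - 1 = n + 1 := ⟨p - 2, by have := hp.out.two_le; omega⟩
  rw [hn, Function.iterate_succ_apply']
  exact ham_stab hvs _

theorem kil_nil [FiniteDimensional k V] [hp : Fact p.Prime] [CharP k p]
    (h : RD p ι e symb br pm) (hPM : PM p ι) (hTM : TM ι) {θ : X → k} {y : V}
    (hys : y ∈ stab br (tof e θ)) (hy : (br y : Module.End k V) ^ p = 0) :
    y ∈ kil ι e symb θ := by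
  intro u m q hd
  obtain ⟨B, b, T, hT⟩ := hTM
  have hθ : ∀ v a, ι y * a - a * ι y = ι v → tof e θ v = 0 := by
    intro v a hva
    obtain ⟨z, hz⟩ := E1 p ι e symb h.pbw (br y) hy (adA ι y) (adA_mul ι y) (h.adA_iota y)
      (fun v => by
        obtain ⟨v', hv'⟩ := hPM v
        refine ⟨v', ?_⟩
        rw [adA_apply, hv' (ι y), sub_self]) (u := a) (y := v) hva
    rw [← hz]
    exact hys z
  have h1 := symb_eval_E1 b T ι hT (fun v w => br v w) (fun v w => (h.iota_br v w).symm) e symb
    h.pbw y (tof e θ) hθ u m (lq e q y) (lq_hom hd.1 y) (lq_symb hd y)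
  have h2 : (fun x => tof e θ (e x)) = θ := by
    ext1 x
    rw [tof_basis]
  rw [h2] at h1
  exact h1

theorem commute_of (h : RD p ι e symb br pm) {v w : V} (hvw : br v w = 0) :
    Commute (br v : Module.End k V) (br w) := by
  show (br v : Module.End k V) * br w = br w * br v
  apply LinearMap.ext
  intro z
  apply h.iota_inj
  show ι (br v (br w z)) = ι (br w (br v z))
  have h1 : ι v * ι w = ι w * ι v := by
    have := h.iota_br v w
    rw [hvw, map_zero] at this
    exact (sub_eq_zero.1 this.symm)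
  rw [h.iota_br, h.iota_br, h.iota_br, h.iota_br]
  have h2 : ι v * (ι w * ι z - ι z * ι w) - (ι w * ι z - ι z * ι w) * ι v =
      (ι v * ι w) * ι z - ι v * ι z * ι w - ι w * ι z * ι v + ι z * (ι w * ι v) := by
    noncomm_ring
  have h3 : ι w * (ι v * ι z - ι z * ι v) - (ι v * ι z - ι z * ι v) * ι w =
      (ι w * ι v) * ι z - ι w * ι z * ι v - ι v * ι z * ι w + ι z * (ι v * ι w) := by
    noncomm_ring
  rw [h2, h3, h1]
  abel

/-- `p`-th powers of adjoint maps. -/
theorem br_pow [Nontrivial A] [hp : Fact p.Prime] [CharP k p] (h : RD p ι e symb br pm) {v v' : V}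
    (hv : ∀ a, (ι v ^ p - ι v') * a = a * (ι v ^ p - ι v')) :
    br v' = (br v : Module.End k V) ^ p := by
  apply LinearMap.ext
  intro z
  apply h.iota_inj
  have h1 : ∀ n : ℕ, ι (((br v : Module.End k V) ^ n) z) = ((adA ι v) ^ n) (ι z) := by
    intro n
    induction n with
    | zero => rfl
    | succ n ih =>
      rw [pow_succ', pow_succ', Module.End.mul_apply, Module.End.mul_apply, ← ih, h.adA_iota]
  rw [h1, adA_pow, h.iota_br]
  have h5 := hv (ι z)
  rw [sub_mul, mul_sub] at h5
  have h6 : ι v' * ι z - ι z * ι v' - (ι v ^ p * ι z - ι z * ι v ^ p) = 0 := by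
    have h7 := sub_eq_zero.2 h5
    rw [← neg_eq_zero, ← h7]
    abel
  exact sub_eq_zero.1 h6

theorem codim_kil [Nontrivial A] [FiniteDimensional k V] [hp : Fact p.Prime] [CharP k p]
    (hk : ∀ c : k, ∃ d : k, d ^ p = c) (h : RD p ι e symb br pm) (hPM : PM p ι) (hTM : TM ι)
    {θ : X → k}
    (hab : ∀ v ∈ stab br (tof e θ), ∀ w ∈ stab br (tof e θ), br v w = 0)
    (hcor : finrank k (stab br (tof e θ)) ≤ finrank k (LinearMap.ker br) +
      finrank k (Submodule.span k {T : Module.End k V | ∃ w ∈ stab br (tof e θ),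
        T = (br w : Module.End k V) ^ (p ^ 2)}) + 3) :
    finrank k (stab br (tof e θ)) ≤
      finrank k (kil ι e symb θ ⊓ stab br (tof e θ) : Submodule k V) + 1 := by
  refine codim_one p hk br _ _ (fun v hv w hw => commute_of h (hab v hv w hw)) ?_ ?_ ?_ hcor
  · intro v hv w
    rw [LinearMap.mem_ker.1 hv, LinearMap.zero_apply, map_zero]
  · intro y hy hy0
    exact kil_nil h hPM hTM hy hy0
  · intro v hv
    obtain ⟨v', hv'⟩ := hPM v
    refine ⟨v', ?_, kil_pow h hv hv', br_pow h hv'⟩
    intro w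
    rw [br_pow h hv']
    obtain ⟨n, hn⟩ : ∃ n, p = n + 1 := ⟨p - 1, by have := hp.out.pos; omega⟩
    rw [hn, pow_succ', Module.End.mul_apply]
    exact hv _

/-- Symbols at such a point are proportional. -/
theorem prop_point [FiniteDimensional k V] {θ : X → k}
    (hcod : finrank k (stab br (tof e θ)) ≤
      finrank k (kil ι e symb θ ⊓ stab br (tof e θ) : Submodule k V) + 1)
    {v w : V} (hv : v ∈ stab br (tof e θ)) (hw : w ∈ stab br (tof e θ))
    {u u' : A} {m m' : ℕ} {q q' : X → MvPolynomial X k} (hd : Dat ι e symb u m q)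
    (hd' : Dat ι e symb u' m' q') :
    eval θ (lq e q v) * eval θ (lq e q' w) = eval θ (lq e q w) * eval θ (lq e q' v) := by
  obtain ⟨α, β, hαβ, hmem⟩ := dep_of_codim _ _ hcod hv hw
  have hlin : ∀ q : X → MvPolynomial X k, eval θ (lq e q (α • v + β • w)) =
      α * eval θ (lq e q v) + β * eval θ (lq e q w) := by
    intro q
    rw [eval_lq, eval_lq, eval_lq, mul_sum, mul_sum, ← sum_add_distrib]
    refine sum_congr rfl fun x _ => ?_
    rw [map_add, map_smul, map_smul, Finsupp.add_apply, Finsupp.smul_apply, Finsupp.smul_apply,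
      smul_eq_mul, smul_eq_mul]
    ring
  have h1 := hmem u m q hd
  have h2 := hmem u' m' q' hd'
  rw [hlin] at h1 h2
  rcases hαβ with h | h
  · apply mul_left_cancel₀ h
    linear_combination (eval θ (lq e q' w)) * h1 - (eval θ (lq e q w)) * h2
  · apply mul_left_cancel₀ h
    linear_combination (eval θ (lq e q v)) * h2 - (eval θ (lq e q' v)) * h1

/-- The codimension condition holds if it holds at the points of a dense open set. -/
theorem HC_of_points [Infinite k] [FiniteDimensional k V] (h₀ : MvPolynomial X k) (hh : h₀ ≠ 0)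
    (hcod : ∀ θ : X → k, eval θ h₀ ≠ 0 → finrank k (stab br (tof e θ)) ≤
      finrank k (kil ι e symb θ ⊓ stab br (tof e θ) : Submodule k V) + 1) :
    HC ι e symb br := by
  intro c c' hc hc'
  -- the values of relations
  have hval : ∀ (c : X → MvPolynomial X k), Rel e br c → ∀ θ : X → k,
      (∑ x, eval θ (c x) • e x) ∈ stab br (tof e θ) ∧
      ∀ q : X → MvPolynomial X k, eval θ (lq e q (∑ x, eval θ (c x) • e x)) =
        eval θ (∑ x, c x * q x) := by
    intro c hc θ
    have h1 : ∀ x, e.repr (∑ x, eval θ (c x) • e x) x = eval θ (c x) := by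
      intro x
      rw [e.repr_sum_self]
    constructor
    · rw [stab_iff]
      ext1 y
      have h2 : eval θ (∑ x, c x * linf e (br (e x) (e y))) = 0 := by rw [hc y, map_zero]
      rw [Matrix.mulVec, dotProduct, Pi.zero_apply, ← h2, map_sum (eval θ)]
      refine sum_congr rfl fun x _ => ?_
      rw [h1, Nt_apply, map_mul, eval_linf, mul_comm]
    · intro q
      rw [eval_lq, map_sum (eval θ)]
      refine sum_congr rfl fun x _ => ?_
      rw [h1, map_mul]
  have hdet : ∀ {u u' : A} {m m' : ℕ} {q q' : X → MvPolynomial X k} (_ : Dat ι e symb u m q)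
      (_ : Dat ι e symb u' m' q'), (∑ x, c x * q x) * (∑ x, c' x * q' x) =
        (∑ x, c' x * q x) * (∑ x, c x * q' x) := by
    intro u u' m m' q q' hd hd'
    have h1 : h₀ * ((∑ x, c x * q x) * (∑ x, c' x * q' x) -
        (∑ x, c' x * q x) * (∑ x, c x * q' x)) = 0 := by
      apply MvPolynomial.funext
      intro θ
      rw [map_mul, map_zero]
      by_cases h0 : eval θ h₀ = 0
      · rw [h0, zero_mul]
      · obtain ⟨hv, hvq⟩ := hval c hc θ
        obtain ⟨hw, hwq⟩ := hval c' hc' θ
        have h2 := prop_point (hcod θ h0) hv hw hd hd'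
        rw [hvq, hwq, hwq, hvq] at h2
        rw [map_sub, map_mul, map_mul, h2, sub_self, mul_zero]
    exact sub_eq_zero.1 ((mul_eq_zero.1 h1).resolve_left hh)
  by_cases hall : ∀ u m q, Dat ι e symb u m q → ∑ x, c x * q x = 0
  · exact ⟨1, 0, Or.inl one_ne_zero, fun u m q hd => by rw [hall u m q hd]; ring⟩
  · push Not at hall
    obtain ⟨u₀, m₀, q₀, hd₀, hne⟩ := hall
    refine ⟨∑ x, c' x * q₀ x, -∑ x, c x * q₀ x, Or.inr (neg_ne_zero.2 hne), fun u m q hd => ?_⟩
    have := hdet hd hd₀
    linear_combination this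

end point

end Pool.Agent.Helper28.KW
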