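import Pool.Agent.Helper28.KW.Lift

set_option autoImplicit false

/-!
# Relations between Hamiltonian vector fields at generic points
-/

namespace Pool.Agent.Helper28.KW

open MvPolynomial Module Finset Pool.Agent.Helper58.KW Pool.Agent.Helper34.KW

section matrix

variable {k : Type*} [Field k] {X : Type*} [Fintype X] [DecidableEq X]

theorem exists_PQ (N : Matrix X X k) :
    ∃ (P : Matrix (Fin N.rank) X k) (Q : Matrix X (Fin N.rank) k), P * N * Q = 1 := by
  set f : (X → k) →ₗ[k] (X → k) := N.mulVecLin with hf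
  obtain ⟨r, hr⟩ := f.rangeRestrict.exists_rightInverse_of_surjective f.range_rangeRestrict
  obtain ⟨π, hπ⟩ := (LinearMap.range f).subtype.exists_leftInverse_of_injective
    (Submodule.ker_subtype _)
  let eq : LinearMap.range f ≃ₗ[k] (Fin N.rank → k) := (Module.finBasis k (LinearMap.range f)).equivFun
  refine ⟨LinearMap.toMatrix' (eq.toLinearMap ∘ₗ π),
    LinearMap.toMatrix' (r ∘ₗ eq.symm.toLinearMap), ?_⟩
  have h1 : N = LinearMap.toMatrix' f := by
    rw [hf, ← Matrix.toLin'_apply', LinearMap.toMatrix'_toLin']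
  have h0 : LinearMap.toMatrix' (eq.toLinearMap ∘ₗ π) * N *
      LinearMap.toMatrix' (r ∘ₗ eq.symm.toLinearMap) =
      LinearMap.toMatrix' (eq.toLinearMap ∘ₗ π) * LinearMap.toMatrix' f *
      LinearMap.toMatrix' (r ∘ₗ eq.symm.toLinearMap) :=
    congrArg (fun M => LinearMap.toMatrix' (eq.toLinearMap ∘ₗ π) * M *
      LinearMap.toMatrix' (r ∘ₗ eq.symm.toLinearMap)) h1
  rw [h0, ← LinearMap.toMatrix'_comp, ← LinearMap.toMatrix'_comp]
  have h2 : ((eq.toLinearMap ∘ₗ π) ∘ₗ f) ∘ₗ r ∘ₗ eq.symm.toLinearMap = LinearMap.id := by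
    apply LinearMap.ext
    intro v
    have h3 : f (r (eq.symm v)) = ((eq.symm v : LinearMap.range f) : X → k) := by
      have := congrArg Subtype.val (LinearMap.congr_fun hr (eq.symm v))
      exact this
    have h4 : π (((eq.symm v : LinearMap.range f) : X → k)) = eq.symm v :=
      LinearMap.congr_fun hπ (eq.symm v)
    show eq (π (f (r (eq.symm v)))) = v
    rw [h3, h4, LinearEquiv.apply_symm_apply]
  rw [h2, LinearMap.toMatrix'_id]

theorem rank_fact {s : ℕ} (N : Matrix X X k) (P : Matrix (Fin s) X k) (Q : Matrix X (Fin s) k)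
    (hr : N.rank ≤ s) (hd : (P * N * Q).det ≠ 0) :
    (P * N * Q).det • N = N * Q * (P * N * Q).adjugate * (P * N) := by
  have hu : IsUnit (P * N * Q) := (Matrix.isUnit_iff_isUnit_det _).2 (isUnit_iff_ne_zero.2 hd)
  have h1 : (P * N * Q).rank = s := by
    rw [Matrix.rank_of_isUnit _ hu, Fintype.card_fin]
  have h2 : s ≤ (N * Q).rank := by
    have h8 := Matrix.rank_mul_le_right P (N * Q)
    rw [← Matrix.mul_assoc, h1] at h8
    exact h8
  have h3 : LinearMap.range (N * Q).mulVecLin ≤ LinearMap.range N.mulVecLin := by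
    rintro _ ⟨v, rfl⟩
    exact ⟨Q.mulVec v, by simp [Matrix.mulVec_mulVec]⟩
  have h4 : LinearMap.range (N * Q).mulVecLin = LinearMap.range N.mulVecLin :=
    Submodule.eq_of_le_of_finrank_le h3 (le_trans hr h2)
  have h5 : ∀ y, ∃ z : Fin s → k, (N * Q).mulVec z = N.mulVec (Pi.single y 1) := by
    intro y
    have h6 : N.mulVec (Pi.single y 1) ∈ LinearMap.range (N * Q).mulVecLin := by
      rw [h4]
      exact ⟨Pi.single y 1, rfl⟩
    obtain ⟨z, hz⟩ := h6
    exact ⟨z, hz⟩
  choose Z hZ using h5
  have h6 : N = N * Q * Matrix.of (fun i y => Z y i) := by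
    ext x y
    have h7 := congrFun (hZ y) x
    rw [Matrix.mulVec_single_one] at h7
    rw [Matrix.mul_apply]
    exact h7.symm
  set Zm : Matrix (Fin s) X k := Matrix.of (fun i y => Z y i) with hZm
  have h7 : P * N = (P * N * Q) * Zm := by
    conv_lhs => rw [h6]
    simp only [Matrix.mul_assoc]
  have h8 : (P * N * Q).adjugate * (P * N) = (P * N * Q).det • Zm := by
    have h9 : (P * N * Q).adjugate * (P * N) =
        (P * N * Q).adjugate * ((P * N * Q) * Zm) := congrArg _ h7
    rw [h9, ← Matrix.mul_assoc, Matrix.adjugate_mul, Matrix.smul_mul, Matrix.one_mul]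
  rw [Matrix.mul_assoc (N * Q), h8, Matrix.mul_smul, ← h6]

end matrix

section gen

variable {k : Type*} [Field k] {V : Type*} [AddCommGroup V] [Module k V] {X : Type*} [Fintype X]
  [DecidableEq X]

/-- The linear form with given values on the basis. -/
noncomputable def tof (e : Basis X k V) (θ : X → k) : V →ₗ[k] k := e.constr k θ

theorem tof_basis (e : Basis X k V) (θ : X → k) (x : X) : tof e θ (e x) = θ x :=
  e.constr_basis k θ x

theorem eval_linf (e : Basis X k V) (θ : X → k) (v : V) : eval θ (linf e v) = tof e θ v := by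
  have h1 : (MvPolynomial.aeval θ : MvPolynomial X k →ₐ[k] k).toLinearMap ∘ₗ linf e = tof e θ := by
    refine e.ext fun x => ?_
    rw [LinearMap.comp_apply, linf_basis, tof_basis, AlgHom.toLinearMap_apply, aeval_X]
  have h2 := LinearMap.congr_fun h1 v
  rw [LinearMap.comp_apply, AlgHom.toLinearMap_apply] at h2
  rw [← coe_aeval_eq_eval]
  exact h2

theorem exists_tof (e : Basis X k V) (θ : V →ₗ[k] k) : ∃ θ' : X → k, tof e θ' = θ := by
  refine ⟨fun x => θ (e x), e.ext fun x => ?_⟩
  rw [tof_basis]

/-- The stabiliser of a linear form. -/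
def stab (br : V →ₗ[k] V →ₗ[k] V) (θ : V →ₗ[k] k) : Submodule k V where
  carrier := {v | ∀ w, θ (br v w) = 0}
  zero_mem' := fun w => by simp
  add_mem' := fun {a b} ha hb w => by
    rw [map_add, LinearMap.add_apply, map_add, ha w, hb w, add_zero]
  smul_mem' := fun c a ha w => by
    rw [map_smul, LinearMap.smul_apply, map_smul, ha w, smul_zero]

theorem mem_stab {br : V →ₗ[k] V →ₗ[k] V} {θ : V →ₗ[k] k} {v : V} :
    v ∈ stab br θ ↔ ∀ w, θ (br v w) = 0 := Iff.rfl

/-- The matrix of brackets. -/
noncomputable def NN (e : Basis X k V) (br : V →ₗ[k] V →ₗ[k] V) :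
    Matrix X X (MvPolynomial X k) := Matrix.of fun y x => linf e (br (e x) (e y))

/-- Its value at a point. -/
noncomputable def Nt (e : Basis X k V) (br : V →ₗ[k] V →ₗ[k] V) (θ : X → k) : Matrix X X k :=
  (NN e br).map (eval θ)

theorem Nt_apply (e : Basis X k V) (br : V →ₗ[k] V →ₗ[k] V) (θ : X → k) (y x : X) :
    Nt e br θ y x = tof e θ (br (e x) (e y)) := by
  unfold Nt NN
  rw [Matrix.map_apply, Matrix.of_apply, eval_linf]

theorem rel_iff (e : Basis X k V) (br : V →ₗ[k] V →ₗ[k] V) (c : X → MvPolynomial X k) :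
    Rel e br c ↔ (NN e br).mulVec c = 0 := by
  constructor
  · intro h
    ext1 y
    rw [Matrix.mulVec, dotProduct, Pi.zero_apply, ← h y]
    refine sum_congr rfl fun x _ => ?_
    rw [mul_comm]
    rfl
  · intro h y
    have h1 := congrFun h y
    rw [Matrix.mulVec, dotProduct, Pi.zero_apply] at h1
    rw [← h1]
    refine sum_congr rfl fun x _ => ?_
    rw [mul_comm]
    rfl

theorem stab_iff (e : Basis X k V) (br : V →ₗ[k] V →ₗ[k] V) (θ : X → k) (v : V) :
    v ∈ stab br (tof e θ) ↔ (Nt e br θ).mulVec (e.repr v) = 0 := by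
  have h1 : ∀ y, (Nt e br θ).mulVec (e.repr v) y = tof e θ (br v (e y)) := by
    intro y
    rw [Matrix.mulVec, dotProduct]
    conv_rhs => rw [← e.sum_repr v]
    rw [map_sum, LinearMap.sum_apply, map_sum]
    refine sum_congr rfl fun x _ => ?_
    rw [Nt_apply, map_smul, LinearMap.smul_apply, map_smul, smul_eq_mul, mul_comm]
  rw [mem_stab]
  constructor
  · intro h
    ext1 y
    rw [h1, h, Pi.zero_apply]
  · intro h w
    have h2 : (tof e θ) ∘ₗ (br v) = 0 := by
      refine e.ext fun y => ?_
      have := congrFun h y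
      rw [h1] at this
      exact this
    exact LinearMap.congr_fun h2 w

theorem finrank_stab (e : Basis X k V) (br : V →ₗ[k] V →ₗ[k] V) (θ : X → k) :
    finrank k (stab br (tof e θ)) + (Nt e br θ).rank = Fintype.card X := by
  have h1 : (stab br (tof e θ)) = (LinearMap.ker (Nt e br θ).mulVecLin).comap
      (e.equivFun : V →ₗ[k] (X → k)) := by
    ext v
    rw [stab_iff, Submodule.mem_comap, LinearMap.mem_ker, Matrix.mulVecLin_apply]
    rfl
  have h2 : finrank k (stab br (tof e θ)) = finrank k (LinearMap.ker (Nt e br θ).mulVecLin) := by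
    rw [h1]
    have h3 : Submodule.map (e.equivFun : V →ₗ[k] (X → k)) ((LinearMap.ker
        (Nt e br θ).mulVecLin).comap (e.equivFun : V →ₗ[k] (X → k))) =
        LinearMap.ker (Nt e br θ).mulVecLin := by
      apply Submodule.map_comap_eq_of_surjective
      exact e.equivFun.surjective
    conv_rhs => rw [← h3]
    exact (LinearEquiv.finrank_map_eq e.equivFun _).symm
  rw [h2]
  have h3 := LinearMap.finrank_range_add_finrank_ker (Nt e br θ).mulVecLin
  rw [Module.finrank_fintype_fun_eq_card] at h3
  rw [Matrix.rank]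
  omega

/-- At the points of a dense open set containing a given regular point, all elements of the
stabiliser are values of relations. -/
theorem gen_rel [Infinite k] (e : Basis X k V) (br : V →ₗ[k] V →ₗ[k] V) (θ₀ : X → k)
    (hreg : ∀ θ, (Nt e br θ).rank ≤ (Nt e br θ₀).rank) :
    ∃ d : MvPolynomial X k, eval θ₀ d ≠ 0 ∧ ∀ θ, eval θ d ≠ 0 →
      (Nt e br θ).rank = (Nt e br θ₀).rank ∧
      ∀ v ∈ stab br (tof e θ), ∃ c, Rel e br c ∧ ∀ x, eval θ (c x) = e.repr v x := by
  obtain ⟨s, hs, P, Q, hPQ⟩ : ∃ (s : ℕ) (_ : (Nt e br θ₀).rank = s) (P : Matrix (Fin s) X k)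
      (Q : Matrix X (Fin s) k), P * Nt e br θ₀ * Q = 1 := by
    obtain ⟨P, Q, hPQ⟩ := exists_PQ (Nt e br θ₀)
    exact ⟨_, rfl, P, Q, hPQ⟩
  rw [hs] at hreg ⊢
  set P' : Matrix (Fin s) X (MvPolynomial X k) := P.map C with hP'
  set Q' : Matrix X (Fin s) (MvPolynomial X k) := Q.map C with hQ'
  set D : Matrix (Fin s) (Fin s) (MvPolynomial X k) := P' * NN e br * Q' with hD
  have hPe : ∀ θ : X → k, P'.map (eval θ) = P := by
    intro θ
    ext i j
    simp [hP']
  have hQe : ∀ θ : X → k, Q'.map (eval θ) = Q := by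
    intro θ
    ext i j
    simp [hQ']
  have hDe : ∀ θ : X → k, D.map (eval θ) = P * Nt e br θ * Q := by
    intro θ
    rw [hD, Matrix.map_mul, Matrix.map_mul, hPe, hQe]
    rfl
  have hdet : ∀ θ : X → k, eval θ D.det = (P * Nt e br θ * Q).det := by
    intro θ
    rw [RingHom.map_det, RingHom.mapMatrix_apply, hDe]
  have hadj : ∀ θ : X → k, D.adjugate.map (eval θ) = (P * Nt e br θ * Q).adjugate := by
    intro θ
    have := RingHom.map_adjugate (eval θ) D
    rw [RingHom.mapMatrix_apply, RingHom.mapMatrix_apply] at this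
    rw [this, hDe]
  have hd0 : eval θ₀ D.det ≠ 0 := by
    rw [hdet, hPQ, Matrix.det_one]
    exact one_ne_zero
  have hDne : D.det ≠ 0 := by
    intro h
    rw [h, map_zero] at hd0
    exact hd0 rfl
  -- the polynomial identity
  have key : D.det • NN e br = NN e br * Q' * D.adjugate * (P' * NN e br) := by
    ext1 y x
    have h1 : D.det * ((D.det • NN e br - NN e br * Q' * D.adjugate * (P' * NN e br)) y x) = 0 := by
      apply MvPolynomial.funext
      intro θ
      rw [map_mul, map_zero]
      by_cases h0 : eval θ D.det = 0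
      · rw [h0, zero_mul]
      · have h2 := rank_fact (Nt e br θ) P Q (hreg θ) (by rw [← hdet]; exact h0)
        have h3 : (D.det • NN e br - NN e br * Q' * D.adjugate * (P' * NN e br)).map (eval θ) =
            (P * Nt e br θ * Q).det • Nt e br θ - Nt e br θ * Q *
              (P * Nt e br θ * Q).adjugate * (P * Nt e br θ) := by
          have e1 : (D.det • NN e br).map (eval θ) = (P * Nt e br θ * Q).det • Nt e br θ := by
            ext i j
            rw [Matrix.map_apply, Matrix.smul_apply, smul_eq_mul, map_mul, hdet,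
              Matrix.smul_apply, smul_eq_mul]
            rfl
          have e2 : (NN e br * Q' * D.adjugate * (P' * NN e br)).map (eval θ) =
              Nt e br θ * Q * (P * Nt e br θ * Q).adjugate * (P * Nt e br θ) := by
            rw [Matrix.map_mul, Matrix.map_mul, Matrix.map_mul, Matrix.map_mul, hadj, hPe, hQe]
            rfl
          rw [Matrix.map_sub _ (fun a b => map_sub (eval θ) a b), e1, e2]
        rw [h2, sub_self] at h3
        have h4 := congrFun (congrFun h3 y) x
        rw [Matrix.map_apply, Matrix.zero_apply] at h4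
        rw [h4, mul_zero]
    have h2 := (mul_eq_zero.1 h1).resolve_left hDne
    rw [Matrix.sub_apply] at h2
    exact sub_eq_zero.1 h2
  refine ⟨D.det, hd0, fun θ hθ => ⟨le_antisymm (hreg θ) ?_, fun v hv => ?_⟩⟩
  · have hu : IsUnit (P * Nt e br θ * Q) := by
      rw [Matrix.isUnit_iff_isUnit_det, ← hdet]
      exact isUnit_iff_ne_zero.2 hθ
    have h1 : (P * Nt e br θ * Q).rank = s := by
      rw [Matrix.rank_of_isUnit _ hu, Fintype.card_fin]
    calc s = (P * Nt e br θ * Q).rank := h1.symm
      _ ≤ (P * Nt e br θ).rank := Matrix.rank_mul_le_left _ _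
      _ ≤ (Nt e br θ).rank := Matrix.rank_mul_le_right _ _
  · rw [stab_iff] at hv
    set w : X → MvPolynomial X k := fun x => C (e.repr v x) with hw
    have hwe : ∀ x, eval θ (w x) = e.repr v x := fun x => by simp [hw]
    set c₀ : X → MvPolynomial X k := D.det • w -
      (Q' * D.adjugate * (P' * NN e br)).mulVec w with hc₀
    have hrel : (NN e br).mulVec c₀ = 0 := by
      rw [hc₀, Matrix.mulVec_sub, Matrix.mulVec_smul, Matrix.mulVec_mulVec, ← Matrix.smul_mulVec,
        key]
      simp only [Matrix.mul_assoc, sub_self]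
    refine ⟨(C (eval θ D.det)⁻¹ : MvPolynomial X k) • c₀, ?_, fun x => ?_⟩
    · rw [rel_iff, Matrix.mulVec_smul, hrel, smul_zero]
    · have h1 : eval θ (((Q' * D.adjugate * (P' * NN e br)).mulVec w) x) = 0 := by
        have h2 : (fun x => eval θ (((Q' * D.adjugate * (P' * NN e br)).mulVec w) x)) =
            ((Q' * D.adjugate * (P' * NN e br)).map (eval θ)).mulVec (fun x => eval θ (w x)) := by
          ext1 x
          exact RingHom.map_mulVec (eval θ) _ _ _
        have h3 : ((Q' * D.adjugate * (P' * NN e br)).map (eval θ)).mulVec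
            (fun x => eval θ (w x)) = 0 := by
          rw [Matrix.map_mul, ← Matrix.mulVec_mulVec, Matrix.map_mul (L := P'),
            ← Matrix.mulVec_mulVec]
          have h4 : ((NN e br).map (eval θ)).mulVec (fun x => eval θ (w x)) = 0 := by
            have h5 : (fun x => eval θ (w x)) = e.repr v := by
              ext1 x
              exact hwe x
            rw [h5]
            exact hv
          rw [h4, Matrix.mulVec_zero, Matrix.mulVec_zero]
        have := congrFun (h2.trans h3) x
        exact this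
      rw [Pi.smul_apply, smul_eq_mul, map_mul, eval_C, hc₀, Pi.sub_apply, map_sub, h1, sub_zero,
        Pi.smul_apply, smul_eq_mul, map_mul, hwe, ← mul_assoc, inv_mul_cancel₀ hθ, one_mul]

/-- Relations commute. -/
theorem rel_comm (e : Basis X k V) (br : V →ₗ[k] V →ₗ[k] V) (hanti : ∀ v w, br v w = - br w v)
    {c c' : X → MvPolynomial X k} (hc : Rel e br c) (hc' : Rel e br c') (z : X) :
    ∑ x, ∑ y, c x * c' y * C (e.repr (br (e x) (e y)) z) = 0 := by
  classical
  have hd : ∀ v : V, pderiv z (linf e v) = C (e.repr v z) := by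
    intro v
    have h1 : (pderiv z : Derivation k (MvPolynomial X k) (MvPolynomial X k)).toLinearMap ∘ₗ
        linf e = (Algebra.linearMap k (MvPolynomial X k)) ∘ₗ (e.coord z) := by
      refine e.ext fun x => ?_
      rw [LinearMap.comp_apply, linf_basis, LinearMap.comp_apply, Basis.coord_apply, e.repr_self]
      show pderiv z (MvPolynomial.X x) = algebraMap k _ _
      rw [pderiv_X, Finsupp.single_apply]
      by_cases hx : x = z
      · subst hx
        simp
      · rw [if_neg hx, Pi.single_eq_of_ne hx]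
        simp
    exact LinearMap.congr_fun h1 v
  have h1 : ∀ y, ∑ x, (pderiv z (c x) * linf e (br (e x) (e y)) +
      c x * C (e.repr (br (e x) (e y)) z)) = 0 := by
    intro y
    have h2 := congrArg (pderiv z) (hc y)
    rw [map_sum, map_zero] at h2
    rw [← h2]
    refine sum_congr rfl fun x _ => ?_
    rw [Derivation.leibniz, hd, smul_eq_mul, smul_eq_mul]
    ring
  have h2 : ∑ y, c' y * ∑ x, (pderiv z (c x) * linf e (br (e x) (e y)) +
      c x * C (e.repr (br (e x) (e y)) z)) = 0 :=
    sum_eq_zero fun y _ => by rw [h1, mul_zero]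
  have h3 : ∑ y, c' y * ∑ x, (pderiv z (c x) * linf e (br (e x) (e y)) +
      c x * C (e.repr (br (e x) (e y)) z)) =
      ∑ x, pderiv z (c x) * ∑ y, c' y * linf e (br (e x) (e y)) +
      ∑ x, ∑ y, c x * c' y * C (e.repr (br (e x) (e y)) z) := by
    simp only [mul_sum, mul_add, sum_add_distrib]
    rw [sum_comm, sum_comm (f := fun y x => c' y * (c x * C (e.repr (br (e x) (e y)) z)))]
    congr 1
    · refine sum_congr rfl fun x _ => sum_congr rfl fun y _ => ?_
      ring
    · refine sum_congr rfl fun x _ => sum_congr rfl fun y _ => ?_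
      ring
  have h4 : ∀ x, ∑ y, c' y * linf e (br (e x) (e y)) = 0 := by
    intro x
    have h5 : ∑ y, c' y * linf e (br (e x) (e y)) = - ∑ y, c' y * linf e (br (e y) (e x)) := by
      rw [← sum_neg_distrib]
      refine sum_congr rfl fun y _ => ?_
      rw [hanti (e x) (e y), map_neg, mul_neg]
    rw [h5, hc' x, neg_zero]
  simp only [h4, mul_zero, sum_const_zero, zero_add] at h3
  rw [← h3]
  exact h2

theorem br_sum (e : Basis X k V) (br : V →ₗ[k] V →ₗ[k] V) (v w : V) :
    br v w = ∑ x, ∑ y, (e.repr v x * e.repr w y) • br (e x) (e y) := by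
  conv_lhs => rw [← e.sum_repr v]
  rw [map_sum, LinearMap.sum_apply]
  refine sum_congr rfl fun x _ => ?_
  conv_lhs => rw [← e.sum_repr w]
  rw [map_sum]
  refine sum_congr rfl fun y _ => ?_
  rw [map_smul, map_smul, LinearMap.smul_apply, smul_smul, mul_comm]

/-- The stabiliser of a generic point is abelian. -/
theorem stab_abel (e : Basis X k V) (br : V →ₗ[k] V →ₗ[k] V) (hanti : ∀ v w, br v w = - br w v)
    {θ : X → k} {c c' : X → MvPolynomial X k} (hc : Rel e br c) (hc' : Rel e br c') {v w : V}
    (hv : ∀ x, eval θ (c x) = e.repr v x) (hw : ∀ x, eval θ (c' x) = e.repr w x) :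
    br v w = 0 := by
  apply e.repr.injective
  ext z
  have h1 := congrArg (eval θ) (rel_comm e br hanti hc hc' z)
  rw [map_zero, map_sum] at h1
  rw [map_zero, Finsupp.zero_apply, ← h1, br_sum e, map_sum]
  rw [Finsupp.finset_sum_apply]
  refine sum_congr rfl fun x _ => ?_
  rw [map_sum, Finsupp.finset_sum_apply, map_sum]
  refine sum_congr rfl fun y _ => ?_
  rw [map_smul, Finsupp.smul_apply, map_mul, map_mul, eval_C, hv, hw, smul_eq_mul]

end gen

end Pool.Agent.Helper28.KW
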