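import Pool.Agent.Helper28.KW.Inp
import Pool.Agent.Helper34.KW.RankA

set_option autoImplicit false

/-!
# All primes: the square of the `p`-map on one regular stabiliser has corank at most three
-/

namespace Pool.Agent.Helper28.KW

open MvPolynomial Module Finset Pool.Agent.Helper58.KW Pool.Agent.Helper34.KW

section hj

variable {k : Type*} [Field k] {V : Type*} [AddCommGroup V] [Module k V] {A : Type*} [Ring A]
  [Algebra k A] {X : Type*} {p : ℕ} {ι : V →ₗ[k] A} {e : Basis X k V}
  {symb : MvPolynomial X k →ₗ[k] A} {br : V →ₗ[k] V →ₗ[k] V} {pm : X → V} [Fintype X]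
  [DecidableEq X]

theorem HJ_gen (F : Type*) [Field F] [Algebra (MvPolynomial X k) F]
    [IsFractionRing (MvPolynomial X k) F] [Nontrivial A] [hp : Fact p.Prime] [CharP k p]
    (h : RD p ι e symb br pm) : HJ e br := by
  have hginj : Function.Injective ((algebraMap (MvPolynomial X k) F).comp
      (expand p : MvPolynomial X k →ₐ[k] MvPolynomial X k).toRingHom) :=
    (IsFractionRing.injective (MvPolynomial X k) F).comp (expand_injective hp.out.pos)
  let _ : Algebra (FractionRing (MvPolynomial X k)) F := (IsFractionRing.lift hginj).toAlgebra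
  have hKF : ∀ r : MvPolynomial X k, algebraMap (FractionRing (MvPolynomial X k)) F
      (algebraMap _ (FractionRing (MvPolynomial X k)) r) = algebraMap _ F (expand p r) := fun r =>
    IsFractionRing.lift_algebraMap hginj r
  have hfin : FiniteDimensional (FractionRing (MvPolynomial X k)) F := finite_KF hKF
  exact HJ_of (K := FractionRing (MvPolynomial X k)) (F := F)
    (fun i c => der_K hKF (Ham e br (e i)) c) h

theorem HJ_all [Nontrivial A] [hp : Fact p.Prime] [CharP k p] (h : RD p ι e symb br pm) :
    HJ e br := HJ_gen (FractionRing (MvPolynomial X k)) h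

end hj

universe u₁ u₂ u₃ u₄

section main

variable {k : Type u₁} [Field k] {V : Type u₂} [AddCommGroup V] [Module k V]
  [FiniteDimensional k V] {A : Type u₃} [Ring A] [Algebra k A] {X : Type u₄} [Fintype X]

variable {p : ℕ} {ι : V →ₗ[k] A} {e : Basis X k V} {symb : MvPolynomial X k →ₗ[k] A}
  {br : V →ₗ[k] V →ₗ[k] V} {pm : X → V}

/-- **All relations are respected if the square of the `p`-map on one regular stabiliser has
corank at most three.** -/
theorem RR_all [Infinite k] [hp : Fact p.Prime] [CharP k p]
    (hk : ∀ c : k, ∃ d : k, d ^ p = c) (h : RD p ι e symb br pm) (hPM : PM p ι) (hTM : TM ι)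
    (θ₀ : V →ₗ[k] k)
    (hreg : ∀ θ : V →ₗ[k] k, finrank k (stab br θ₀) ≤ finrank k (stab br θ))
    (hcor : finrank k (stab br θ₀) ≤ finrank k (LinearMap.ker br) +
      finrank k (Submodule.span k {T : Module.End k V | ∃ w ∈ stab br θ₀,
        T = (br w : Module.End k V) ^ (p ^ 2)}) + 3) : RR ι e symb br := by
  classical
  have hnt : Nontrivial A := h.nontrivial
  exact RR_of_corank hk h hPM hTM (HI_of h) (HJ_all h) θ₀ hreg hcor

end main

end Pool.Agent.Helper28.KW
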