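import Pool.Agent.Helper28.KW.AllP

set_option autoImplicit false

/-!
# All primes: at most one long block of the `p`-map on generic stabilisers
-/

namespace Pool.Agent.Helper28.KW

open MvPolynomial Module Finset Pool.Agent.Helper58.KW Pool.Agent.Helper34.KW

section codim

variable {k : Type*} [Field k] {V : Type*} [AddCommGroup V] [Module k V]

/-- The rank of the `n`-th powers of the adjoint maps of the elements of the stabiliser. -/
noncomputable def prk (br : V →ₗ[k] V →ₗ[k] V) (n : ℕ) (θ : V →ₗ[k] k) : ℕ :=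
  finrank k (Submodule.span k
    {T : Module.End k V | ∃ w ∈ stab br θ, T = (br w : Module.End k V) ^ n})

variable [FiniteDimensional k V]

/-- If the `p`-map on `a` has at most one block of length at least two, its image and its kernel
span a subspace of codimension at most one. -/
theorem codim_blocks (p : ℕ) [hp : Fact p.Prime] [CharP k p] (hk : ∀ c : k, ∃ d : k, d ^ p = c)
    (br : V →ₗ[k] V →ₗ[k] V) (a b : Submodule k V)
    (hcom : ∀ v ∈ a, ∀ w ∈ a, Commute (br v : Module.End k V) (br w))
    (hz : LinearMap.ker br ≤ a)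
    (hb1 : ∀ y ∈ a, (br y : Module.End k V) ^ p = 0 → y ∈ b)
    (hb2 : ∀ v ∈ a, ∃ v', v' ∈ a ∧ v' ∈ b ∧ br v' = (br v : Module.End k V) ^ p)
    (hcor : finrank k (Submodule.span k
      {T : Module.End k V | ∃ w ∈ a, T = (br w : Module.End k V) ^ p}) ≤
      finrank k (Submodule.span k
      {T : Module.End k V | ∃ w ∈ a, T = (br w : Module.End k V) ^ (p ^ 2)}) + 1) :
    finrank k a ≤ finrank k (b ⊓ a : Submodule k V) + 1 := by
  by_cases hV : Subsingleton V
  · have h1 : finrank k a = 0 := by
      have h2 : finrank k V = 0 := finrank_zero_of_subsingleton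
      have := Submodule.finrank_le a
      omega
    omega
  have hnt : Nontrivial V := not_subsingleton_iff_nontrivial.1 hV
  have hch : CharP (Module.End k V) p :=
    charP_of_injective_algebraMap (FaithfulSMul.algebraMap_injective k (Module.End k V)) p
  let F : V → Module.End k V := fun w => (br w : Module.End k V) ^ p
  have hadd : ∀ y ∈ a, ∀ z ∈ a, F (y + z) = F y + F z := by
    intro y hy z hz
    show (br (y + z) : Module.End k V) ^ p = _
    rw [map_add]
    exact add_pow_char_of_commute p (hcom y hy z hz)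
  have hsmul : ∀ (c : k), ∀ z ∈ a, F (c • z) = c ^ p • F z := by
    intro c z _
    show (br (c • z) : Module.End k V) ^ p = _
    rw [map_smul]
    exact smul_pow c (br z : Module.End k V) p
  have hF0 : F 0 = 0 := by
    show (br 0 : Module.End k V) ^ p = 0
    rw [map_zero]
    exact zero_pow hp.out.ne_zero
  let K : Submodule k V :=
    { carrier := {y | y ∈ a ∧ F y = 0}
      zero_mem' := ⟨a.zero_mem, hF0⟩
      add_mem' := fun {y z} hy hz => ⟨a.add_mem hy.1 hz.1, by
        rw [hadd y hy.1 z hz.1, hy.2, hz.2, add_zero]⟩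
      smul_mem' := fun c y hy => ⟨a.smul_mem c hy.1, by
        rw [hsmul c y hy.1, hy.2, smul_zero]⟩ }
  set S1 : Submodule k (Module.End k V) := Submodule.span k
      {T : Module.End k V | ∃ w ∈ a, T = (br w : Module.End k V) ^ p} with hS1
  have hS1' : S1 = Submodule.span k (F '' a) := by
    rw [hS1]
    congr 1
    ext T
    constructor
    · rintro ⟨w, hw, rfl⟩
      exact ⟨w, hw, rfl⟩
    · rintro ⟨w, hw, rfl⟩
      exact ⟨w, hw, rfl⟩
  set S2 : Submodule k (Module.End k V) := Submodule.span k
      {T : Module.End k V | ∃ w ∈ a, T = (br w : Module.End k V) ^ (p ^ 2)} with hS2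
  set I : Submodule k V := a ⊓ S1.comap br with hI
  have hIa : I ≤ a := inf_le_left
  -- the counting facts
  have e1 : finrank k a ≤ finrank k K + finrank k S1 :=
    semi_sub p hk a K F hadd hsmul (fun z hz h => ⟨hz, h⟩) S1
      (fun z hz => Submodule.subset_span ⟨z, hz, rfl⟩)
  have e3 : finrank k S2 + finrank k (K ⊓ I : Submodule k V) ≤ finrank k I := by
    have h1 := semi_sub' p hp.out.ne_zero I (K ⊓ I) F
      (fun y hy z hz => hadd y (hIa hy) z (hIa hz)) (fun c z hz => hsmul c z (hIa hz))
      (fun z hz => ⟨hz.2, hz.1.2⟩)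
    have h2 : S2 ≤ Submodule.span k (F '' I) := by
      rw [hS2, Submodule.span_le]
      rintro _ ⟨w, hw, rfl⟩
      obtain ⟨w', hw'a, -, hw'⟩ := hb2 w hw
      refine Submodule.subset_span ⟨w', ⟨hw'a, ?_⟩, ?_⟩
      · show br w' ∈ S1
        rw [hw']
        exact Submodule.subset_span ⟨w, hw, rfl⟩
      · show (br w' : Module.End k V) ^ p = (br w : Module.End k V) ^ (p ^ 2)
        rw [hw', ← pow_mul, sq]
    have h3 := Submodule.finrank_mono h2
    omega
  have e4 : finrank k I = finrank k S1 + finrank k (LinearMap.ker br) := by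
    have h1 := LinearMap.finrank_range_add_finrank_ker (br.domRestrict I)
    have h2 : LinearMap.range (br.domRestrict I) = S1 := by
      apply le_antisymm
      · rintro _ ⟨y, rfl⟩
        exact y.2.2
      · rw [hS1, Submodule.span_le]
        rintro _ ⟨w, hw, rfl⟩
        obtain ⟨w', hw'a, -, hw'⟩ := hb2 w hw
        refine ⟨⟨w', ⟨hw'a, ?_⟩⟩, hw'⟩
        show br w' ∈ S1
        rw [hw']
        exact Submodule.subset_span ⟨w, hw, rfl⟩
    have h3 : finrank k (LinearMap.ker (br.domRestrict I)) = finrank k (LinearMap.ker br) := by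
      have h4 : LinearMap.ker (br.domRestrict I) = (LinearMap.ker br).comap I.subtype := by
        ext y
        rfl
      have h5 : LinearMap.ker br ≤ I := by
        intro y hy
        refine ⟨hz hy, ?_⟩
        show br y ∈ S1
        rw [LinearMap.mem_ker.1 hy]
        exact S1.zero_mem
      rw [h4]
      exact (Submodule.comapSubtypeEquivOfLe h5).finrank_eq
    have h6 : finrank k (LinearMap.range (br.domRestrict I)) = finrank k S1 := by
      rw [h2]
    rw [h6, h3] at h1
    omega
  have e5 := Submodule.finrank_sup_add_finrank_inf_eq K I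
  have e7 : K ⊔ I ≤ b ⊓ a := by
    refine sup_le ?_ ?_
    · intro y hy
      exact ⟨hb1 y hy.1 hy.2, hy.1⟩
    · intro y hy
      refine ⟨?_, hIa hy⟩
      have h1 : S1 ≤ (b ⊓ a).map br := by
        rw [hS1, Submodule.span_le]
        rintro _ ⟨w, hw, rfl⟩
        obtain ⟨w', hw'a, hw'b, hw'⟩ := hb2 w hw
        exact ⟨w', ⟨hw'b, hw'a⟩, hw'⟩
      obtain ⟨y', ⟨hy'b, hy'a⟩, hy'⟩ := h1 hy.2
      have h2 : y - y' ∈ b := by
        refine hb1 _ (a.sub_mem (hIa hy) hy'a) ?_
        rw [map_sub, hy', sub_self]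
        exact zero_pow hp.out.ne_zero
      have h3 : y = (y - y') + y' := by abel
      rw [h3]
      exact b.add_mem h2 hy'b
  have e8 := Submodule.finrank_mono e7
  omega

end codim

universe u₁ u₂ u₃ u₄

section main

variable {k : Type u₁} [Field k] {V : Type u₂} [AddCommGroup V] [Module k V]
  [FiniteDimensional k V] {A : Type u₃} [Ring A] [Algebra k A] {X : Type u₄} [Fintype X]

variable {p : ℕ} {ι : V →ₗ[k] A} {e : Basis X k V} {symb : MvPolynomial X k →ₗ[k] A}
  {br : V →ₗ[k] V →ₗ[k] V} {pm : X → V}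

theorem codim_kil_blocks [Nontrivial A] [hp : Fact p.Prime] [CharP k p]
    [DecidableEq X] (hk : ∀ c : k, ∃ d : k, d ^ p = c) (h : RD p ι e symb br pm) (hPM : PM p ι)
    (hTM : TM ι) {θ : X → k}
    (hab : ∀ v ∈ stab br (tof e θ), ∀ w ∈ stab br (tof e θ), br v w = 0)
    (hcor : prk br p (tof e θ) ≤ prk br (p ^ 2) (tof e θ) + 1) :
    finrank k (stab br (tof e θ)) ≤
      finrank k (kil ι e symb θ ⊓ stab br (tof e θ) : Submodule k V) + 1 := by
  refine codim_blocks p hk br _ _ (fun v hv w hw => commute_of h (hab v hv w hw)) ?_ ?_ ?_ hcor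
  · intro v hv w
    rw [LinearMap.mem_ker.1 hv, LinearMap.zero_apply, map_zero]
  · intro y hy hy0
    exact kil_nil h hPM hTM hy hy0
  · intro v hv
    obtain ⟨v', hv'⟩ := hPM v
    refine ⟨v', ?_, kil_pow h hv hv', br_pow h hv'⟩
    intro w
    rw [br_pow h hv']
    obtain ⟨n, hn⟩ : ∃ n, p = n + 1 := ⟨p - 1, by have := hp.out.pos; omega⟩
    rw [hn, pow_succ', Module.End.mul_apply]
    exact hv _

/-- **All relations are respected if the `p`-map of generic stabilisers has at most one block of
length at least two**: there is a regular `θ₀` such that for all regular `θ` the rank of the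
`p`-map at `θ` is at most one more than the rank of its square at `θ₀`. -/
theorem RR_blocks [Infinite k] [hp : Fact p.Prime] [CharP k p]
    (hk : ∀ c : k, ∃ d : k, d ^ p = c) (h : RD p ι e symb br pm) (hPM : PM p ι) (hTM : TM ι)
    (θ₀ : V →ₗ[k] k)
    (hreg : ∀ θ : V →ₗ[k] k, finrank k (stab br θ₀) ≤ finrank k (stab br θ))
    (hF : ∀ θ : V →ₗ[k] k, finrank k (stab br θ) = finrank k (stab br θ₀) →
      prk br p θ ≤ prk br (p ^ 2) θ₀ + 1) : RR ι e symb br := by
  classical
  have hnt : Nontrivial A := h.nontrivial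
  obtain ⟨θ₁, rfl⟩ := exists_tof e θ₀
  have hreg' : ∀ θ, (Nt e br θ).rank ≤ (Nt e br θ₁).rank := by
    intro θ
    have h1 := hreg (tof e θ)
    have h2 := finrank_stab e br θ
    have h3 := finrank_stab e br θ₁
    omega
  obtain ⟨d, hd0, hd⟩ := gen_rel e br θ₁ hreg'
  obtain ⟨d', hd'0, hd'⟩ := rank_open e br θ₁ hreg' (p ^ 2)
  refine RR_of_codim h (HI_of h) (HJ_all h) (HC_of_points (d * d') ?_ fun θ hθ => ?_)
  · intro h0
    have h1 : eval θ₁ (d * d') = 0 := by rw [h0, map_zero]
    rw [map_mul] at h1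
    rcases mul_eq_zero.1 h1 with h2 | h2
    · exact hd0 h2
    · exact hd'0 h2
  · rw [map_mul] at hθ
    obtain ⟨hrk, hrel⟩ := hd θ (left_ne_zero_of_mul hθ)
    have h1 := hd' θ (right_ne_zero_of_mul hθ)
    refine codim_kil_blocks hk h hPM hTM ?_ ?_
    · intro v hv w hw
      obtain ⟨c, hc, hcv⟩ := hrel v hv
      obtain ⟨c', hc', hcw⟩ := hrel w hw
      exact stab_abel e br (br_anti h) hc hc' hcv hcw
    · have h2 := finrank_stab e br θ
      have h3 := finrank_stab e br θ₁
      have h4 := hF (tof e θ) (by omega)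
      have h5 : prk br (p ^ 2) (tof e θ₁) ≤ prk br (p ^ 2) (tof e θ) := h1
      omega

end main

end Pool.Agent.Helper28.KW
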