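import Mathlib

set_option autoImplicit false

/-!
# Two commuting nilpotent matrices of size at most `2p` have linearly dependent `p`-th powers
-/

namespace Pool.Agent.Helper28.KW

open Module Polynomial

section filt

variable {k : Type*} [Field k] {V : Type*} [AddCommGroup V] [Module k V]

/-- The filtration of `V` by the powers of the ideal generated by `x` and `y`. -/
def Wf (x y : Module.End k V) : ℕ → Submodule k V
  | 0 => ⊤
  | n + 1 => (Wf x y n).map x ⊔ (Wf x y n).map y

variable {x y : Module.End k V}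

theorem Wf_x {n : ℕ} {v : V} (hv : v ∈ Wf x y n) : x v ∈ Wf x y (n + 1) :=
  Submodule.mem_sup_left ⟨v, hv, rfl⟩

theorem Wf_y {n : ℕ} {v : V} (hv : v ∈ Wf x y n) : y v ∈ Wf x y (n + 1) :=
  Submodule.mem_sup_right ⟨v, hv, rfl⟩

theorem Wf_succ_le (n : ℕ) : Wf x y (n + 1) ≤ Wf x y n := by
  induction n with
  | zero => exact le_top
  | succ n ih => exact sup_le_sup (Submodule.map_mono ih) (Submodule.map_mono ih)

theorem Wf_anti : Antitone (Wf x y) := antitone_nat_of_succ_le Wf_succ_le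

theorem Wf_swap (n : ℕ) : Wf x y n = Wf y x n := by
  induction n with
  | zero => rfl
  | succ n ih =>
    show (Wf x y n).map x ⊔ (Wf x y n).map y = (Wf y x n).map y ⊔ (Wf y x n).map x
    rw [ih, sup_comm]

theorem Wf_of {z : Module.End k V} (hz : ∀ n, ∀ v ∈ Wf x y n, z v ∈ Wf x y (n + 1)) (m : ℕ)
    {n : ℕ} {v : V} (hv : v ∈ Wf x y n) : (z ^ m) v ∈ Wf x y (n + m) := by
  induction m with
  | zero => exact hv
  | succ m ih =>
    rw [pow_succ', Module.End.mul_apply]
    exact hz _ _ ih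

theorem Wf_xpow (m : ℕ) {n : ℕ} {v : V} (hv : v ∈ Wf x y n) : (x ^ m) v ∈ Wf x y (n + m) :=
  Wf_of (fun _ _ h => Wf_x h) m hv

theorem Wf_ypow (m : ℕ) {n : ℕ} {v : V} (hv : v ∈ Wf x y n) : (y ^ m) v ∈ Wf x y (n + m) :=
  Wf_of (fun _ _ h => Wf_y h) m hv

theorem comm_aeval {z : Module.End k V} (h : Commute z x) (q : k[X]) :
    Commute z (aeval x q) := by
  induction q using Polynomial.induction_on' with
  | add a b ha hb =>
    rw [map_add]
    exact ha.add_right hb
  | monomial m a =>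
    rw [aeval_monomial]
    exact (Algebra.commute_algebraMap_right _ _).mul_right (h.pow_right m)

theorem Wf_aeval (g : k[X]) {n : ℕ} {v : V} (hv : v ∈ Wf x y n) :
    (aeval x g) v ∈ Wf x y n := by
  induction g using Polynomial.induction_on' with
  | add a b ha hb =>
    rw [map_add, LinearMap.add_apply]
    exact Submodule.add_mem _ ha hb
  | monomial m a =>
    rw [aeval_monomial, Module.End.mul_apply, Module.algebraMap_end_apply]
    exact Submodule.smul_mem _ _ (Wf_anti (Nat.le_add_right n m) (Wf_xpow m hv))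

/-- Nakayama. -/
theorem Wf_nak (hxy : Commute x y) (hx : IsNilpotent x) (hy : IsNilpotent y) {n : ℕ}
    (h : Wf x y n ≤ Wf x y (n + 1)) : Wf x y n = ⊥ := by
  obtain ⟨a, ha⟩ := hx
  obtain ⟨b, hb⟩ := hy
  set U := Wf x y n with hU
  have hxU : ∀ v ∈ U, x v ∈ U := fun v hv => Wf_succ_le n (Wf_x hv)
  have hyU : ∀ v ∈ U, y v ∈ U := fun v hv => Wf_succ_le n (Wf_y hv)
  have hpow : ∀ (z : Module.End k V), (∀ v ∈ U, z v ∈ U) → ∀ m, ∀ v ∈ U, (z ^ m) v ∈ U := by
    intro z hz m
    induction m with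
    | zero => exact fun v hv => hv
    | succ m ih =>
      intro v hv
      rw [pow_succ', Module.End.mul_apply]
      exact hz _ (ih v hv)
  have h1 : ∀ v ∈ U, ∃ v₁ ∈ U, ∃ v₂ ∈ U, v = x v₁ + y v₂ := by
    intro v hv
    obtain ⟨_, ⟨v₁, hv₁, rfl⟩, _, ⟨v₂, hv₂, rfl⟩, h2⟩ := Submodule.mem_sup.1 (h hv)
    exact ⟨v₁, hv₁, v₂, hv₂, h2.symm⟩
  have h2 : ∀ m, ∀ v ∈ U, ∃ v₁ ∈ U, ∃ v₂ ∈ U, v = x v₁ + (y ^ m) v₂ := by
    intro m
    induction m with
    | zero =>
      intro v hv
      exact ⟨0, U.zero_mem, v, hv, by simp⟩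
    | succ m ih =>
      intro v hv
      obtain ⟨v₁, hv₁, v₂, hv₂, h3⟩ := ih v hv
      obtain ⟨v₃, hv₃, v₄, hv₄, h4⟩ := h1 v₂ hv₂
      refine ⟨v₁ + (y ^ m) v₃, U.add_mem hv₁ (hpow y hyU m _ hv₃), v₄, hv₄, ?_⟩
      have h5 : (y ^ m) (x v₃) = x ((y ^ m) v₃) := by
        rw [← Module.End.mul_apply, ← Module.End.mul_apply, (hxy.pow_right m).eq]
      rw [h3, h4, map_add, map_add, h5, pow_succ, Module.End.mul_apply, add_assoc]
  have h3 : ∀ v ∈ U, ∃ v₁ ∈ U, v = x v₁ := by
    intro v hv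
    obtain ⟨v₁, hv₁, v₂, hv₂, h3⟩ := h2 b v hv
    refine ⟨v₁, hv₁, ?_⟩
    rw [h3, hb, LinearMap.zero_apply, add_zero]
  have h4 : ∀ m, ∀ v ∈ U, ∃ v₁ ∈ U, v = (x ^ m) v₁ := by
    intro m
    induction m with
    | zero => exact fun v hv => ⟨v, hv, rfl⟩
    | succ m ih =>
      intro v hv
      obtain ⟨v₁, hv₁, h5⟩ := ih v hv
      obtain ⟨v₂, hv₂, h6⟩ := h3 v₁ hv₁
      refine ⟨v₂, hv₂, ?_⟩
      rw [h5, h6, pow_succ, Module.End.mul_apply]
  rw [Submodule.eq_bot_iff]
  intro v hv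
  obtain ⟨v₁, -, h5⟩ := h4 a v hv
  rw [h5, ha, LinearMap.zero_apply]

end filt

section dep

variable {k : Type*} [Field k] {V : Type*} [AddCommGroup V] [Module k V] [FiniteDimensional k V]
  {x y : Module.End k V}

theorem Wf_bot (hxy : Commute x y) (hx : IsNilpotent x) (hy : IsNilpotent y) :
    Wf x y (finrank k V) = ⊥ := by
  by_contra hne
  have h1 : ∀ n ≤ finrank k V, finrank k (Wf x y n) + n ≤ finrank k V := by
    intro n
    induction n with
    | zero =>
      intro _
      exact Submodule.finrank_le _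
    | succ n ih =>
      intro hn
      have h2 := ih (by omega)
      have h3 : Wf x y (n + 1) < Wf x y n := by
        refine lt_of_le_of_ne (Wf_succ_le n) fun h4 => ?_
        have h5 := Wf_nak hxy hx hy h4.ge
        apply hne
        rw [Submodule.eq_bot_iff]
        intro v hv
        have h6 := Wf_anti (by omega : n ≤ finrank k V) hv
        rw [h5] at h6
        exact (Submodule.mem_bot k).1 h6
      have h4 := Submodule.finrank_lt_finrank_of_lt h3
      omega
  have h2 := h1 (finrank k V) le_rfl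
  have h3 : finrank k (Wf x y (finrank k V)) = 0 := by omega
  exact hne (Submodule.finrank_eq_zero.1 h3)

/-- The main case. -/
theorem case_one (p : ℕ) [hp : Fact p.Prime] [CharP k p] (hxy : Commute x y)
    (hx : IsNilpotent x) (hy : IsNilpotent y) (hV : finrank k V ≤ 2 * p) {i : ℕ}
    (hi : i + 1 ≤ p - 1) {u : V} (hu : u ∈ Wf x y i) (hxu : x u ∉ Wf x y (i + 2))
    (hd : finrank k (Wf x y (i + 1)) ≤ finrank k (Wf x y (i + 2)) + 1) :
    ∃ c : k, y ^ p = c • x ^ p := by
  have hVn : Nontrivial V := by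
    refine ⟨x u, 0, fun h0 => hxu ?_⟩
    rw [h0]
    exact Submodule.zero_mem _
  have hch : CharP (Module.End k V) p :=
    charP_of_injective_algebraMap (FaithfulSMul.algebraMap_injective k (Module.End k V)) p
  set f := x u with hf
  have hf1 : f ∈ Wf x y (i + 1) := Wf_x hu
  -- `W (i+1)` is spanned by `f` and `W (i+2)`
  have h1 : ∀ z ∈ Wf x y (i + 1), ∃ a : k, z - a • f ∈ Wf x y (i + 2) := by
    have h2 : Wf x y (i + 2) < Submodule.span k {f} ⊔ Wf x y (i + 2) := by
      refine lt_of_le_of_ne le_sup_right fun h3 => hxu ?_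
      rw [h3]
      exact Submodule.mem_sup_left (Submodule.mem_span_singleton_self f)
    have h3 : Submodule.span k {f} ⊔ Wf x y (i + 2) ≤ Wf x y (i + 1) := by
      refine sup_le ?_ (Wf_succ_le _)
      rw [Submodule.span_le]
      rintro _ rfl
      exact hf1
    have h4 := Submodule.finrank_lt_finrank_of_lt h2
    have h5 : Submodule.span k {f} ⊔ Wf x y (i + 2) = Wf x y (i + 1) :=
      Submodule.eq_of_le_of_finrank_le h3 (by omega)
    intro z hz
    rw [← h5] at hz
    obtain ⟨_, hs, w, hw, h6⟩ := Submodule.mem_sup.1 hz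
    obtain ⟨a, rfl⟩ := Submodule.mem_span_singleton.1 hs
    refine ⟨a, ?_⟩
    rw [← h6, add_sub_cancel_left]
    exact hw
  obtain ⟨c, hc⟩ := h1 (y u) (Wf_y hu)
  set w := y u - c • f with hw
  have hxw : y f = x w + c • x f := by
    have h2 : y (x u) = x (y u) := by
      rw [← Module.End.mul_apply, ← Module.End.mul_apply, hxy.eq]
    rw [hf, h2, hw, map_sub, map_smul, hf, sub_add_cancel]
  -- the layers
  have h2 : ∀ j, ∀ z ∈ Wf x y (i + 1 + j), ∃ a : k, z - a • (x ^ j) f ∈ Wf x y (i + 2 + j) := by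
    intro j
    induction j with
    | zero =>
      intro z hz
      exact h1 z hz
    | succ j ih =>
      intro z hz
      have hz' : z ∈ (Wf x y (i + 1 + j)).map x ⊔ (Wf x y (i + 1 + j)).map y := hz
      obtain ⟨_, ⟨z₁, hz₁, rfl⟩, _, ⟨z₂, hz₂, rfl⟩, h3⟩ := Submodule.mem_sup.1 hz'
      obtain ⟨a₁, ha₁⟩ := ih z₁ hz₁
      obtain ⟨a₂, ha₂⟩ := ih z₂ hz₂
      refine ⟨a₁ + a₂ * c, ?_⟩
      have h4 : y ((x ^ j) f) = (x ^ (j + 1)) w + c • (x ^ (j + 1)) f := by
        have h5 : y ((x ^ j) f) = (x ^ j) (y f) :=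
          (LinearMap.congr_fun (hxy.pow_left j).eq f).symm
        rw [h5, hxw, map_add, map_smul, pow_succ, Module.End.mul_apply, Module.End.mul_apply]
      have h6 : z - (a₁ + a₂ * c) • (x ^ (j + 1)) f =
          x (z₁ - a₁ • (x ^ j) f) + y (z₂ - a₂ • (x ^ j) f) + a₂ • (x ^ (j + 1)) w := by
        rw [← h3, map_sub, map_sub, map_smul, map_smul, h4, pow_succ' x j, Module.End.mul_apply,
          add_smul, mul_smul, smul_add]
        abel
      rw [h6]
      have h7 : (x ^ (j + 1)) w ∈ Wf x y (i + 2 + (j + 1)) := Wf_xpow (j + 1) hc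
      exact Submodule.add_mem _ (Submodule.add_mem _ (Wf_x ha₁) (Wf_y ha₂))
        (Submodule.smul_mem _ _ h7)
  have h3 : ∀ m j, ∀ z ∈ Wf x y (i + 1 + j), ∃ g : k[X],
      z - (x ^ j) ((aeval x g) f) ∈ Wf x y (i + 1 + j + m) := by
    intro m
    induction m with
    | zero =>
      intro j z hz
      exact ⟨0, by simpa using hz⟩
    | succ m ih =>
      intro j z hz
      obtain ⟨a, ha⟩ := h2 j z hz
      have h4 : z - a • (x ^ j) f ∈ Wf x y (i + 1 + (j + 1)) := by
        have h5 : i + 1 + (j + 1) = i + 2 + j := by omega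
        rw [h5]
        exact ha
      obtain ⟨g, hg⟩ := ih (j + 1) _ h4
      refine ⟨C a + X * g, ?_⟩
      have h5 : (x ^ j) ((aeval x (C a + X * g)) f) =
          a • (x ^ j) f + (x ^ (j + 1)) ((aeval x g) f) := by
        rw [map_add, aeval_C, map_mul, aeval_X, LinearMap.add_apply, map_add,
          Module.algebraMap_end_apply, map_smul, Module.End.mul_apply, pow_succ,
          Module.End.mul_apply]
      have h6 : i + 1 + j + (m + 1) = i + 1 + (j + 1) + m := by omega
      rw [h5, h6, ← sub_sub]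
      exact hg
  have h4 : ∀ j, ∀ z ∈ Wf x y (i + 1 + j), ∃ g : k[X], z = (x ^ j) ((aeval x g) f) := by
    intro j z hz
    obtain ⟨g, hg⟩ := h3 (finrank k V) j z hz
    have h5 : Wf x y (i + 1 + j + finrank k V) ≤ Wf x y (finrank k V) := Wf_anti (by omega)
    have h6 := h5 hg
    rw [Wf_bot hxy hx hy] at h6
    exact ⟨g, sub_eq_zero.1 ((Submodule.mem_bot k).1 h6)⟩
  obtain ⟨g, hg⟩ := h4 1 w hc
  rw [pow_one] at hg
  -- the correction
  have hcg : Commute x (aeval x g) := comm_aeval (Commute.refl x) g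
  have hyg : Commute y (aeval x g) := comm_aeval hxy.symm g
  let s : Module.End k V := c • x + x ^ 2 * aeval x g
  have hxs : Commute x s := by
    refine Commute.add_right ((Commute.refl x).smul_right c) ?_
    exact (Commute.pow_right (Commute.refl x) 2).mul_right hcg
  have hys : Commute y s := by
    refine Commute.add_right (hxy.symm.smul_right c) ?_
    exact (hxy.symm.pow_right 2).mul_right hyg
  let y₂ : Module.End k V := y - s
  have hy₂f : y₂ f = 0 := by
    show (y - s) f = 0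
    rw [LinearMap.sub_apply, hxw, hg]
    show _ - (c • x + x ^ 2 * aeval x g) f = 0
    rw [LinearMap.add_apply, LinearMap.smul_apply, Module.End.mul_apply, pow_two,
      Module.End.mul_apply]
    abel
  have hxy₂ : Commute x y₂ := hxy.sub_right hxs
  have hy₂W : ∀ z ∈ Wf x y (i + 1), y₂ z = 0 := by
    intro z hz
    obtain ⟨q, hq⟩ := h4 0 z hz
    have h5 : Commute y₂ (aeval x q) := comm_aeval hxy₂.symm q
    rw [hq, pow_zero, Module.End.one_apply, ← Module.End.mul_apply, h5.eq, Module.End.mul_apply,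
      hy₂f, map_zero]
  have hy₂n : ∀ n, ∀ v ∈ Wf x y n, y₂ v ∈ Wf x y (n + 1) := by
    intro n v hv
    show (y - (c • x + x ^ 2 * aeval x g)) v ∈ _
    rw [LinearMap.sub_apply, LinearMap.add_apply, LinearMap.smul_apply, pow_two, mul_assoc,
      Module.End.mul_apply]
    refine Submodule.sub_mem _ (Wf_y hv) (Submodule.add_mem _ (Submodule.smul_mem _ _ (Wf_x hv))
      (Wf_x ?_))
    rw [Module.End.mul_apply]
    exact Wf_succ_le n (Wf_x (Wf_aeval g hv))
  have hy₂p : y₂ ^ p = 0 := by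
    apply LinearMap.ext
    intro v
    obtain ⟨n, hn⟩ : ∃ n, p = n + 1 := ⟨p - 1, by have := hp.out.pos; omega⟩
    have h5 : (y₂ ^ n) v ∈ Wf x y (0 + n) := Wf_of hy₂n n (by trivial)
    have h6 : Wf x y (0 + n) ≤ Wf x y (i + 1) := Wf_anti (by omega)
    rw [hn, pow_succ', Module.End.mul_apply, hy₂W _ (h6 h5), LinearMap.zero_apply]
  have hx2p : x ^ (2 * p) = 0 := by
    apply LinearMap.ext
    intro v
    have h5 : (x ^ (2 * p)) v ∈ Wf x y (0 + 2 * p) := Wf_xpow (2 * p) (by trivial)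
    have h6 : Wf x y (0 + 2 * p) ≤ Wf x y (finrank k V) := Wf_anti (by omega)
    have h7 := h6 h5
    rw [Wf_bot hxy hx hy] at h7
    rw [(Submodule.mem_bot k).1 h7, LinearMap.zero_apply]
  refine ⟨c ^ p, ?_⟩
  have h5 : y = y₂ + s := by
    show y = y - s + s
    rw [sub_add_cancel]
  have h6 : Commute y₂ s := Commute.sub_left hys (Commute.refl s)
  have h7 : Commute (c • x) (x ^ 2 * aeval x g) :=
    ((Commute.pow_right (Commute.refl x) 2).mul_right hcg).smul_left c
  have h8 : s ^ p = c ^ p • x ^ p := by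
    show (c • x + x ^ 2 * aeval x g) ^ p = _
    rw [add_pow_char_of_commute p h7, _root_.smul_pow, (hcg.pow_left 2).mul_pow, ← pow_mul, hx2p,
      zero_mul, add_zero]
  rw [h5, add_pow_char_of_commute p h6, hy₂p, zero_add, h8]

/-- **Two commuting nilpotent endomorphisms of a space of dimension at most `2p` have linearly
dependent `p`-th powers.** -/
theorem pow_dep (p : ℕ) [hp : Fact p.Prime] [CharP k p] (hxy : Commute x y)
    (hx : IsNilpotent x) (hy : IsNilpotent y) (hV : finrank k V ≤ 2 * p) :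
    ∃ a b : k, (a ≠ 0 ∨ b ≠ 0) ∧ a • x ^ p + b • y ^ p = 0 := by
  have hp2 := hp.out.two_le
  by_cases hx0 : x ^ p = 0
  · exact ⟨1, 0, Or.inl one_ne_zero, by rw [hx0, smul_zero, zero_smul, add_zero]⟩
  have hbot : ∀ n ≤ p, Wf x y n ≠ ⊥ := by
    intro n hn h0
    apply hx0
    apply LinearMap.ext
    intro v
    have h1 : (x ^ p) v ∈ Wf x y (0 + p) := Wf_xpow p (by trivial)
    have h2 : Wf x y (0 + p) ≤ Wf x y n := Wf_anti (by omega)
    have h3 := h2 h1
    rw [h0] at h3
    rw [(Submodule.mem_bot k).1 h3, LinearMap.zero_apply]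
  by_cases hcase : ∃ i, i + 1 ≤ p - 1 ∧ finrank k (Wf x y (i + 1)) ≤
      finrank k (Wf x y (i + 2)) + 1
  · obtain ⟨i, hi, hd⟩ := hcase
    by_cases hxu : ∃ u ∈ Wf x y i, x u ∉ Wf x y (i + 2)
    · obtain ⟨u, hu, hxu⟩ := hxu
      obtain ⟨c, hc⟩ := case_one p hxy hx hy hV hi hu hxu hd
      exact ⟨-c, 1, Or.inr one_ne_zero, by rw [hc, one_smul, neg_smul, neg_add_cancel]⟩
    by_cases hyu : ∃ u ∈ Wf x y i, y u ∉ Wf x y (i + 2)
    · obtain ⟨u, hu, hyu⟩ := hyu
      rw [Wf_swap] at hu hyu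
      rw [Wf_swap (i + 1), Wf_swap (i + 2)] at hd
      obtain ⟨c, hc⟩ := case_one p hxy.symm hy hx hV hi hu hyu hd
      exact ⟨1, -c, Or.inl one_ne_zero, by rw [hc, one_smul, neg_smul, add_neg_cancel]⟩
    · exfalso
      push Not at hxu hyu
      have h1 : Wf x y (i + 1) ≤ Wf x y (i + 1 + 1) := by
        show (Wf x y i).map x ⊔ (Wf x y i).map y ≤ Wf x y (i + 2)
        refine sup_le ?_ ?_
        · rintro _ ⟨u, hu, rfl⟩
          exact hxu u hu
        · rintro _ ⟨u, hu, rfl⟩
          exact hyu u hu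
      exact hbot (i + 1) (by omega) (Wf_nak hxy hx hy h1)
  push Not at hcase
  have h1 : ∀ j, j + 1 ≤ p → finrank k (Wf x y (j + 1)) + 2 * j ≤ finrank k (Wf x y 1) := by
    intro j
    induction j with
    | zero =>
      intro _
      exact le_rfl
    | succ j ih =>
      intro hj
      have h2 := ih (by omega)
      have h3 := hcase j (by omega)
      have h4 : j + 1 + 1 = j + 2 := rfl
      rw [h4]
      omega
  obtain ⟨q, hq⟩ : ∃ q, p = q + 1 := ⟨p - 1, by omega⟩
  have h2 := h1 q (by omega)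
  rw [← hq] at h2
  have h3 : Wf x y 1 < Wf x y 0 := by
    refine lt_of_le_of_ne (Wf_succ_le 0) fun h4 => hbot 0 (by omega) ?_
    exact Wf_nak hxy hx hy h4.ge
  have h4 : finrank k (Wf x y 1) < finrank k (Wf x y 0) := Submodule.finrank_lt_finrank_of_lt h3
  have h5 : finrank k (Wf x y 0) = finrank k V := finrank_top k V
  have h6 : Wf x y (p + 1) < Wf x y p := by
    refine lt_of_le_of_ne (Wf_succ_le p) fun h7 => hbot p le_rfl ?_
    exact Wf_nak hxy hx hy h7.ge
  have h7 := Submodule.finrank_lt_finrank_of_lt h6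
  have h8 : finrank k (Wf x y (p + 1)) = 0 := by omega
  have h9 : Wf x y (p + 1) = ⊥ := Submodule.finrank_eq_zero.1 h8
  have h10 : finrank k (Wf x y p) = 1 := by omega
  obtain ⟨v, -, hv⟩ := SetLike.exists_of_lt h3
  have h11 : ∀ z : V, ∃ t : k, z - t • v ∈ Wf x y 1 := by
    have h12 : Wf x y 1 < Submodule.span k {v} ⊔ Wf x y 1 := by
      refine lt_of_le_of_ne le_sup_right fun h13 => hv ?_
      rw [h13]
      exact Submodule.mem_sup_left (Submodule.mem_span_singleton_self v)
    have h13 := Submodule.finrank_lt_finrank_of_lt h12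
    have h14 : Submodule.span k {v} ⊔ Wf x y 1 = Wf x y 0 :=
      Submodule.eq_of_le_of_finrank_le le_top (by omega)
    intro z
    have hz : z ∈ Submodule.span k {v} ⊔ Wf x y 1 := by
      rw [h14]
      trivial
    obtain ⟨_, hs, w, hw, h15⟩ := Submodule.mem_sup.1 hz
    obtain ⟨a, rfl⟩ := Submodule.mem_span_singleton.1 hs
    refine ⟨a, ?_⟩
    rw [← h15, add_sub_cancel_left]
    exact hw
  have hxk : ∀ w ∈ Wf x y 1, (x ^ p) w = 0 := by
    intro w hw
    have h12 := Wf_xpow p hw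
    rw [add_comm, h9] at h12
    exact (Submodule.mem_bot k).1 h12
  have hyk : ∀ w ∈ Wf x y 1, (y ^ p) w = 0 := by
    intro w hw
    have h12 := Wf_ypow p hw
    rw [add_comm, h9] at h12
    exact (Submodule.mem_bot k).1 h12
  have hxv : (x ^ p) v ∈ Wf x y p := by
    have := Wf_xpow (x := x) (y := y) (n := 0) (v := v) p (by trivial)
    rwa [zero_add] at this
  have hyv : (y ^ p) v ∈ Wf x y p := by
    have := Wf_ypow (x := x) (y := y) (n := 0) (v := v) p (by trivial)
    rwa [zero_add] at this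
  have hfin : ∀ a b : k, a • (x ^ p) v + b • (y ^ p) v = 0 → a • x ^ p + b • y ^ p = 0 := by
    intro a b hab
    apply LinearMap.ext
    intro z
    obtain ⟨t, ht⟩ := h11 z
    have h12 : z = t • v + (z - t • v) := by abel
    have h13 := hxk _ ht
    have h14 := hyk _ ht
    rw [h12, LinearMap.add_apply, LinearMap.smul_apply, LinearMap.smul_apply, map_add, map_add,
      h13, h14, add_zero, add_zero, map_smul, map_smul, smul_comm a t, smul_comm b t, ← smul_add,
      hab, smul_zero, LinearMap.zero_apply]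
  by_cases h12 : (x ^ p) v = 0
  · exact ⟨1, 0, Or.inl one_ne_zero, hfin 1 0 (by rw [h12, smul_zero, zero_smul, add_zero])⟩
  · have h13 : (⟨(x ^ p) v, hxv⟩ : Wf x y p) ≠ 0 := fun h0 => h12 (congrArg Subtype.val h0)
    obtain ⟨c, hc⟩ := (finrank_eq_one_iff_of_nonzero' _ h13).1 h10 ⟨(y ^ p) v, hyv⟩
    have h14 : c • (x ^ p) v = (y ^ p) v := congrArg Subtype.val hc
    refine ⟨-c, 1, Or.inr one_ne_zero, hfin (-c) 1 ?_⟩
    rw [← h14, one_smul, neg_smul, neg_add_cancel]

end dep

end Pool.Agent.Helper28.KW
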