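import Pool.Agent.Helper58.KW.Defs

set_option autoImplicit false

/-!
# Symbols of derivations

`D` is a derivation of `A`, `D (ι (e x))` has symbol `q x` of degree `m`.  Then `D (symb r)` has symbol
`∑ x, ∂ r / ∂ x * q x`.
-/

namespace Pool.Agent.Helper28.KW

open MvPolynomial Module Pool.Agent.Helper58.KW

section dersymb

variable {k : Type*} [Field k] {V : Type*} [AddCommGroup V] [Module k V] {A : Type*} [Ring A]
  [Algebra k A] {X : Type*}

theorem der_one (D : A →ₗ[k] A) (hD : ∀ a b, D (a * b) = D a * b + a * D b) : D 1 = 0 := by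
  have h := hD 1 1
  simp only [mul_one, one_mul] at h
  have h2 : D 1 + D 1 - D 1 = D 1 - D 1 := by rw [← h]
  simpa using h2

theorem der_iota_mem (ι : V →ₗ[k] A) (e : Basis X k V) (D : A →ₗ[k] A) {m : ℕ}
    (hm : ∀ x, D (ι (e x)) ∈ G ι m) (v : V) : D (ι v) ∈ G ι m := by
  have h1 : v ∈ Submodule.span k (Set.range e) := e.mem_span v
  have h2 : Submodule.span k (Set.range e) ≤ (G ι m).comap (D ∘ₗ ι) := by
    refine Submodule.span_le.2 ?_
    rintro _ ⟨x, rfl⟩
    exact hm x
  exact h2 h1

theorem der_word (ι : V →ₗ[k] A) (D : A →ₗ[k] A) (hD : ∀ a b, D (a * b) = D a * b + a * D b)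
    {m : ℕ} (hm : ∀ v, D (ι v) ∈ G ι (m + 1)) (l : List V) :
    D (l.map ι).prod ∈ G ι (l.length + m) := by
  induction l with
  | nil =>
    rw [List.map_nil, List.prod_nil, der_one D hD]
    exact zero_mem _
  | cons v l ih =>
    rw [List.map_cons, List.prod_cons, hD, List.length_cons]
    refine add_mem ?_ ?_
    · have h1 := G_mul ι (hm v) (prod_mem_G ι (l := l) (d := l.length + 1) (by omega))
      rwa [show m + (l.length + 1) = l.length + 1 + m by omega] at h1
    · have h1 := G_mul ι (iota_mem_G ι v (d := 1 + 1) (by omega)) ih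
      rwa [show 1 + (l.length + m) = l.length + 1 + m by omega] at h1

/-- A derivation raising the degree of the generators by `m - 1` raises degrees by `m - 1`. -/
theorem der_filt (ι : V →ₗ[k] A) (D : A →ₗ[k] A) (hD : ∀ a b, D (a * b) = D a * b + a * D b)
    {m : ℕ} (hm : ∀ v, D (ι v) ∈ G ι (m + 1)) {d : ℕ} {a : A} (ha : a ∈ G ι (d + 1)) :
    D a ∈ G ι (d + m) := by
  induction ha using Submodule.span_induction with
  | mem a ha =>
    obtain ⟨l, hl, rfl⟩ := ha
    exact G_mono ι (by omega) (der_word ι D hD hm l)
  | zero =>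
    rw [map_zero]
    exact zero_mem _
  | add x y _ _ hx hy =>
    rw [map_add]
    exact add_mem hx hy
  | smul c x _ hx =>
    rw [map_smul]
    exact Submodule.smul_mem _ _ hx

theorem const_of_hom {q : MvPolynomial X k} (hq : q.IsHomogeneous 0) :
    q = (coeff 0 q) • (1 : MvPolynomial X k) := by
  have h2 := (totalDegree_zero_iff_isHomogeneous X).2 hq
  have h1 : q = C (coeff 0 q) := totalDegree_eq_zero_iff_eq_C.1 h2
  conv_lhs => rw [h1]
  rw [smul_eq_C_mul, mul_one]

theorem mkDer_hom {q : X → MvPolynomial X k} {m : ℕ} (hq : ∀ x, (q x).IsHomogeneous m) {d : ℕ}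
    {r : MvPolynomial X k} (hr : r.IsHomogeneous (d + 1)) :
    (mkDerivation k q r).IsHomogeneous (d + m) := by
  classical
  rw [r.as_sum, map_sum]
  refine IsHomogeneous.sum _ _ _ fun ν hν => ?_
  have hdeg : Finsupp.degree ν = d + 1 := by
    have := hr (mem_support_iff.1 hν)
    rwa [Finsupp.degree_eq_weight_one]
  rw [mkDerivation_monomial, smul_eq_C_mul]
  have h0 : (C (coeff ν r) : MvPolynomial X k).IsHomogeneous 0 := isHomogeneous_C _ _
  have h1 : (ν.sum fun i c => (monomial (ν - Finsupp.single i 1) ((c : ℕ) : k) :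
      MvPolynomial X k) • q i).IsHomogeneous (d + m) := by
    refine IsHomogeneous.sum _ _ _ fun i hi => ?_
    have hi0 : 1 ≤ ν i := Nat.one_le_iff_ne_zero.2 (Finsupp.mem_support_iff.1 hi)
    have h2 : Finsupp.degree (ν - Finsupp.single i 1) = d := by
      have h3 : (ν - Finsupp.single i 1) + Finsupp.single i 1 = ν := by
        apply tsub_add_cancel_of_le
        rw [Finsupp.single_le_iff]
        exact hi0
      have h4 := congrArg Finsupp.degree h3
      rw [map_add, Finsupp.degree_single, hdeg] at h4
      omega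
    exact (isHomogeneous_monomial ((ν i : ℕ) : k) (d := ν - Finsupp.single i 1) h2).mul (hq i)
  have h6 := h0.mul h1
  rwa [zero_add] at h6

/-- Induction principle: a homogeneous polynomial of positive degree is a sum of products of a
variable and a homogeneous polynomial. -/
theorem hom_induction {P : MvPolynomial X k → Prop} {d : ℕ}
    (hadd : ∀ q r, P q → P r → P (q + r)) (h0 : P 0)
    (hmul : ∀ x (μ : MvPolynomial X k), μ.IsHomogeneous d → P (MvPolynomial.X x * μ))
    {q : MvPolynomial X k} (hq : q.IsHomogeneous (d + 1)) : P q := by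
  classical
  rw [q.as_sum]
  have hterm : ∀ ν ∈ q.support, P (monomial ν (coeff ν q)) := by
    intro ν hν
    have hdeg : Finsupp.degree ν = d + 1 := by
      have := hq (mem_support_iff.1 hν)
      rwa [Finsupp.degree_eq_weight_one]
    obtain ⟨x, hx⟩ : ∃ x, ν x ≠ 0 := by
      by_contra hcon
      push Not at hcon
      have : ν = 0 := Finsupp.ext hcon
      rw [this, map_zero] at hdeg
      omega
    have hadd' : Finsupp.single x 1 + (ν - Finsupp.single x 1) = ν := by
      rw [add_tsub_cancel_of_le]
      rw [Finsupp.single_le_iff]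
      omega
    have hμd : Finsupp.degree (ν - Finsupp.single x 1) = d := by
      have h4 := congrArg Finsupp.degree hadd'
      rw [map_add, Finsupp.degree_single, hdeg] at h4
      omega
    have hmon : (monomial ν (coeff ν q) : MvPolynomial X k) =
        MvPolynomial.X x * monomial (ν - Finsupp.single x 1) (coeff ν q) := by
      have h1 : (MvPolynomial.X x : MvPolynomial X k) = monomial (Finsupp.single x 1) 1 := rfl
      rw [h1, monomial_mul, one_mul, hadd']
    rw [hmon]
    exact hmul x _ (isHomogeneous_monomial _ hμd)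
  generalize q.support = s at hterm
  induction s using Finset.induction_on with
  | empty =>
    rw [Finset.sum_empty]
    exact h0
  | insert ν s hν ih =>
    rw [Finset.sum_insert hν]
    refine hadd _ _ (hterm ν (Finset.mem_insert_self _ _)) (ih fun μ hμ => ?_)
    exact hterm μ (Finset.mem_insert_of_mem hμ)

/-- The symbol of a derivation. -/
theorem der_symb {ι : V →ₗ[k] A} {e : Basis X k V} {symb : MvPolynomial X k →ₗ[k] A}
    (h : PBW ι e symb) (D : A →ₗ[k] A) (hD : ∀ a b, D (a * b) = D a * b + a * D b)
    {m : ℕ} {q : X → MvPolynomial X k} (hq : ∀ x, (q x).IsHomogeneous m)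
    (hm : ∀ x, D (ι (e x)) - symb (q x) ∈ G ι m) (d : ℕ) : ∀ {r : MvPolynomial X k},
      r.IsHomogeneous (d + 1) → D (symb r) - symb (mkDerivation k q r) ∈ G ι (d + m) := by
  have hm1 : ∀ v, D (ι v) ∈ G ι (m + 1) := by
    apply der_iota_mem ι e D
    intro x
    have h1 := add_mem (G_mono ι (Nat.le_succ m) (hm x)) (h.symb_hom (hq x))
    rwa [sub_add_cancel] at h1
  induction d with
  | zero =>
    intro r hr
    refine hom_induction (P := fun r => D (symb r) - symb (mkDerivation k q r) ∈ G ι (0 + m))
      ?_ ?_ ?_ hr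
    · intro a b ha hb
      have := add_mem ha hb
      simp only [map_add]
      convert this using 1
      abel
    · simp
    · intro x μ hμ
      have h1 := const_of_hom hμ
      rw [h1, mul_smul_comm, mul_one, map_smul, map_smul, Derivation.map_smul, map_smul,
        ← smul_sub, h.symb_X, mkDerivation_X]
      have h2 := hm x
      rw [zero_add]
      exact Submodule.smul_mem _ _ h2
  | succ d ih =>
    intro r hr
    refine hom_induction (P := fun r => D (symb r) - symb (mkDerivation k q r) ∈
      G ι (d + 1 + m)) ?_ ?_ ?_ hr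
    · intro a b ha hb
      have := add_mem ha hb
      simp only [map_add]
      convert this using 1
      abel
    · simp
    · intro x μ hμ
      have h1 := h.symb_mul (isHomogeneous_X k x) hμ
      rw [h.symb_X] at h1
      -- `D` of the error
      have h2 : D (ι (e x) * symb μ - symb (MvPolynomial.X x * μ)) ∈ G ι (d + 1 + m) := by
        refine der_filt ι D hD hm1 ?_
        rwa [show d + 1 + 1 = 1 + (d + 1) by omega]
      rw [map_sub, hD] at h2
      -- first term
      have h3 : (D (ι (e x)) - symb (q x)) * symb μ ∈ G ι (d + 1 + m) := by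
        have := G_mul' ι (hm x) (h.symb_hom hμ)
        rwa [show m + (d + 1) = d + 1 + m by omega] at this
      have h4 : symb (q x) * symb μ - symb (q x * μ) ∈ G ι (d + 1 + m) := by
        have := h.symb_mul (hq x) hμ
        rwa [show m + (d + 1) = d + 1 + m by omega] at this
      -- second term
      have h5 : ι (e x) * (D (symb μ) - symb (mkDerivation k q μ)) ∈ G ι (d + 1 + m) := by
        have := G_mul ι (iota_mem_G ι (e x) (d := 1 + 1) (by omega)) (ih hμ)
        rwa [show 1 + (d + m) = d + 1 + m by omega] at this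
      have h6 : ι (e x) * symb (mkDerivation k q μ) -
          symb (MvPolynomial.X x * mkDerivation k q μ) ∈ G ι (d + 1 + m) := by
        have := h.symb_mul (isHomogeneous_X k x) (mkDer_hom hq hμ)
        rw [h.symb_X] at this
        rwa [show 1 + (d + m) = d + 1 + m by omega] at this
      have h7 : mkDerivation k q (MvPolynomial.X x * μ) =
          MvPolynomial.X x * mkDerivation k q μ + q x * μ := by
        rw [Derivation.leibniz, smul_eq_mul, smul_eq_mul, mkDerivation_X, mul_comm μ]
      show D (symb (MvPolynomial.X x * μ)) - symb (mkDerivation k q (MvPolynomial.X x * μ)) ∈ _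
      rw [h7, map_add]
      have h8 := sub_mem (add_mem (add_mem h3 h4) (add_mem h5 h6)) h2
      convert h8 using 1
      noncomm_ring

/-- The commutator of an element of degree `≤ d + 1` with `u`. -/
theorem comm_symb {ι : V →ₗ[k] A} {e : Basis X k V} {symb : MvPolynomial X k →ₗ[k] A}
    (h : PBW ι e symb) {u : A} {m : ℕ} {q : X → MvPolynomial X k}
    (hq : ∀ x, (q x).IsHomogeneous m)
    (hm : ∀ x, ι (e x) * u - u * ι (e x) - symb (q x) ∈ G ι m) {d : ℕ} {v : A}
    {r : MvPolynomial X k} (hr : r.IsHomogeneous (d + 1)) (hv : v - symb r ∈ G ι (d + 1)) :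
    v * u - u * v - symb (mkDerivation k q r) ∈ G ι (d + m) := by
  let D : A →ₗ[k] A := LinearMap.mulRight k u - LinearMap.mulLeft k u
  have hDa : ∀ a, D a = a * u - u * a := fun a => rfl
  have hD : ∀ a b, D (a * b) = D a * b + a * D b := by
    intro a b
    rw [hDa, hDa, hDa]
    noncomm_ring
  have hm1 : ∀ v, D (ι v) ∈ G ι (m + 1) := by
    apply der_iota_mem ι e D
    intro x
    have h1 := add_mem (G_mono ι (Nat.le_succ m) (hm x)) (h.symb_hom (hq x))
    rw [sub_add_cancel] at h1
    rwa [hDa]
  have h1 := der_symb h D hD hq (fun x => by rw [hDa]; exact hm x) d hr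
  have h2 := der_filt ι D hD hm1 hv
  rw [map_sub] at h2
  have h3 := add_mem h1 h2
  rw [← hDa]
  convert h3 using 1
  abel

end dersymb

end Pool.Agent.Helper28.KW
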