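import Pool.Agent.Helper28.KW.Index

set_option autoImplicit false

/-!
# Restricted Lie algebras of dimension at most `dim z + 2p + 3`
-/

namespace Pool.Agent.Helper28.KW

open Module Polynomial

section dep

variable {k : Type*} [Field k] {V : Type*} [AddCommGroup V] [Module k V] [FiniteDimensional k V]
  {x y : Module.End k V}

/-- The main case. -/
theorem case_core (hxy : Commute x y)
    (hx : IsNilpotent x) (hy : IsNilpotent y) {i : ℕ}
    {u : V} (hu : u ∈ Wf x y i) (hxu : x u ∉ Wf x y (i + 2))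
    (hd : finrank k (Wf x y (i + 1)) ≤ finrank k (Wf x y (i + 2)) + 1) :
    ∃ (c : k) (g : k[X]), ∀ z ∈ Wf x y (i + 1), (y - (c • x + x ^ 2 * aeval x g)) z = 0 := by
  set f := x u with hf
  have hf1 : f ∈ Wf x y (i + 1) := Wf_x hu
  -- `W (i+1)` is spanned by `f` and `W (i+2)`
  have h1 : ∀ z ∈ Wf x y (i + 1), ∃ a : k, z - a • f ∈ Wf x y (i + 2) := by
    have h2 : Wf x y (i + 2) < Submodule.span k {f} ⊔ Wf x y (i + 2) := by
      refine lt_of_le_of_ne le_sup_right fun h3 => hxu ?_
      rw [h3]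
      exact Submodule.mem_sup_left (Submodule.mem_span_singleton_self f)
    have h3 : Submodule.span k {f} ⊔ Wf x y (i + 2) ≤ Wf x y (i + 1) := by
      refine sup_le ?_ (Wf_succ_le _)
      rw [Submodule.span_le]
      rintro _ rfl
      exact hf1
    have h4 := Submodule.finrank_lt_finrank_of_lt h2
    have h5 : Submodule.span k {f} ⊔ Wf x y (i + 2) = Wf x y (i + 1) :=
      Submodule.eq_of_le_of_finrank_le h3 (by omega)
    intro z hz
    rw [← h5] at hz
    obtain ⟨_, hs, w, hw, h6⟩ := Submodule.mem_sup.1 hz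
    obtain ⟨a, rfl⟩ := Submodule.mem_span_singleton.1 hs
    refine ⟨a, ?_⟩
    rw [← h6, add_sub_cancel_left]
    exact hw
  obtain ⟨c, hc⟩ := h1 (y u) (Wf_y hu)
  set w := y u - c • f with hw
  have hxw : y f = x w + c • x f := by
    have h2 : y (x u) = x (y u) := by
      rw [← Module.End.mul_apply, ← Module.End.mul_apply, hxy.eq]
    rw [hf, h2, hw, map_sub, map_smul, hf, sub_add_cancel]
  -- the layers
  have h2 : ∀ j, ∀ z ∈ Wf x y (i + 1 + j), ∃ a : k, z - a • (x ^ j) f ∈ Wf x y (i + 2 + j) := by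
    intro j
    induction j with
    | zero =>
      intro z hz
      exact h1 z hz
    | succ j ih =>
      intro z hz
      have hz' : z ∈ (Wf x y (i + 1 + j)).map x ⊔ (Wf x y (i + 1 + j)).map y := hz
      obtain ⟨_, ⟨z₁, hz₁, rfl⟩, _, ⟨z₂, hz₂, rfl⟩, h3⟩ := Submodule.mem_sup.1 hz'
      obtain ⟨a₁, ha₁⟩ := ih z₁ hz₁
      obtain ⟨a₂, ha₂⟩ := ih z₂ hz₂
      refine ⟨a₁ + a₂ * c, ?_⟩
      have h4 : y ((x ^ j) f) = (x ^ (j + 1)) w + c • (x ^ (j + 1)) f := by
        have h5 : y ((x ^ j) f) = (x ^ j) (y f) :=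
          (LinearMap.congr_fun (hxy.pow_left j).eq f).symm
        rw [h5, hxw, map_add, map_smul, pow_succ, Module.End.mul_apply, Module.End.mul_apply]
      have h6 : z - (a₁ + a₂ * c) • (x ^ (j + 1)) f =
          x (z₁ - a₁ • (x ^ j) f) + y (z₂ - a₂ • (x ^ j) f) + a₂ • (x ^ (j + 1)) w := by
        rw [← h3, map_sub, map_sub, map_smul, map_smul, h4, pow_succ' x j, Module.End.mul_apply,
          add_smul, mul_smul, smul_add]
        abel
      rw [h6]
      have h7 : (x ^ (j + 1)) w ∈ Wf x y (i + 2 + (j + 1)) := Wf_xpow (j + 1) hc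
      exact Submodule.add_mem _ (Submodule.add_mem _ (Wf_x ha₁) (Wf_y ha₂))
        (Submodule.smul_mem _ _ h7)
  have h3 : ∀ m j, ∀ z ∈ Wf x y (i + 1 + j), ∃ g : k[X],
      z - (x ^ j) ((aeval x g) f) ∈ Wf x y (i + 1 + j + m) := by
    intro m
    induction m with
    | zero =>
      intro j z hz
      exact ⟨0, by simpa using hz⟩
    | succ m ih =>
      intro j z hz
      obtain ⟨a, ha⟩ := h2 j z hz
      have h4 : z - a • (x ^ j) f ∈ Wf x y (i + 1 + (j + 1)) := by
        have h5 : i + 1 + (j + 1) = i + 2 + j := by omega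
        rw [h5]
        exact ha
      obtain ⟨g, hg⟩ := ih (j + 1) _ h4
      refine ⟨C a + X * g, ?_⟩
      have h5 : (x ^ j) ((aeval x (C a + X * g)) f) =
          a • (x ^ j) f + (x ^ (j + 1)) ((aeval x g) f) := by
        rw [map_add, aeval_C, map_mul, aeval_X, LinearMap.add_apply, map_add,
          Module.algebraMap_end_apply, map_smul, Module.End.mul_apply, pow_succ,
          Module.End.mul_apply]
      have h6 : i + 1 + j + (m + 1) = i + 1 + (j + 1) + m := by omega
      rw [h5, h6, ← sub_sub]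
      exact hg
  have h4 : ∀ j, ∀ z ∈ Wf x y (i + 1 + j), ∃ g : k[X], z = (x ^ j) ((aeval x g) f) := by
    intro j z hz
    obtain ⟨g, hg⟩ := h3 (finrank k V) j z hz
    have h5 : Wf x y (i + 1 + j + finrank k V) ≤ Wf x y (finrank k V) := Wf_anti (by omega)
    have h6 := h5 hg
    rw [Wf_bot hxy hx hy] at h6
    exact ⟨g, sub_eq_zero.1 ((Submodule.mem_bot k).1 h6)⟩
  obtain ⟨g, hg⟩ := h4 1 w hc
  rw [pow_one] at hg
  -- the correction
  have hcg : Commute x (aeval x g) := comm_aeval (Commute.refl x) g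
  have hyg : Commute y (aeval x g) := comm_aeval hxy.symm g
  let s : Module.End k V := c • x + x ^ 2 * aeval x g
  have hxs : Commute x s := by
    refine Commute.add_right ((Commute.refl x).smul_right c) ?_
    exact (Commute.pow_right (Commute.refl x) 2).mul_right hcg
  have hys : Commute y s := by
    refine Commute.add_right (hxy.symm.smul_right c) ?_
    exact (hxy.symm.pow_right 2).mul_right hyg
  let y₂ : Module.End k V := y - s
  have hy₂f : y₂ f = 0 := by
    show (y - s) f = 0
    rw [LinearMap.sub_apply, hxw, hg]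
    show _ - (c • x + x ^ 2 * aeval x g) f = 0
    rw [LinearMap.add_apply, LinearMap.smul_apply, Module.End.mul_apply, pow_two,
      Module.End.mul_apply]
    abel
  have hxy₂ : Commute x y₂ := hxy.sub_right hxs
  have hy₂W : ∀ z ∈ Wf x y (i + 1), y₂ z = 0 := by
    intro z hz
    obtain ⟨q, hq⟩ := h4 0 z hz
    have h5 : Commute y₂ (aeval x q) := comm_aeval hxy₂.symm q
    rw [hq, pow_zero, Module.End.one_apply, ← Module.End.mul_apply, h5.eq, Module.End.mul_apply,
      hy₂f, map_zero]
  exact ⟨c, g, hy₂W⟩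

/-- The main case, for any exponent. -/
theorem case_q {q : ℕ} (hxy : Commute x y)
    (hx : IsNilpotent x) (hy : IsNilpotent y) (hV : finrank k V ≤ 2 * q) {i : ℕ}
    (hi : i + 1 ≤ q - 1) {u : V} (hu : u ∈ Wf x y i) (hxu : x u ∉ Wf x y (i + 2))
    (hd : finrank k (Wf x y (i + 1)) ≤ finrank k (Wf x y (i + 2)) + 1) :
    ∃ c : k, (y - c • x) ^ q = 0 := by
  obtain ⟨c, g, hy₂W⟩ := case_core hxy hx hy hu hxu hd
  refine ⟨c, ?_⟩
  have hcg : Commute x (aeval x g) := comm_aeval (Commute.refl x) g
  have hyg : Commute y (aeval x g) := comm_aeval hxy.symm g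
  let t : Module.End k V := x ^ 2 * aeval x g
  let y₂ : Module.End k V := y - (c • x + t)
  have hxt : Commute x t := (Commute.pow_right (Commute.refl x) 2).mul_right hcg
  have hyt : Commute y t := (hxy.symm.pow_right 2).mul_right hyg
  have hy₂t : Commute y₂ t := by
    refine Commute.sub_left hyt (Commute.add_left ?_ (Commute.refl t))
    exact hxt.smul_left c
  have htn : ∀ n, ∀ v ∈ Wf x y n, t v ∈ Wf x y (n + 2) := by
    intro n v hv
    show (x ^ 2 * aeval x g) v ∈ _
    rw [pow_two, mul_assoc, Module.End.mul_apply, Module.End.mul_apply]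
    exact Wf_x (Wf_x (Wf_aeval g hv))
  have hy₂n : ∀ n, ∀ v ∈ Wf x y n, y₂ v ∈ Wf x y (n + 1) := by
    intro n v hv
    show (y - (c • x + t)) v ∈ _
    rw [LinearMap.sub_apply, LinearMap.add_apply, LinearMap.smul_apply]
    exact Submodule.sub_mem _ (Wf_y hv) (Submodule.add_mem _ (Submodule.smul_mem _ _ (Wf_x hv))
      (Wf_succ_le (n + 1) (htn n v hv)))
  have htp : ∀ m, ∀ v, (t ^ m) v ∈ Wf x y (2 * m) := by
    intro m
    induction m with
    | zero => exact fun v => trivial
    | succ m ih =>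
      intro v
      rw [pow_succ', Module.End.mul_apply]
      exact htn _ _ (ih v)
  have hx2q : x ^ (2 * q) = 0 := by
    apply LinearMap.ext
    intro v
    have h5 : (x ^ (2 * q)) v ∈ Wf x y (0 + 2 * q) := Wf_xpow (2 * q) (by trivial)
    have h6 : Wf x y (0 + 2 * q) ≤ Wf x y (finrank k V) := Wf_anti (by omega)
    have h7 := h6 h5
    rw [Wf_bot hxy hx hy] at h7
    rw [(Submodule.mem_bot k).1 h7, LinearMap.zero_apply]
  have h5 : y - c • x = y₂ + t := by
    show y - c • x = y - (c • x + t) + t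
    abel
  rw [h5, hy₂t.add_pow']
  refine Finset.sum_eq_zero fun m hm => ?_
  have hm' := Finset.HasAntidiagonal.mem_antidiagonal.1 hm
  obtain ⟨j, l⟩ := m
  simp only at hm' ⊢
  have h6 : y₂ ^ j * t ^ l = 0 := by
    rcases Nat.eq_zero_or_pos j with h0 | h0
    · have hl : l = q := by omega
      rw [h0, hl, pow_zero, one_mul]
      show (x ^ 2 * aeval x g) ^ q = 0
      rw [(hcg.pow_left 2).mul_pow, ← pow_mul, hx2q, zero_mul]
    · obtain ⟨j', rfl⟩ : ∃ j', j = j' + 1 := ⟨j - 1, by omega⟩
      apply LinearMap.ext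
      intro v
      have h7 := Wf_of hy₂n j' (htp l v)
      have h8 : Wf x y (2 * l + j') ≤ Wf x y (i + 1) := Wf_anti (by omega)
      rw [pow_succ', mul_assoc, Module.End.mul_apply, Module.End.mul_apply]
      exact hy₂W _ (h8 h7)
  rw [h6, smul_zero]

/-- **Commuting nilpotent endomorphisms of a space of dimension at most `2q`: some combination has
`q`-th power zero.** -/
theorem pow_dep_q [IsAlgClosed k] {q : ℕ} (hq : 0 < q) (hxy : Commute x y)
    (hx : IsNilpotent x) (hy : IsNilpotent y) (hV : finrank k V ≤ 2 * q) :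
    ∃ a b : k, (a ≠ 0 ∨ b ≠ 0) ∧ (a • x + b • y) ^ q = 0 := by
  classical
  by_cases hx0 : x ^ q = 0
  · exact ⟨1, 0, Or.inl one_ne_zero, by rw [one_smul, zero_smul, add_zero, hx0]⟩
  have hbot : ∀ n ≤ q, Wf x y n ≠ ⊥ := by
    intro n hn h0
    apply hx0
    apply LinearMap.ext
    intro v
    have h1 : (x ^ q) v ∈ Wf x y (0 + q) := Wf_xpow q (by trivial)
    have h2 : Wf x y (0 + q) ≤ Wf x y n := Wf_anti (by omega)
    have h3 := h2 h1
    rw [h0] at h3
    rw [(Submodule.mem_bot k).1 h3, LinearMap.zero_apply]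
  by_cases hcase : ∃ i, i + 1 ≤ q - 1 ∧ finrank k (Wf x y (i + 1)) ≤
      finrank k (Wf x y (i + 2)) + 1
  · obtain ⟨i, hi, hd⟩ := hcase
    by_cases hxu : ∃ u ∈ Wf x y i, x u ∉ Wf x y (i + 2)
    · obtain ⟨u, hu, hxu⟩ := hxu
      obtain ⟨c, hc⟩ := case_q hxy hx hy hV hi hu hxu hd
      exact ⟨-c, 1, Or.inr one_ne_zero, by
        rw [one_smul, neg_smul, neg_add_eq_sub]
        exact hc⟩
    by_cases hyu : ∃ u ∈ Wf x y i, y u ∉ Wf x y (i + 2)
    · obtain ⟨u, hu, hyu⟩ := hyu
      rw [Wf_swap] at hu hyu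
      rw [Wf_swap (i + 1), Wf_swap (i + 2)] at hd
      obtain ⟨c, hc⟩ := case_q hxy.symm hy hx hV hi hu hyu hd
      exact ⟨1, -c, Or.inl one_ne_zero, by
        rw [one_smul, neg_smul, ← sub_eq_add_neg]
        exact hc⟩
    · exfalso
      push Not at hxu hyu
      have h1 : Wf x y (i + 1) ≤ Wf x y (i + 1 + 1) := by
        show (Wf x y i).map x ⊔ (Wf x y i).map y ≤ Wf x y (i + 2)
        refine sup_le ?_ ?_
        · rintro _ ⟨u, hu, rfl⟩
          exact hxu u hu
        · rintro _ ⟨u, hu, rfl⟩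
          exact hyu u hu
      exact hbot (i + 1) (by omega) (Wf_nak hxy hx hy h1)
  push Not at hcase
  have h1 : ∀ j, j + 1 ≤ q → finrank k (Wf x y (j + 1)) + 2 * j ≤ finrank k (Wf x y 1) := by
    intro j
    induction j with
    | zero =>
      intro _
      exact le_rfl
    | succ j ih =>
      intro hj
      have h2 := ih (by omega)
      have h3 := hcase j (by omega)
      have h4 : j + 1 + 1 = j + 2 := rfl
      rw [h4]
      omega
  obtain ⟨r, hr⟩ : ∃ r, q = r + 1 := ⟨q - 1, by omega⟩
  have h2 := h1 r (by omega)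
  rw [← hr] at h2
  have h3 : Wf x y 1 < Wf x y 0 := by
    refine lt_of_le_of_ne (Wf_succ_le 0) fun h4 => hbot 0 (by omega) ?_
    exact Wf_nak hxy hx hy h4.ge
  have h4 : finrank k (Wf x y 1) < finrank k (Wf x y 0) := Submodule.finrank_lt_finrank_of_lt h3
  have h5 : finrank k (Wf x y 0) = finrank k V := finrank_top k V
  have h6 : Wf x y (q + 1) < Wf x y q := by
    refine lt_of_le_of_ne (Wf_succ_le q) fun h7 => hbot q le_rfl ?_
    exact Wf_nak hxy hx hy h7.ge
  have h7 := Submodule.finrank_lt_finrank_of_lt h6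
  have h8 : finrank k (Wf x y (q + 1)) = 0 := by omega
  have h9 : Wf x y (q + 1) = ⊥ := Submodule.finrank_eq_zero.1 h8
  have h10 : finrank k (Wf x y q) = 1 := by omega
  obtain ⟨v, -, hv⟩ := SetLike.exists_of_lt h3
  have h11 : ∀ z : V, ∃ t : k, z - t • v ∈ Wf x y 1 := by
    have h12 : Wf x y 1 < Submodule.span k {v} ⊔ Wf x y 1 := by
      refine lt_of_le_of_ne le_sup_right fun h13 => hv ?_
      rw [h13]
      exact Submodule.mem_sup_left (Submodule.mem_span_singleton_self v)
    have h13 := Submodule.finrank_lt_finrank_of_lt h12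
    have h14 : Submodule.span k {v} ⊔ Wf x y 1 = Wf x y 0 :=
      Submodule.eq_of_le_of_finrank_le le_top (by omega)
    intro z
    have hz : z ∈ Submodule.span k {v} ⊔ Wf x y 1 := by
      rw [h14]
      trivial
    obtain ⟨_, hs, w, hw, h15⟩ := Submodule.mem_sup.1 hz
    obtain ⟨a, rfl⟩ := Submodule.mem_span_singleton.1 hs
    refine ⟨a, ?_⟩
    rw [← h15, add_sub_cancel_left]
    exact hw
  have hzn : ∀ a b : k, ∀ n, ∀ u ∈ Wf x y n, (a • x + b • y) u ∈ Wf x y (n + 1) := by
    intro a b n u hu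
    rw [LinearMap.add_apply, LinearMap.smul_apply, LinearMap.smul_apply]
    exact Submodule.add_mem _ (Submodule.smul_mem _ _ (Wf_x hu)) (Submodule.smul_mem _ _ (Wf_y hu))
  have hfin : ∀ a b : k, ((a • x + b • y) ^ q) v = 0 → (a • x + b • y) ^ q = 0 := by
    intro a b hab
    apply LinearMap.ext
    intro z
    obtain ⟨t, ht⟩ := h11 z
    have h12 : z = t • v + (z - t • v) := by abel
    have h13 := Wf_of (hzn a b) q ht
    rw [add_comm, h9] at h13
    rw [h12, map_add, (Submodule.mem_bot k).1 h13, add_zero, map_smul, hab, smul_zero,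
      LinearMap.zero_apply]
  by_cases h12 : (x ^ q) v = 0
  · exact ⟨1, 0, Or.inl one_ne_zero, hfin 1 0 (by rw [one_smul, zero_smul, add_zero, h12])⟩
  have hxv : (x ^ q) v ∈ Wf x y q := by
    have := Wf_xpow (x := x) (y := y) (n := 0) (v := v) q (by trivial)
    rwa [zero_add] at this
  have h13 : (⟨(x ^ q) v, hxv⟩ : Wf x y q) ≠ 0 := fun h0 => h12 (congrArg Subtype.val h0)
  have hc : ∀ m, ∃ c : k, m ≤ q → (x ^ m * y ^ (q - m)) v = c • (x ^ q) v := by
    intro m
    by_cases hm : m ≤ q
    · have h14 : (x ^ m * y ^ (q - m)) v ∈ Wf x y q := by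
        have h15 : (y ^ (q - m)) v ∈ Wf x y (0 + (q - m)) := Wf_ypow (q - m) (by trivial)
        have h16 := Wf_xpow m h15
        have h17 : 0 + (q - m) + m = q := by omega
        rw [h17] at h16
        exact h16
      obtain ⟨c, hc⟩ := (finrank_eq_one_iff_of_nonzero' _ h13).1 h10 ⟨_, h14⟩
      exact ⟨c, fun _ => (congrArg Subtype.val hc).symm⟩
    · exact ⟨0, fun h => absurd h hm⟩
  choose c hc using hc
  have hcq : c q = 1 := by
    have h14 := hc q le_rfl
    rw [Nat.sub_self, pow_zero, mul_one] at h14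
    have h15 : (c q - 1) • (x ^ q) v = 0 := by
      rw [sub_smul, one_smul, ← h14, sub_self]
    rcases smul_eq_zero.1 h15 with h16 | h16
    · exact sub_eq_zero.1 h16
    · exact absurd h16 h12
  let P : k[X] := ∑ m ∈ Finset.range (q + 1), C (c m * (q.choose m : k)) * X ^ m
  have hPq : P.coeff q = 1 := by
    show (∑ m ∈ Finset.range (q + 1), C (c m * (q.choose m : k)) * X ^ m).coeff q = 1
    rw [Polynomial.finset_sum_coeff, Finset.sum_eq_single q]
    · rw [Polynomial.coeff_C_mul, Polynomial.coeff_X_pow_self, hcq, Nat.choose_self, Nat.cast_one,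
        mul_one, mul_one]
    · intro m _ hm
      rw [Polynomial.coeff_C_mul, Polynomial.coeff_X_pow, if_neg (Ne.symm hm), mul_zero]
    · intro h
      exact absurd (Finset.mem_range.2 (Nat.lt_succ_self q)) h
  have hPd : P.degree ≠ 0 := by
    have h14 : (q : WithBot ℕ) ≤ P.degree := Polynomial.le_degree_of_ne_zero (by
      rw [hPq]
      exact one_ne_zero)
    intro h0
    rw [h0] at h14
    have h15 : q ≤ 0 := by exact_mod_cast h14
    omega
  obtain ⟨t, ht⟩ := IsAlgClosed.exists_root P hPd
  refine ⟨t, 1, Or.inr one_ne_zero, hfin t 1 ?_⟩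
  rw [one_smul, ((hxy.smul_left t).add_pow)]
  have h14 : ∀ m ∈ Finset.range (q + 1), ((t • x) ^ m * y ^ (q - m) * ((q.choose m : ℕ) :
      Module.End k V)) v = (c m * (q.choose m : k) * t ^ m) • (x ^ q) v := by
    intro m hm
    have hm' : m ≤ q := by
      have := Finset.mem_range.1 hm
      omega
    rw [← nsmul_eq_mul', _root_.smul_pow, smul_mul_assoc, LinearMap.smul_apply,
      LinearMap.smul_apply, hc m hm', ← Nat.cast_smul_eq_nsmul k, smul_smul, smul_smul]
    congr 1
    ring
  rw [LinearMap.sum_apply, Finset.sum_congr rfl h14, ← Finset.sum_smul]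
  have h15 : ∑ m ∈ Finset.range (q + 1), c m * (q.choose m : k) * t ^ m = 0 := by
    have h16 : P.eval t = 0 := ht
    show _ = (0 : k)
    rw [← h16]
    show _ = (∑ m ∈ Finset.range (q + 1), C (c m * (q.choose m : k)) * X ^ m).eval t
    rw [Polynomial.eval_finset_sum]
    refine Finset.sum_congr rfl fun m _ => ?_
    rw [Polynomial.eval_mul, Polynomial.eval_C, Polynomial.eval_pow, Polynomial.eval_X]
  rw [h15, zero_smul]

end dep

section lie

open Pool.Agent.Helper56.SKW Pool.Agent.Helper56.SKW.PBW Pool.Agent.Helper56.SKU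
  Pool.Agent.Helper56.SKR Pool.Agent.Helper58.KW Pool.Agent.Helper34.KW

variable {k : Type*} [Field k] {L : Type*} [AddCommGroup L] [Module k L] [FiniteDimensional k L]

/-- It is enough that `p`-th powers of elements with `p ^ 2`-th power zero are dependent. -/
theorem prk_le_of_dep (p : ℕ) [hp : Fact p.Prime] [CharP k p] (hk : ∀ c : k, ∃ d : k, d ^ p = c)
    (br : L →ₗ[k] L →ₗ[k] L) (hres : ∀ x, ∃ x', br x' = (br x : Module.End k L) ^ p)
    (θ : L →ₗ[k] k)
    (hcom : ∀ x ∈ stab br θ, ∀ y ∈ stab br θ, Commute (br x : Module.End k L) (br y))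
    (hdep : ∀ x ∈ stab br θ, ∀ y ∈ stab br θ, ((br x : Module.End k L) ^ p) ^ p = 0 →
      ((br y : Module.End k L) ^ p) ^ p = 0 → ∃ a b : k, (a ≠ 0 ∨ b ≠ 0) ∧
        a • (br x : Module.End k L) ^ p + b • (br y : Module.End k L) ^ p = 0) :
    prk br p θ ≤ prk br (p ^ 2) θ + 1 := by
  classical
  have hp0 := hp.out.ne_zero
  choose P hbrP using hres
  set a := stab br θ with ha
  have hPa : ∀ x ∈ a, P x ∈ a := by
    intro x hx w
    rw [hbrP]
    obtain ⟨n, hn⟩ : ∃ n, p = n + 1 := ⟨p - 1, by have := hp.out.pos; omega⟩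
    rw [hn, pow_succ', Module.End.mul_apply]
    exact hx _
  let R : L →ₗ[k] Module.End k L := br
  have hRP : ∀ x, R (P x) = (R x) ^ p := hbrP
  have hadd : ∀ x ∈ a, ∀ y ∈ a, (R x + R y) ^ p = R x ^ p + R y ^ p :=
    fun x hx y hy => end_add_pow p (hcom x hx y hy)
  let S1 : Submodule k (Module.End k L) :=
    { carrier := {z | ∃ x ∈ a, R x ^ p = z}
      zero_mem' := ⟨0, a.zero_mem, by rw [map_zero, zero_pow hp0]⟩
      add_mem' := by
        rintro _ _ ⟨x, hx, rfl⟩ ⟨y, hy, rfl⟩
        exact ⟨x + y, a.add_mem hx hy, by rw [map_add, hadd x hx y hy]⟩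
      smul_mem' := by
        rintro c _ ⟨x, hx, rfl⟩
        obtain ⟨d, hd⟩ := hk c
        exact ⟨d • x, a.smul_mem d hx, by rw [map_smul, _root_.smul_pow, hd]⟩ }
  have hS1a : ∀ z ∈ S1, ∃ x ∈ a, R x = z := by
    rintro _ ⟨x, hx, rfl⟩
    exact ⟨P x, hPa x hx, hRP x⟩
  have hFadd : ∀ y ∈ S1, ∀ z ∈ S1, (y + z) ^ p = y ^ p + z ^ p := by
    intro y hy z hz
    obtain ⟨x, hx, rfl⟩ := hS1a y hy
    obtain ⟨x', hx', rfl⟩ := hS1a z hz
    exact hadd x hx x' hx'
  let S2 : Submodule k (Module.End k L) := Submodule.span k {z | ∃ x ∈ a, (R x ^ p) ^ p = z}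
  let K : Submodule k (Module.End k L) :=
    { carrier := {z | z ∈ S1 ∧ z ^ p = 0}
      zero_mem' := ⟨S1.zero_mem, zero_pow hp0⟩
      add_mem' := fun {y z} hy hz => ⟨S1.add_mem hy.1 hz.1, by
        rw [hFadd y hy.1 z hz.1, hy.2, hz.2, add_zero]⟩
      smul_mem' := fun c y hy => ⟨S1.smul_mem c hy.1, by
        rw [_root_.smul_pow, hy.2, smul_zero]⟩ }
  have r1 : prk br p θ = finrank k S1 := by
    have h1 : Submodule.span k {T : Module.End k L | ∃ w ∈ stab br θ,
        T = (br w : Module.End k L) ^ p} = S1 := by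
      apply le_antisymm
      · rw [Submodule.span_le]
        rintro _ ⟨w, hw, rfl⟩
        exact ⟨w, hw, rfl⟩
      · rintro _ ⟨w, hw, rfl⟩
        exact Submodule.subset_span ⟨w, hw, rfl⟩
    unfold prk
    rw [h1]
  have r2 : prk br (p ^ 2) θ = finrank k S2 := by
    have h2 : {T : Module.End k L | ∃ w ∈ stab br θ,
        T = (br w : Module.End k L) ^ (p ^ 2)} = {z | ∃ x ∈ a, (R x ^ p) ^ p = z} := by
      ext T
      constructor
      · rintro ⟨w, hw, rfl⟩
        exact ⟨w, hw, by rw [← pow_mul, sq]⟩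
      · rintro ⟨w, hw, rfl⟩
        exact ⟨w, hw, by rw [← pow_mul, sq]⟩
    unfold prk
    rw [h2]
  have r7 : finrank k S1 ≤ finrank k K + finrank k S2 :=
    semi_sub p hk S1 K (fun z => z ^ p) hFadd
      (fun c z _ => _root_.smul_pow c z p) (fun z hz h => ⟨hz, h⟩) S2 (by
        rintro _ ⟨x, hx, rfl⟩
        exact Submodule.subset_span ⟨x, hx, rfl⟩)
  have r8 : finrank k K ≤ 1 := by
    by_cases hK : K = ⊥
    · rw [hK, finrank_bot]
      exact Nat.zero_le 1
    obtain ⟨w, hw, hw0⟩ := Submodule.exists_mem_ne_zero_of_ne_bot hK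
    have h1 : K ≤ Submodule.span k {w} := by
      intro v hv
      obtain ⟨⟨x, hx, rfl⟩, hPw⟩ := hw
      obtain ⟨⟨y, hy, rfl⟩, hPv⟩ := hv
      obtain ⟨α, β, hαβ, h3⟩ := hdep x hx y hy hPw hPv
      have hβ : β ≠ 0 := by
        intro h0
        rw [h0, zero_smul, add_zero] at h3
        rcases smul_eq_zero.1 h3 with h4 | h4
        · rcases hαβ with h5 | h5
          · exact h5 h4
          · exact h5 h0
        · exact hw0 h4
      refine Submodule.mem_span_singleton.2 ⟨-(β⁻¹ * α), ?_⟩
      have h4 : R y ^ p = β⁻¹ • (β • R y ^ p) := by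
        rw [smul_smul, inv_mul_cancel₀ hβ, one_smul]
      rw [h4, ← neg_eq_of_add_eq_zero_right h3, smul_neg, smul_smul, neg_smul]
    have h2 := Submodule.finrank_mono h1
    have h3 := finrank_span_singleton (K := k) hw0
    omega
  omega

/-- The pointwise bound for Lie algebras of small dimension over the centre. -/
theorem prk_le_dim [IsAlgClosed k] (p : ℕ) [hp : Fact p.Prime] [CharP k p] (hp2 : 2 < p)
    (br : L →ₗ[k] L →ₗ[k] L) (hanti : ∀ v w, br v w = - br w v)
    (hjac : ∀ x y z, br (br x y) z = br x (br y z) - br y (br x z))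
    (hres : ∀ x, ∃ x', br x' = (br x : Module.End k L) ^ p) (θ : L →ₗ[k] k)
    (hab : ∀ x ∈ stab br θ, ∀ y ∈ stab br θ, br x y = 0)
    (hdim : finrank k L ≤ finrank k (LinearMap.ker br) + 2 * p + 3) :
    prk br p θ ≤ prk br (p ^ 2) θ + 1 := by
  classical
  have hp0 := hp.out.ne_zero
  have hk : ∀ c : k, ∃ d : k, d ^ p = c := fun c => IsAlgClosed.exists_pow_nat_eq c hp.out.pos
  have hcom : ∀ x ∈ stab br θ, ∀ y ∈ stab br θ, Commute (br x : Module.End k L) (br y) := by
    intro x hx y hy
    apply LinearMap.ext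
    intro z
    have h1 := hjac x y z
    rw [hab x hx y hy, map_zero, LinearMap.zero_apply] at h1
    exact (sub_eq_zero.1 h1.symm)
  refine prk_le_of_dep p hk br hres θ hcom fun x hx y hy hxn hyn => ?_
  set a := stab br θ with ha
  have hmap : ∀ u ∈ a, ∀ v ∈ a, br u v = 0 := hab
  have hinv : ∀ u ∈ a, a ≤ a.comap (br u) := by
    intro u hu v hv
    rw [Submodule.mem_comap, hmap u hu v hv]
    exact a.zero_mem
  have hlin : ∀ α β : k, (br (α • x + β • y) : Module.End k L) ^ p =
      α ^ p • (br x : Module.End k L) ^ p + β ^ p • (br y : Module.End k L) ^ p := by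
    intro α β
    rw [map_add, map_smul, map_smul, end_add_pow p, _root_.smul_pow, _root_.smul_pow]
    exact ((hcom x hx y hy).smul_left α).smul_right β
  by_cases hW : finrank k (L ⧸ a) ≤ 2 * (p - 1)
  · -- the action on `L / a`
    let Q : ∀ u ∈ a, Module.End k (L ⧸ a) := fun u hu => a.mapQ a (br u) (hinv u hu)
    have hQ : ∀ u (hu : u ∈ a) (n : ℕ) (z : L),
        ((Q u hu) ^ n) (a.mkQ z) = a.mkQ (((br u : Module.End k L) ^ n) z) := by
      intro u hu n
      induction n with
      | zero => exact fun z => rfl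
      | succ n ih =>
        intro z
        rw [pow_succ', pow_succ', Module.End.mul_apply, Module.End.mul_apply, ih]
        rfl
    have hnil : ∀ u (hu : u ∈ a), ((br u : Module.End k L) ^ p) ^ p = 0 →
        IsNilpotent (Q u hu) := by
      intro u hu h0
      refine ⟨p * p, ?_⟩
      apply LinearMap.ext
      intro z
      obtain ⟨z, rfl⟩ := a.mkQ_surjective z
      rw [hQ u hu, pow_mul, h0, LinearMap.zero_apply, map_zero, LinearMap.zero_apply]
    have hQc : Commute (Q x hx) (Q y hy) := by
      apply LinearMap.ext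
      intro z
      obtain ⟨z, rfl⟩ := a.mkQ_surjective z
      have h1 := LinearMap.congr_fun (hcom x hx y hy).eq z
      show a.mkQ (br x (br y z)) = a.mkQ (br y (br x z))
      exact congrArg a.mkQ h1
    obtain ⟨α, β, hαβ, h1⟩ := pow_dep_q (q := p - 1) (by omega) hQc (hnil x hx hxn)
      (hnil y hy hyn) hW
    have hu : α • x + β • y ∈ a := a.add_mem (a.smul_mem α hx) (a.smul_mem β hy)
    have h2 : α • Q x hx + β • Q y hy = Q _ hu := by
      apply LinearMap.ext
      intro z
      obtain ⟨z, rfl⟩ := a.mkQ_surjective z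
      show α • a.mkQ (br x z) + β • a.mkQ (br y z) = a.mkQ (br (α • x + β • y) z)
      rw [map_add, map_smul, map_smul, LinearMap.add_apply, LinearMap.smul_apply,
        LinearMap.smul_apply, map_add, map_smul, map_smul]
    rw [h2] at h1
    have h3 : (br (α • x + β • y) : Module.End k L) ^ p = 0 := by
      apply LinearMap.ext
      intro z
      have h4 := hQ _ hu (p - 1) z
      rw [h1, LinearMap.zero_apply] at h4
      have h5 : ((br (α • x + β • y) : Module.End k L) ^ (p - 1)) z ∈ a :=
        (Submodule.Quotient.mk_eq_zero a).1 h4.symm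
      obtain ⟨n, hn⟩ : ∃ n, p = n + 1 := ⟨p - 1, by have := hp.out.pos; omega⟩
      have hn' : p - 1 = n := by omega
      rw [hn'] at h5
      rw [hn, pow_succ', Module.End.mul_apply, LinearMap.zero_apply]
      exact hmap _ hu _ h5
    refine ⟨α ^ p, β ^ p, ?_, by rw [← hlin, h3]⟩
    rcases hαβ with h | h
    · exact Or.inl (pow_ne_zero p h)
    · exact Or.inr (pow_ne_zero p h)
  · -- the stabiliser is small
    by_contra hne
    push Not at hne
    have hpar : Even (finrank k L - finrank k a) := by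
      have h1 := even_rank (two_ne k p hp2) (br.compr₂ θ) (fun v w => by
        show θ (br v w) = -θ (br w v)
        rw [hanti v w, map_neg])
      have h2 : LinearMap.ker (br.compr₂ θ) = a := by
        ext v
        rw [LinearMap.mem_ker]
        constructor
        · intro h w
          exact LinearMap.congr_fun h w
        · intro h
          apply LinearMap.ext
          intro w
          exact h w
      rw [h2] at h1
      exact h1
    have hq := a.finrank_quotient_add_finrank
    obtain ⟨c, hc⟩ := hpar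
    have ha3 : finrank k a ≤ finrank k (LinearMap.ker br) + 3 := by omega
    -- four independent elements over the centre
    obtain ⟨x', hx'⟩ := hres x
    obtain ⟨y', hy'⟩ := hres y
    have hpa : ∀ u ∈ a, ∀ u', br u' = (br u : Module.End k L) ^ p → u' ∈ a := by
      intro u hu u' hu' w
      rw [hu']
      obtain ⟨n, hn⟩ : ∃ n, p = n + 1 := ⟨p - 1, by have := hp.out.pos; omega⟩
      rw [hn, pow_succ', Module.End.mul_apply]
      exact hu _
    have hli : LinearIndependent k ![(br x : Module.End k L) ^ p, (br y : Module.End k L) ^ p] := by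
      rw [LinearIndependent.pair_iff]
      intro s t hst
      by_contra h0
      have h1 : s ≠ 0 ∨ t ≠ 0 := by
        by_contra h2
        push Not at h2
        exact h0 h2
      exact hne s t h1 hst
    let F : L → Module.End k L := fun w => (br w : Module.End k L) ^ p
    let K : Submodule k L :=
      { carrier := {z | z ∈ a ∧ F z = 0}
        zero_mem' := ⟨a.zero_mem, by
          show (br 0 : Module.End k L) ^ p = 0
          rw [map_zero]
          exact zero_pow hp0⟩
        add_mem' := fun {u v} hu hv => ⟨a.add_mem hu.1 hv.1, by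
          show (br (u + v) : Module.End k L) ^ p = 0
          have e1 : (br u : Module.End k L) ^ p = 0 := hu.2
          have e2 : (br v : Module.End k L) ^ p = 0 := hv.2
          rw [map_add, end_add_pow p (hcom u hu.1 v hv.1), e1, e2, add_zero]⟩
        smul_mem' := fun c u hu => ⟨a.smul_mem c hu.1, by
          show (br (c • u) : Module.End k L) ^ p = 0
          have e1 : (br u : Module.End k L) ^ p = 0 := hu.2
          rw [map_smul, _root_.smul_pow, e1, smul_zero]⟩ }
    have h1 := semi_sub' p hp0 a K F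
      (fun u hu v hv => by
        show (br (u + v) : Module.End k L) ^ p = _
        rw [map_add, end_add_pow p (hcom u hu v hv)])
      (fun c u _ => by
        show (br (c • u) : Module.End k L) ^ p = _
        rw [map_smul, _root_.smul_pow])
      (fun z hz => hz)
    have h2 : 2 ≤ finrank k (Submodule.span k (F '' a)) := by
      have e1 : finrank k (Submodule.span k (Set.range
          ![(br x : Module.End k L) ^ p, (br y : Module.End k L) ^ p])) = 2 := by
        rw [finrank_span_eq_card hli, Fintype.card_fin]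
      refine e1.ge.trans ?_
      refine Submodule.finrank_mono (Submodule.span_mono ?_)
      rintro _ ⟨i, rfl⟩
      fin_cases i
      · exact ⟨x, hx, rfl⟩
      · exact ⟨y, hy, rfl⟩
    have h3 : 2 ≤ finrank k (K.map br) := by
      have e1 : finrank k (Submodule.span k (Set.range
          ![(br x : Module.End k L) ^ p, (br y : Module.End k L) ^ p])) = 2 := by
        rw [finrank_span_eq_card hli, Fintype.card_fin]
      refine e1.ge.trans ?_
      refine Submodule.finrank_mono (Submodule.span_le.2 ?_)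
      rintro _ ⟨i, rfl⟩
      fin_cases i
      · refine ⟨x', ⟨hpa x hx x' hx', ?_⟩, hx'⟩
        show (br x' : Module.End k L) ^ p = 0
        rw [hx', hxn]
      · refine ⟨y', ⟨hpa y hy y' hy', ?_⟩, hy'⟩
        show (br y' : Module.End k L) ^ p = 0
        rw [hy', hyn]
    have h4 : finrank k (K.map br) + finrank k (LinearMap.ker br) = finrank k K := by
      have e1 := LinearMap.finrank_range_add_finrank_ker (br.domRestrict K)
      have e2 : LinearMap.range (br.domRestrict K) = K.map br := by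
        rw [LinearMap.range_domRestrict]
      have e3 : LinearMap.ker br ≤ K := by
        intro z hz
        have e4 : br z = 0 := hz
        refine ⟨fun w => ?_, ?_⟩
        · rw [e4, LinearMap.zero_apply, map_zero]
        · show (br z : Module.End k L) ^ p = 0
          rw [e4]
          exact zero_pow hp0
      have e5 : finrank k (LinearMap.ker (br.domRestrict K)) = finrank k (LinearMap.ker br) := by
        have e6 : LinearMap.ker (br.domRestrict K) = (LinearMap.ker br).comap K.subtype := by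
          ext z
          rfl
        rw [e6]
        exact (Submodule.comapSubtypeEquivOfLe e3).finrank_eq
      rw [e2, e5] at e1
      exact e1
    omega

end lie

section main

open Pool.Agent.Helper56.SKW Pool.Agent.Helper56.SKW.PBW Pool.Agent.Helper56.SKU
  Pool.Agent.Helper56.SKR Pool.Agent.Helper58.KW Pool.Agent.Helper34.KW

universe u v w

variable {k : Type u} [Field k] {L₀ : Type v} {L₁ : Type w} [AddCommGroup L₀] [Module k L₀]
  [AddCommGroup L₁] [Module k L₁] [FiniteDimensional k L₀]

/-- **Even part of dimension at most `dim z + 2p + 3`.** -/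
theorem kw_dim [IsAlgClosed k] [FiniteDimensional k L₁] (p : ℕ) [hp : Fact p.Prime]
    [CharP k p] (hp2 : 2 < p) (g : LieSuper k L₀ L₁)
    (hres : ∀ x, ∃ x', g.b00 x' = (g.b00 x) ^ p ∧ g.b01 x' = (g.b01 x) ^ p)
    (hdim : finrank k L₀ ≤ finrank k (LinearMap.ker g.b00) + 2 * p + 3) :
    ∃ D : ℕ, MaxSuper g D ∧ IsGreatest {d | ∃ θ : L₀ →ₗ[k] k,
        d = p ^ (bEven g θ / 2) * 2 ^ ((bOdd g θ + 1) / 2)} D := by
  have hinf : Infinite k := IsAlgClosed.instInfinite
  refine kw_pointwise p hp2 g hres fun θ hθ => ?_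
  rw [← prk_eq, ← prk_eq]
  refine prk_le_dim p hp2 g.b00 (anti00 g) g.jac000 (fun x => by
    obtain ⟨x', hx', -⟩ := hres x
    exact ⟨x', hx'⟩) θ ?_ hdim
  refine abel_of_reg g.b00 (anti00 g) θ fun θ' => ?_
  rw [stab_eq, stab_eq]
  have h1 := hθ θ'
  unfold bEven at h1
  have h2 := Submodule.finrank_le (LinearMap.ker (form₀ g θ))
  have h3 := Submodule.finrank_le (LinearMap.ker (form₀ g θ'))
  omega

end main

end Pool.Agent.Helper28.KW
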