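import Pool.Agent.Helper28.KW.Blocks
import Pool.Agent.Helper34.KW.Bound

set_option autoImplicit false

/-!
# The first super Kac–Weisfeiler conjecture: at most one long block
-/

namespace Pool.Agent.Helper28.KW

open Module Pool.Agent.Helper56.SKW Pool.Agent.Helper56.SKW.PBW Pool.Agent.Helper56.SKU
  Pool.Agent.Helper56.SKR Pool.Agent.Helper58.KW Pool.Agent.Helper34.KW

universe u v w

variable {k : Type u} [Field k] {L₀ : Type v} {L₁ : Type w} [AddCommGroup L₀] [Module k L₀]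
  [AddCommGroup L₁] [Module k L₁] [FiniteDimensional k L₀]

/-- The dimension of the span of the maps `(ad x) ^ n`, where `x` runs through the stabiliser
of `θ` in the even part. -/
noncomputable def pRank (g : LieSuper k L₀ L₁) (n : ℕ) (θ : L₀ →ₗ[k] k) : ℕ :=
  finrank k (Submodule.span k {T : Module.End k L₀ | ∃ x ∈ LinearMap.ker (form₀ g θ),
    T = (g.b00 x) ^ n})

theorem prk_eq (g : LieSuper k L₀ L₁) (n : ℕ) (θ : L₀ →ₗ[k] k) :
    prk g.b00 n θ = pRank g n θ := by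
  unfold prk pRank
  rw [stab_eq]

/-- From the relations to the conclusion. -/
theorem super_of_RR' [IsAlgClosed k] [FiniteDimensional k L₁] (p : ℕ) [hp : Fact p.Prime]
    [CharP k p] (hp2 : 2 < p) (g : LieSuper k L₀ L₁)
    (hres : ∀ x, ∃ x', g.b00 x' = (g.b00 x) ^ p ∧ g.b01 x' = (g.b01 x) ^ p)
    (θ₀ : L₀ →ₗ[k] k) (hreg : ∀ θ, bEven g θ ≤ bEven g θ₀)
    (hRR : RR (Pool.Agent.Helper56.SKW.PBW.tau (evAlg g (finBasis k L₀))) (finBasis k L₀)
      (Pool.Agent.Helper56.SKR.symb (evAlg g (finBasis k L₀))) g.b00) :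
    ∃ D c : ℕ, MaxSuper g D ∧ D = p ^ (bEven g θ₀ / 2) * 2 ^ c ∧
      IsGreatest {e | ∃ θ : L₀ →ₗ[k] k, e = (bOdd g θ + 1) / 2} c ∧
      IsGreatest {d | ∃ θ : L₀ →ₗ[k] k,
        d = p ^ (bEven g θ / 2) * 2 ^ ((bOdd g θ + 1) / 2)} D := by
  obtain ⟨D₀, D, c, -, hD, ⟨⟨θ, hθ⟩, hg⟩, hc, hDE, hgr⟩ := super_of_RR p hp2 g hres hRR
  refine ⟨D, c, hD, ?_, hc, hgr⟩
  have h1 : D₀ = p ^ (bEven g θ₀ / 2) := by
    refine le_antisymm ?_ (hg ⟨θ₀, rfl⟩)
    rw [hθ]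
    exact Nat.pow_le_pow_right hp.out.pos (Nat.div_le_div_right (hreg θ))
  rw [hDE, h1]

/-- **At most one long block of the `p`-map on generic stabilisers.** -/
theorem kw_blocks [IsAlgClosed k] [FiniteDimensional k L₁] (p : ℕ) [hp : Fact p.Prime]
    [CharP k p] (hp2 : 2 < p) (g : LieSuper k L₀ L₁)
    (hres : ∀ x, ∃ x', g.b00 x' = (g.b00 x) ^ p ∧ g.b01 x' = (g.b01 x) ^ p)
    (θ₀ : L₀ →ₗ[k] k) (hreg : ∀ θ, bEven g θ ≤ bEven g θ₀)
    (hF : ∀ θ, bEven g θ = bEven g θ₀ → pRank g p θ ≤ pRank g (p ^ 2) θ₀ + 1) :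
    ∃ D c : ℕ, MaxSuper g D ∧ D = p ^ (bEven g θ₀ / 2) * 2 ^ c ∧
      IsGreatest {e | ∃ θ : L₀ →ₗ[k] k, e = (bOdd g θ + 1) / 2} c ∧
      IsGreatest {d | ∃ θ : L₀ →ₗ[k] k,
        d = p ^ (bEven g θ / 2) * 2 ^ ((bOdd g θ + 1) / 2)} D := by
  classical
  have h2 := two_ne k p hp2
  have hinf : Infinite k := IsAlgClosed.instInfinite
  let G := evAlg g (finBasis k L₀)
  have hres' : ∀ x, ∃ x', g.b00 x' = (g.b00 x) ^ p := fun x => by
    obtain ⟨x', hx', -⟩ := hres x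
    exact ⟨x', hx'⟩
  choose pm hpm using hres'
  have hRD : RD p (Pool.Agent.Helper56.SKW.PBW.tau G) G.e (Pool.Agent.Helper56.SKR.symb G) G.br
      (fun x => pm (G.e x)) :=
    env_RD (g := G) h2 (fun _ => rfl) (fun x w => LinearMap.congr_fun (hpm _) w)
  have hPM : PM p (Pool.Agent.Helper56.SKW.PBW.tau G) :=
    env_PM (g := G) h2 (fun _ => rfl) (fun v => ⟨pm v, fun w => LinearMap.congr_fun (hpm _) w⟩)
  have hTM : TM (Pool.Agent.Helper56.SKW.PBW.tau G) := env_TM (g := G) (fun _ => rfl)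
  have hfin : ∀ θ : L₀ →ₗ[k] k, finrank k (stab g.b00 θ) = finrank k L₀ - bEven g θ := by
    intro θ
    rw [stab_eq]
    unfold bEven
    have := Submodule.finrank_le (LinearMap.ker (form₀ g θ))
    omega
  have hle : ∀ θ : L₀ →ₗ[k] k, bEven g θ ≤ finrank k L₀ := fun θ => Nat.sub_le _ _
  refine super_of_RR' p hp2 g hres θ₀ hreg ?_
  refine RR_blocks (fun c => IsAlgClosed.exists_pow_nat_eq c hp.out.pos) hRD hPM hTM θ₀ ?_ ?_
  · intro θ
    show finrank k (stab g.b00 θ₀) ≤ finrank k (stab g.b00 θ)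
    rw [hfin, hfin]
    have := hreg θ
    omega
  · intro θ hθ
    show prk g.b00 p θ ≤ prk g.b00 (p ^ 2) θ₀ + 1
    rw [prk_eq, prk_eq]
    refine hF θ ?_
    have h3 : finrank k (stab g.b00 θ) = finrank k (stab g.b00 θ₀) := hθ
    rw [hfin, hfin] at h3
    have := hle θ
    have := hle θ₀
    omega

end Pool.Agent.Helper28.KW
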