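import Pool.Agent.Helper28.KW.Linear
import Pool.Agent.Helper56.SKF.Cor

set_option autoImplicit false

/-!
# Small index; the case of toral stabilisers
-/

namespace Pool.Agent.Helper28.KW

open Module Pool.Agent.Helper56.SKW Pool.Agent.Helper56.SKW.PBW Pool.Agent.Helper56.SKU
  Pool.Agent.Helper56.SKR Pool.Agent.Helper58.KW Pool.Agent.Helper34.KW

universe u v w

variable {k : Type u} [Field k] {L₀ : Type v} {L₁ : Type w} [AddCommGroup L₀] [Module k L₀]
  [AddCommGroup L₁] [Module k L₁] [FiniteDimensional k L₀]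

/-- **Index at most three over the centre.** -/
theorem kw_index [IsAlgClosed k] [FiniteDimensional k L₁] (p : ℕ) [hp : Fact p.Prime]
    [CharP k p] (hp2 : 2 < p) (g : LieSuper k L₀ L₁)
    (hres : ∀ x, ∃ x', g.b00 x' = (g.b00 x) ^ p ∧ g.b01 x' = (g.b01 x) ^ p)
    (θ : L₀ →ₗ[k] k) (hθ : finrank k (LinearMap.ker (form₀ g θ)) ≤
      finrank k (LinearMap.ker g.b00) + 3) :
    ∃ D : ℕ, MaxSuper g D ∧ IsGreatest {d | ∃ θ : L₀ →ₗ[k] k,
        d = p ^ (bEven g θ / 2) * 2 ^ ((bOdd g θ + 1) / 2)} D := by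
  classical
  have h2 := two_ne k p hp2
  have hinf : Infinite k := IsAlgClosed.instInfinite
  let G := evAlg g (finBasis k L₀)
  have hres' : ∀ x, ∃ x', g.b00 x' = (g.b00 x) ^ p := fun x => by
    obtain ⟨x', hx', -⟩ := hres x
    exact ⟨x', hx'⟩
  choose pm hpm using hres'
  have hRD : RD p (Pool.Agent.Helper56.SKW.PBW.tau G) G.e (Pool.Agent.Helper56.SKR.symb G) G.br
      (fun x => pm (G.e x)) :=
    env_RD (g := G) h2 (fun _ => rfl) (fun x w => LinearMap.congr_fun (hpm _) w)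
  have hPM : PM p (Pool.Agent.Helper56.SKW.PBW.tau G) :=
    env_PM (g := G) h2 (fun _ => rfl) (fun v => ⟨pm v, fun w => LinearMap.congr_fun (hpm _) w⟩)
  have hTM : TM (Pool.Agent.Helper56.SKW.PBW.tau G) := env_TM (g := G) (fun _ => rfl)
  have hfin : ∀ θ : L₀ →ₗ[k] k, finrank k (stab g.b00 θ) + bEven g θ = finrank k L₀ := by
    intro θ
    rw [stab_eq]
    unfold bEven
    have := Submodule.finrank_le (LinearMap.ker (form₀ g θ))
    omega
  obtain ⟨N, ⟨θ₀, hθ₀⟩, hN⟩ := exists_greatest (fun N => ∃ θ : L₀ →ₗ[k] k, bEven g θ = N)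
    ⟨_, 0, rfl⟩ (finrank k L₀) (by
      rintro N ⟨θ, rfl⟩
      unfold bEven
      omega)
  have hreg : ∀ θ, bEven g θ ≤ bEven g θ₀ := fun θ => by
    rw [hθ₀]
    exact hN _ ⟨θ, rfl⟩
  have hreg' : ∀ θ, finrank k (stab g.b00 θ₀) ≤ finrank k (stab g.b00 θ) := by
    intro θ
    have e1 := hfin θ
    have e2 := hfin θ₀
    have e3 := hreg θ
    omega
  obtain ⟨D, c, hD, -, -, hgr⟩ := super_of_RR' p hp2 g hres θ₀ hreg
    (RR_all (fun c => IsAlgClosed.exists_pow_nat_eq c hp.out.pos) hRD hPM hTM θ₀ hreg' (by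
      have e1 := hreg' θ
      rw [stab_eq g θ] at e1
      show finrank k (stab g.b00 θ₀) ≤ finrank k (LinearMap.ker g.b00) + _ + 3
      omega))
  exact ⟨D, hD, hgr⟩

/-- A linear form with toral stabiliser is regular. -/
theorem toral_regular [IsAlgClosed k] (p : ℕ) [hp : Fact p.Prime]
    [CharP k p] (hp2 : 2 < p) (g : LieSuper k L₀ L₁)
    (hres : ∀ x, ∃ x', g.b00 x' = (g.b00 x) ^ p)
    (θ₀ : L₀ →ₗ[k] k)
    (hab : ∀ h ∈ LinearMap.ker (form₀ g θ₀), ∀ h' ∈ LinearMap.ker (form₀ g θ₀),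
      g.b00 h h' = 0)
    (htor : LinearMap.ker (form₀ g θ₀) ≤ Submodule.span k {h | h ∈ LinearMap.ker (form₀ g θ₀) ∧
      (g.b00 h) ^ p = g.b00 h}) (θ : L₀ →ₗ[k] k) : bEven g θ ≤ bEven g θ₀ := by
  have h2 := two_ne k p hp2
  let g' : LieSuper k L₀ PUnit.{1} :=
    { b00 := g.b00
      b01 := 0
      b11 := 0
      self00 := g.self00
      symm11 := fun _ _ => rfl
      jac000 := g.jac000
      jac001 := fun _ _ _ => rfl
      jac011 := fun x _ _ => by simp
      jac111 := fun _ => rfl }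
  obtain ⟨D, c, -, hD, hc, hgr⟩ := Pool.Agent.Helper56.SKF.toral p hp2 g' (fun x => by
    obtain ⟨x', hx'⟩ := hres x
    exact ⟨x', hx', Subsingleton.elim _ _⟩) θ₀ hab htor
  have h1 : ∀ θ : L₀ →ₗ[k] k, (bOdd g' θ + 1) / 2 = 0 := by
    intro θ
    unfold bOdd
    have h3 : finrank k PUnit.{1} = 0 := finrank_zero_of_subsingleton
    rw [h3]
    simp
  have hc0 : c = 0 := by
    obtain ⟨θ', hθ'⟩ := hc.1
    rw [hθ', h1]
  have h3 := hgr.2 ⟨θ, rfl⟩
  rw [hD, hc0, h1, pow_zero, mul_one, mul_one] at h3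
  have h4 : bEven g' θ / 2 ≤ bEven g' θ₀ / 2 := (Nat.pow_le_pow_iff_right hp.out.one_lt).1 h3
  have h5 := even_bEven h2 g θ
  have h6 := even_bEven h2 g θ₀
  have h7 : bEven g' θ = bEven g θ := rfl
  have h8 : bEven g' θ₀ = bEven g θ₀ := rfl
  obtain ⟨m, hm⟩ := h5
  obtain ⟨m', hm'⟩ := h6
  omega

/-- Toral stabilisers satisfy the condition of `kw_blocks`. -/
theorem toral_blocks [IsAlgClosed k] (p : ℕ) [hp : Fact p.Prime]
    [CharP k p] (hp2 : 2 < p) (g : LieSuper k L₀ L₁)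
    (hres : ∀ x, ∃ x', g.b00 x' = (g.b00 x) ^ p)
    (θ₀ : L₀ →ₗ[k] k)
    (hab : ∀ h ∈ LinearMap.ker (form₀ g θ₀), ∀ h' ∈ LinearMap.ker (form₀ g θ₀),
      g.b00 h h' = 0)
    (htor : LinearMap.ker (form₀ g θ₀) ≤ Submodule.span k {h | h ∈ LinearMap.ker (form₀ g θ₀) ∧
      (g.b00 h) ^ p = g.b00 h}) (θ : L₀ →ₗ[k] k) (hθ : bEven g θ = bEven g θ₀) :
    pRank g p θ ≤ pRank g (p ^ 2) θ₀ := by
  classical
  have hinf : Infinite k := IsAlgClosed.instInfinite
  have hp0 := hp.out.ne_zero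
  have hreg := toral_regular p hp2 g hres θ₀ hab htor
  have hfin : ∀ θ : L₀ →ₗ[k] k, finrank k (stab g.b00 θ) + bEven g θ = finrank k L₀ := by
    intro θ
    rw [stab_eq]
    unfold bEven
    have := Submodule.finrank_le (LinearMap.ker (form₀ g θ))
    omega
  have habθ : ∀ x ∈ stab g.b00 θ, ∀ y ∈ stab g.b00 θ, g.b00 x y = 0 := by
    refine abel_of_reg g.b00 (anti00 g) θ fun θ' => ?_
    have e1 := hfin θ
    have e2 := hfin θ'
    have e3 := hreg θ'
    omega
  have hcom : ∀ x ∈ stab g.b00 θ, ∀ y ∈ stab g.b00 θ,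
      Commute (g.b00 x : Module.End k L₀) (g.b00 y) := by
    intro x hx y hy
    apply LinearMap.ext
    intro z
    have h1 := g.jac000 x y z
    rw [habθ x hx y hy, map_zero, LinearMap.zero_apply] at h1
    exact (sub_eq_zero.1 h1.symm)
  have hker : ∀ θ : L₀ →ₗ[k] k, LinearMap.ker g.b00 ≤ stab g.b00 θ := by
    intro θ z hz w
    rw [LinearMap.mem_ker.1 hz, LinearMap.zero_apply, map_zero]
  have h1 := semi_sub' p hp0 (stab g.b00 θ) (LinearMap.ker g.b00)
    (fun x => (g.b00 x : Module.End k L₀) ^ p)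
    (fun y hy z hz => by rw [map_add, end_add_pow p (hcom y hy z hz)])
    (fun c z _ => by rw [map_smul]; exact _root_.smul_pow c (g.b00 z : Module.End k L₀) p)
    (fun z hz => ⟨hker θ hz, by rw [LinearMap.mem_ker.1 hz]; exact zero_pow hp0⟩)
  have h2 : pRank g p θ = finrank k (Submodule.span k
      ((fun x => (g.b00 x : Module.End k L₀) ^ p) '' (stab g.b00 θ))) := by
    have e0 : {T : Module.End k L₀ | ∃ x ∈ stab g.b00 θ, T = (g.b00 x) ^ p} =
        (fun x => (g.b00 x : Module.End k L₀) ^ p) '' (stab g.b00 θ) := by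
      ext T
      constructor
      · rintro ⟨x, hx, rfl⟩
        exact ⟨x, hx, rfl⟩
      · rintro ⟨x, hx, rfl⟩
        exact ⟨x, hx, rfl⟩
    unfold pRank
    rw [← stab_eq, e0]
  have h3 : (stab g.b00 θ₀).map g.b00 ≤ Submodule.span k {T : Module.End k L₀ |
      ∃ x ∈ LinearMap.ker (form₀ g θ₀), T = (g.b00 x) ^ (p ^ 2)} := by
    rw [stab_eq]
    refine (Submodule.map_mono htor).trans ?_
    rw [Submodule.map_span, Submodule.span_le]
    rintro _ ⟨h, ⟨hh, hhp⟩, rfl⟩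
    refine Submodule.subset_span ⟨h, hh, ?_⟩
    rw [sq, pow_mul, hhp, hhp]
  have h4 : finrank k ((stab g.b00 θ₀).map g.b00) ≤ pRank g (p ^ 2) θ₀ :=
    Submodule.finrank_mono h3
  have h5 : finrank k (stab g.b00 θ₀) ≤
      finrank k ((stab g.b00 θ₀).map g.b00) + finrank k (LinearMap.ker g.b00) := by
    have e1 := LinearMap.finrank_range_add_finrank_ker (g.b00.domRestrict (stab g.b00 θ₀))
    have e2 : LinearMap.range (g.b00.domRestrict (stab g.b00 θ₀)) =
        (stab g.b00 θ₀).map g.b00 := by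
      rw [LinearMap.range_domRestrict]
    have e3 : finrank k (LinearMap.ker (g.b00.domRestrict (stab g.b00 θ₀))) ≤
        finrank k (LinearMap.ker g.b00) := by
      have e4 : LinearMap.ker (g.b00.domRestrict (stab g.b00 θ₀)) =
          (LinearMap.ker g.b00).comap (stab g.b00 θ₀).subtype := by
        ext y
        rfl
      rw [e4]
      exact (Submodule.comapSubtypeEquivOfLe (hker θ₀)).finrank_eq.le
    rw [e2] at e1
    omega
  have e1 := hfin θ
  have e2 := hfin θ₀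
  omega

end Pool.Agent.Helper28.KW
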