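import Pool.Agent.Helper34.KW.Const

set_option autoImplicit false

/-!
# Derivations over the field of constants

Jacobson: a derivation which kills the constants of a restricted system of derivations is a
combination of the derivations of the system.
-/

namespace Pool.Agent.Helper28.KW

open Module Polynomial Pool.Agent.Helper34.KW

universe u

section basic

variable {F L : Type*} [Field F] [Field L] [Algebra L F]

/-- A derivation vanishing on `L` as an `L`-linear derivation. -/
def toL (D : Derivation ℤ F F) (hD : ∀ c : L, D (algebraMap L F c) = 0) : Derivation L F F where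
  toLinearMap := derLin D hD
  map_one_eq_zero' := by
    show D 1 = 0
    exact D.map_one_eq_zero
  leibniz' a b := by
    show D (a * b) = a • D b + b • D a
    exact D.leibniz a b

theorem toL_apply (D : Derivation ℤ F F) (hD : ∀ c : L, D (algebraMap L F c) = 0) (a : F) :
    toL D hD a = D a := rfl

/-- The degree of an element moved by a derivation is at least `p`. -/
theorem le_natDegree {p : ℕ} [hp : Fact p.Prime] [CharP F p]
    (D : Derivation ℤ F F) (hD : ∀ c : L, D (algebraMap L F c) = 0) {y : F} (hy : IsIntegral L y)
    (hne : D y ≠ 0) : p ≤ (minpoly L y).natDegree := by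
  have hL : CharP L p := RingHom.charP (algebraMap L F) (algebraMap L F).injective p
  have h1 : toL D hD (aeval y (minpoly L y)) = 0 := by
    rw [minpoly.aeval, map_zero]
  rw [Derivation.map_aeval, toL_apply, smul_eq_mul, mul_eq_zero, or_iff_left hne] at h1
  have h2 : derivative (minpoly L y) = 0 := by
    by_contra h3
    have h4 := minpoly.degree_le_of_ne_zero L y h3 h1
    have h5 := degree_derivative_lt (minpoly.ne_zero hy)
    exact absurd h4 (not_le.2 h5)
  have h6 := minpoly.natDegree_pos hy
  have h9 := expand_contract p h2 hp.out.ne_zero
  rw [← h9, natDegree_expand] at h6 ⊢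
  have h10 : 0 < (contract p (minpoly L y)).natDegree := Nat.pos_of_mul_pos_right h6
  exact Nat.le_mul_of_pos_left p h10

theorem const_adjoin (D : Derivation ℤ F F) (hD : ∀ c : L, D (algebraMap L F c) = 0) {y : F}
    (hy : D y = 0) (c : IntermediateField.adjoin L {y}) : D (c : F) = 0 := by
  let C : IntermediateField L F :=
    { carrier := {x | D x = 0}
      mul_mem' := fun {a b} ha hb => by
        show D (a * b) = 0
        have ha' : D a = 0 := ha
        have hb' : D b = 0 := hb
        rw [D.leibniz, ha', hb', smul_zero, smul_zero, add_zero]
      one_mem' := D.map_one_eq_zero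
      add_mem' := fun {a b} ha hb => by
        show D (a + b) = 0
        have ha' : D a = 0 := ha
        have hb' : D b = 0 := hb
        rw [map_add, ha', hb', add_zero]
      zero_mem' := map_zero D
      algebraMap_mem' := hD
      inv_mem' := fun a ha => by
        show D a⁻¹ = 0
        have ha' : D a = 0 := ha
        rw [Derivation.leibniz_inv, ha', smul_zero] }
  have h1 : IntermediateField.adjoin L {y} ≤ C := by
    rw [IntermediateField.adjoin_le_iff]
    rintro x rfl
    exact hy
  exact h1 c.2

end basic

/-- The number of independent derivations is bounded by the logarithm of the degree. -/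
theorem der_count {F : Type u} [Field F] {p : ℕ} [hp : Fact p.Prime] [CharP F p] (m : ℕ) :
    ∀ (L : Type u) [Field L] [Algebra L F] [FiniteDimensional L F], finrank L F = m →
      ∀ W : Submodule F (F → F), (∀ f ∈ W, ∃ D : Derivation ℤ F F, ⇑D = f ∧
        ∀ c : L, D (algebraMap L F c) = 0) → p ^ finrank F W ≤ m := by
  induction m using Nat.strong_induction_on with
  | _ m ih =>
    intro L _ _ _ hm W hW
    have hm0 : 0 < m := by
      rw [← hm]
      exact finrank_pos
    by_cases hfin : FiniteDimensional F W
    · by_cases hz : ∀ f ∈ W, ∀ y, f y = 0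
      · have h1 : W = ⊥ := by
          rw [eq_bot_iff]
          intro f hf
          rw [Submodule.mem_bot]
          funext y
          exact hz f hf y
        rw [h1, finrank_bot, pow_zero]
        exact hm0
      · push Not at hz
        obtain ⟨f, hf, y, hy⟩ := hz
        obtain ⟨D, hD, hDL⟩ := hW f hf
        have hDy : D y ≠ 0 := by
          rw [hD]
          exact hy
        have hint : IsIntegral L y := Algebra.IsIntegral.isIntegral y
        have hdeg := le_natDegree (p := p) D hDL hint hDy
        set L' := IntermediateField.adjoin L {y} with hL'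
        have h2 : finrank L L' = (minpoly L y).natDegree :=
          IntermediateField.adjoin.finrank hint
        have h3 : finrank L L' * finrank L' F = finrank L F := Module.finrank_mul_finrank L L' F
        have hp1 := hp.out.one_lt
        have h4 : 0 < finrank L' F := finrank_pos
        have h5 : finrank L' F < m := by
          rw [← hm, ← h3, h2]
          nlinarith
        let φ : W →ₗ[F] F :=
          { toFun := fun f => (f : F → F) y
            map_add' := fun a b => rfl
            map_smul' := fun a b => rfl }
        have h6 := LinearMap.finrank_range_add_finrank_ker φ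
        have h7 : finrank F (LinearMap.range φ) ≤ 1 := by
          refine (Submodule.finrank_le _).trans ?_
          rw [finrank_self]
        set W' : Submodule F (F → F) := (LinearMap.ker φ).map W.subtype with hW'
        have h8 : finrank F W' = finrank F (LinearMap.ker φ) :=
          Submodule.finrank_map_subtype_eq W (LinearMap.ker φ)
        have h9 := ih (finrank L' F) h5 L' rfl W' (by
          rintro _ ⟨f, hf, rfl⟩
          obtain ⟨E, hE, hEL⟩ := hW f f.2
          refine ⟨E, hE, ?_⟩
          intro c
          refine const_adjoin E hEL ?_ c
          have h10 : (f : F → F) y = 0 := hf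
          rw [hE]
          exact h10)
        rw [h8] at h9
        calc p ^ finrank F W ≤ p ^ (finrank F (LinearMap.ker φ) + 1) :=
              Nat.pow_le_pow_right hp.out.pos (by omega)
          _ = p * p ^ finrank F (LinearMap.ker φ) := by rw [pow_succ]; ring
          _ ≤ (minpoly L y).natDegree * finrank L' F := Nat.mul_le_mul hdeg h9
          _ = m := by rw [← h2, h3, hm]
    · rw [Module.finrank_of_not_finite hfin, pow_zero]
      exact hm0

/-- The constants of a family of derivations. -/
def consts {F K : Type*} [Field F] [Field K] [Algebra K F] {ι : Type*}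
    (X : ι → Derivation ℤ F F) (hK : ∀ i (c : K), X i (algebraMap K F c) = 0) :
    IntermediateField K F where
  carrier := {x | ∀ i, X i x = 0}
  mul_mem' := fun {a b} ha hb i => by
    rw [(X i).leibniz, ha i, hb i, smul_zero, smul_zero, add_zero]
  one_mem' := fun i => (X i).map_one_eq_zero
  add_mem' := fun {a b} ha hb i => by
    rw [map_add, ha i, hb i, add_zero]
  zero_mem' := fun i => map_zero (X i)
  algebraMap_mem' := fun c i => hK i c
  inv_mem' := fun a ha i => by
    rw [Derivation.leibniz_inv, ha i, smul_zero]

/-- **Jacobson.** A derivation which kills the constants is a combination of the given ones. -/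
theorem jac {F : Type u} [Field F] {p : ℕ} [hp : Fact p.Prime] [CharP F p]
    {K : Type*} [Field K] [Algebra K F] [FiniteDimensional K F]
    {ι : Type*} [Fintype ι] (X : ι → Derivation ℤ F F)
    (hK : ∀ i (c : K), X i (algebraMap K F c) = 0)
    (hc : ∀ i j, ∃ c : ι → F, ∀ a, X i (X j a) - X j (X i a) = ∑ k, c k * X k a)
    (hd : ∀ i, ∃ d : ι → F, ∀ a, (X i)^[p] a = ∑ k, d k * X k a)
    (E : Derivation ℤ F F) (hE : ∀ c, (∀ i, X i c = 0) → E c = 0) :
    ∃ g : ι → F, ∀ a, E a = ∑ k, g k * X k a := by
  classical
  set C := consts X hK with hC
  set S : Submodule F (F → F) := Submodule.span F (Set.range fun i => (⇑(X i) : F → F)) with hS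
  have hfinS : FiniteDimensional F S := FiniteDimensional.span_of_finite F (Set.finite_range _)
  by_contra hcon
  have hnot : (⇑E : F → F) ∉ S := by
    intro hmem
    apply hcon
    obtain ⟨g, hg⟩ := (Submodule.mem_span_range_iff_exists_fun F).1 hmem
    refine ⟨g, fun a => ?_⟩
    have := congrFun hg a
    rw [← this]
    simp [Finset.sum_apply]
  set W : Submodule F (F → F) := S ⊔ Submodule.span F {(⇑E : F → F)} with hW
  have h1 : finrank F W = finrank F S + 1 := by
    have hne : (⇑E : F → F) ≠ 0 := by
      intro h0
      apply hnot
      rw [h0]
      exact zero_mem _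
    have h2 := Submodule.finrank_sup_add_finrank_inf_eq S (Submodule.span F {(⇑E : F → F)})
    have h3 : S ⊓ Submodule.span F {(⇑E : F → F)} = ⊥ := by
      rw [eq_bot_iff]
      rintro x ⟨hx1, hx2⟩
      obtain ⟨a, rfl⟩ := Submodule.mem_span_singleton.1 hx2
      by_cases ha : a = 0
      · rw [ha, zero_smul]
        exact zero_mem _
      · exfalso
        apply hnot
        have h4 := S.smul_mem a⁻¹ hx1
        rwa [smul_smul, inv_mul_cancel₀ ha, one_smul] at h4
    rw [h3, finrank_bot, add_zero, finrank_span_singleton hne] at h2
    exact h2
  have hder : ∀ f ∈ W, ∃ D : Derivation ℤ F F, ⇑D = f ∧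
      ∀ c : C, D (algebraMap C F c) = 0 := by
    let P : Submodule F (F → F) :=
      { carrier := {f | ∃ D : Derivation ℤ F F, ⇑D = f ∧ ∀ c : C, D (algebraMap C F c) = 0}
        add_mem' := by
          rintro _ _ ⟨D, rfl, hD⟩ ⟨D', rfl, hD'⟩
          exact ⟨D + D', rfl, fun c => by rw [Derivation.add_apply, hD, hD', add_zero]⟩
        zero_mem' := ⟨0, rfl, fun c => rfl⟩
        smul_mem' := by
          rintro a _ ⟨D, rfl, hD⟩
          exact ⟨a • D, rfl, fun c => by rw [Derivation.smul_apply, hD, smul_zero]⟩ }
    have hle : W ≤ P := by
      refine sup_le ?_ ?_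
      · rw [hS, Submodule.span_le]
        rintro _ ⟨i, rfl⟩
        exact ⟨X i, rfl, fun c => c.2 i⟩
      · rw [Submodule.span_le]
        rintro _ rfl
        exact ⟨E, rfl, fun c => hE c c.2⟩
    intro f hf
    exact hle hf
  have hCF : FiniteDimensional C F := IntermediateField.finiteDimensional_right C
  have h5 := der_count (p := p) (finrank C F) C rfl W hder
  have h6 := const_dim (p := p) X hK hc hd
  have h7 : finrank K (⨅ i, LinearMap.ker (derLin (X i) (hK i)) : Submodule K F) = finrank K C := by
    have h8 : (⨅ i, LinearMap.ker (derLin (X i) (hK i)) : Submodule K F) =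
        Subalgebra.toSubmodule C.toSubalgebra := by
      ext x
      simp only [Submodule.mem_iInf, LinearMap.mem_ker]
      rfl
    rw [h8]
    rfl
  have h9 : finrank K C * finrank C F = finrank K F := Module.finrank_mul_finrank K C F
  have h10 : 0 < finrank K C := by
    have : FiniteDimensional K C := IntermediateField.finiteDimensional_left C
    exact finrank_pos
  rw [h7, ← h9, mul_comm] at h6
  have h11 : finrank C F ≤ p ^ finrank F S := Nat.le_of_mul_le_mul_right h6 h10
  rw [h1] at h5
  have h12 := h5.trans h11
  have h13 : p ^ finrank F S < p ^ (finrank F S + 1) :=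
    Nat.pow_lt_pow_right hp.out.one_lt (Nat.lt_succ_self _)
  omega

end Pool.Agent.Helper28.KW
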