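import Pool.Agent.Helper28.KW.Near
import Pool.Agent.Helper28.KW.Jac
import Pool.Agent.Helper34.KW.Fld

set_option autoImplicit false

/-!
# The inputs `HI` and `HJ`
-/

namespace Pool.Agent.Helper28.KW

open MvPolynomial Module Finset Pool.Agent.Helper58.KW Pool.Agent.Helper34.KW

section inp

variable {k : Type*} [Field k] {V : Type*} [AddCommGroup V] [Module k V] {A : Type*} [Ring A]
  [Algebra k A] {X : Type*} {p : ℕ} {ι : V →ₗ[k] A} {e : Basis X k V}
  {symb : MvPolynomial X k →ₗ[k] A} {br : V →ₗ[k] V →ₗ[k] V} {pm : X → V} [Fintype X]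

/-- The symbols of commutators with one element are inner if they respect the relations. -/
theorem exists_inner_of {F : Type*} [Field F] [Algebra (MvPolynomial X k) F]
    [IsFractionRing (MvPolynomial X k) F] [Nontrivial A] [hp : Fact p.Prime] [CharP k p]
    (h : RD p ι e symb br pm) {u : A} {m : ℕ} {q : X → MvPolynomial X k}
    (hd : Dat ι e symb u m q) (hrel : ∀ c, Rel e br c → ∑ x, c x * q x = 0) :
    ∃ f : F, ∀ x, HF F e br (e x) f = algebraMap _ F (q x) := by
  have hchS : CharP (MvPolynomial X k) p := inferInstance
  have hch : CharP F p :=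
    charP_of_injective_algebraMap (IsFractionRing.injective (MvPolynomial X k) F) p
  obtain ⟨hq, hu⟩ := hd
  refine inner (p := p) (fun x => HF F e br (e x)) (fun x => algebraMap _ F (q x)) ?_ ?_ ?_
  · intro x y
    refine ⟨fun z => algebraMap _ F (C (e.repr (br (e x) (e y)) z)), fun a => h.HF_comm x y a, ?_⟩
    rw [HF_alg, HF_alg, ← map_sub, h.coc hq hu, map_sum]
    refine sum_congr rfl fun z _ => ?_
    rw [smul_eq_C_mul, map_mul]
  · intro x
    refine ⟨fun z => algebraMap _ F (C (e.repr (pm x) z)), fun a => h.HF_pow x a, ?_⟩
    have h1 : ∀ (n : ℕ) (a : MvPolynomial X k), (HF F e br (e x))^[n] (algebraMap _ F a) =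
        algebraMap _ F ((Ham e br (e x))^[n] a) := by
      intro n
      induction n with
      | zero => intro a; rfl
      | succ n ih =>
        intro a
        rw [Function.iterate_succ_apply', ih, HF_alg, Function.iterate_succ_apply']
    rw [h1, h.res hq hu, map_sum]
    refine sum_congr rfl fun z _ => ?_
    rw [smul_eq_C_mul, map_mul]
  · intro w hw
    obtain ⟨b, hb⟩ := IsLocalization.exist_integer_multiples_of_finite
      (nonZeroDivisors (MvPolynomial X k)) w
    choose c hc using hb
    have hb0 : algebraMap (MvPolynomial X k) F b ≠ 0 := alg_ne (nonZeroDivisors.coe_ne_zero b)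
    have hcw : ∀ x, algebraMap (MvPolynomial X k) F (c x) =
        algebraMap (MvPolynomial X k) F b * w x := by
      intro x
      rw [hc x, Algebra.smul_def]
    have h1 := hrel c (by
      intro y
      apply IsFractionRing.injective (MvPolynomial X k) F
      rw [map_sum, map_zero]
      have h2 := hw (algebraMap (MvPolynomial X k) F (MvPolynomial.X y))
      have h3 : ∀ x, algebraMap (MvPolynomial X k) F (c x * linf e (br (e x) (e y))) =
          algebraMap (MvPolynomial X k) F b *
            (w x * HF F e br (e x) (algebraMap (MvPolynomial X k) F (MvPolynomial.X y))) := by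
        intro x
        rw [map_mul, hcw, HF_alg, dS_X]
        ring
      rw [sum_congr rfl fun x _ => h3 x, ← mul_sum, h2, mul_zero])
    have h4 := congrArg (algebraMap (MvPolynomial X k) F) h1
    rw [map_sum, map_zero] at h4
    have h5 : ∀ x, algebraMap (MvPolynomial X k) F (c x * q x) =
        algebraMap (MvPolynomial X k) F b * (w x * algebraMap _ F (q x)) := by
      intro x
      rw [map_mul, hcw]
      ring
    rw [sum_congr rfl fun x _ => h5 x, ← mul_sum] at h4
    exact (mul_eq_zero.1 h4).resolve_left hb0

theorem ham_comp (v : V) (D : ℕ) (a : MvPolynomial X k) :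
    homogeneousComponent D (Ham e br v a) = Ham e br v (homogeneousComponent D a) :=
  hc_der (fun x => linf_hom e _) D a

/-- The input `HI`. -/
theorem HI_of [Nontrivial A] [hp : Fact p.Prime] [CharP k p] (h : RD p ι e symb br pm) :
    HI p ι e symb br := by
  intro u m q hd hrel
  obtain ⟨f, hf⟩ := exists_inner_of (F := FractionRing (MvPolynomial X k)) h hd hrel
  obtain ⟨a, c, hc, hac⟩ := exists_pfrac (k := k) (X := X) (p := p) f
  -- `expand c * q x = Ham a`
  have h1 : ∀ x, expand p c * q x = Ham e br (e x) a := by
    intro x
    apply IsFractionRing.injective (MvPolynomial X k) (FractionRing (MvPolynomial X k))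
    rw [← HF_alg, ← hac, HF, extK_mul, ← HF, hf, map_mul, mul_comm]
  -- clear denominators by a `p`-th power
  set g : MvPolynomial X k := expand p c with hg
  have hg0 : g ≠ 0 := (expand_ne_zero hp.out.pos).2 hc
  have hgh : ∀ x, Ham e br (e x) g = 0 := fun x => der_expand _ _
  have h2 : ∀ x, g ^ p * q x = Ham e br (e x) (g ^ (p - 1) * a) := by
    intro x
    have h3 : Ham e br (e x) (g ^ (p - 1)) = 0 := by
      rw [Derivation.leibniz_pow, hgh, smul_zero, smul_zero]
    rw [Derivation.leibniz, h3, smul_zero, add_zero, smul_eq_mul, ← h1, ← mul_assoc, ← pow_succ]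
    congr 2
    have := hp.out.pos
    omega
  -- top components
  obtain ⟨t, ht⟩ : ∃ t, homogeneousComponent t g ≠ 0 := by
    by_contra hall
    push Not at hall
    apply hg0
    rw [← sum_homogeneousComponent g]
    exact sum_eq_zero fun t _ => hall t
  refine ⟨t, homogeneousComponent t g, homogeneousComponent (p * t + m) (g ^ (p - 1) * a), ht,
    homogeneousComponent_isHomogeneous _ _, homogeneousComponent_isHomogeneous _ _, fun x => ?_⟩
  rw [← ham_comp, ← h2]
  obtain ⟨c', hc'⟩ := exists_expand_pow (p := p) g
  have h4 : (homogeneousComponent t g) ^ p = homogeneousComponent (p * t) (g ^ p) := by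
    have h5 : g ^ p = ∑ i ∈ range (g.totalDegree + 1), (homogeneousComponent i g) ^ p := by
      conv_lhs => rw [← sum_homogeneousComponent g]
      exact sum_pow_char p _ _
    rw [h5, map_sum]
    have h6 : ∀ i ∈ range (g.totalDegree + 1),
        homogeneousComponent (p * t) ((homogeneousComponent i g) ^ p) =
        if i = t then (homogeneousComponent i g) ^ p else 0 := by
      intro i _
      have h7 : ((homogeneousComponent i g) ^ p).IsHomogeneous (p * i) := by
        have := (homogeneousComponent_isHomogeneous i g).pow p
        rwa [mul_comm i p] at this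
      rw [homogeneousComponent_of_mem h7]
      by_cases hit : i = t
      · rw [hit, if_pos rfl, if_pos rfl]
      · rw [if_neg hit, if_neg]
        intro h8
        exact hit (Nat.eq_of_mul_eq_mul_left hp.out.pos h8).symm
    rw [sum_congr rfl h6, sum_ite_eq', if_pos]
    rw [mem_range]
    by_contra h7
    apply ht
    apply homogeneousComponent_eq_zero
    omega
  rw [h4]
  have h5 : ∀ r : MvPolynomial X k, homogeneousComponent (p * t + m) (r * q x) =
      homogeneousComponent (p * t) r * q x := by
    intro r
    conv_lhs => rw [← sum_homogeneousComponent r]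
    rw [sum_mul, map_sum]
    have h6 : ∀ i ∈ range (r.totalDegree + 1),
        homogeneousComponent (p * t + m) (homogeneousComponent i r * q x) =
        if i = p * t then homogeneousComponent i r * q x else 0 := by
      intro i _
      rw [homogeneousComponent_of_mem ((homogeneousComponent_isHomogeneous i r).mul (hd.1 x))]
      by_cases hit : i = p * t
      · rw [hit, if_pos rfl, if_pos rfl]
      · rw [if_neg hit, if_neg]
        omega
    rw [sum_congr rfl h6, sum_ite_eq']
    split_ifs with h7
    · rfl
    · have h8 : homogeneousComponent (p * t) r = 0 := by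
        apply homogeneousComponent_eq_zero
        rw [mem_range] at h7
        omega
      rw [h8, zero_mul]
  rw [h5]

/-- The input `HJ`. -/
theorem HJ_of {K : Type*} {F : Type*} [Field F] [Algebra (MvPolynomial X k) F]
    [IsFractionRing (MvPolynomial X k) F] [Field K] [Algebra K F]
    [FiniteDimensional K F] (hK : ∀ i (c : K), HF F e br (e i) (algebraMap K F c) = 0)
    [Nontrivial A] [hp : Fact p.Prime] [CharP k p] (h : RD p ι e symb br pm) :
    HJ e br := by
  intro q hq c hc
  have hchS : CharP (MvPolynomial X k) p := inferInstance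
  have hch : CharP F p :=
    charP_of_injective_algebraMap (IsFractionRing.injective (MvPolynomial X k) F) p
  have hE : ∀ f : F, (∀ i, HF F e br (e i) f = 0) → extK F (mkDerivation k q) f = 0 := by
    intro f hf
    obtain ⟨a, b, hb, hab⟩ := exists_pfrac (k := k) (X := X) (p := p) f
    have h1 : ∀ x, Ham e br (e x) a = 0 := by
      intro x
      apply IsFractionRing.injective (MvPolynomial X k) F
      rw [← HF_alg, ← hab, HF, extK_mul, ← HF, hf, zero_mul, map_zero]
    have h2 : mkDerivation k q a = 0 := by
      rw [← sum_homogeneousComponent a, map_sum]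
      refine sum_eq_zero fun t _ => ?_
      refine hq _ t (homogeneousComponent_isHomogeneous t a) fun x => ?_
      rw [← ham_comp, h1, map_zero]
    have hb0 : algebraMap (MvPolynomial X k) F (expand p b) ≠ 0 :=
      alg_ne ((expand_ne_zero hp.out.pos).2 hb)
    apply mul_right_cancel₀ hb0
    rw [← extK_mul, hab, extK_alg, h2, map_zero, zero_mul]
  obtain ⟨g, hg⟩ := jac (p := p) (fun x => HF F e br (e x)) hK
    (fun x y => ⟨fun z => algebraMap _ F (C (e.repr (br (e x) (e y)) z)),
      fun a => h.HF_comm x y a⟩)
    (fun x => ⟨fun z => algebraMap _ F (C (e.repr (pm x) z)), fun a => h.HF_pow x a⟩)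
    (extK F (mkDerivation k q)) hE
  apply IsFractionRing.injective (MvPolynomial X k) F
  rw [map_zero, map_sum]
  have h1 : ∀ x, algebraMap (MvPolynomial X k) F (c x * q x) =
      ∑ i, g i * (algebraMap (MvPolynomial X k) F (c x * linf e (br (e i) (e x)))) := by
    intro x
    have h2 := hg (algebraMap (MvPolynomial X k) F (MvPolynomial.X x))
    rw [extK_alg, mkDerivation_X] at h2
    rw [map_mul, h2, mul_sum]
    refine sum_congr rfl fun i _ => ?_
    rw [HF_alg, dS_X, map_mul]
    ring
  rw [sum_congr rfl fun x _ => h1 x, sum_comm]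
  refine sum_eq_zero fun i _ => ?_
  rw [← mul_sum, ← map_sum]
  have h2 : ∑ x, c x * linf e (br (e i) (e x)) = 0 := by
    have h3 : ∑ x, c x * linf e (br (e i) (e x)) = - ∑ x, c x * linf e (br (e x) (e i)) := by
      rw [← sum_neg_distrib]
      refine sum_congr rfl fun x _ => ?_
      rw [br_anti h (e i) (e x), map_neg, mul_neg]
    rw [h3, hc i, neg_zero]
  rw [h2, map_zero, mul_zero]

end inp

end Pool.Agent.Helper28.KW
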