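import Pool.Agent.Helper34.KW.Set
import Pool.Agent.Helper28.KW.DerSymb

set_option autoImplicit false

/-!
# The symbols of commutators when one relation is not controlled

`RR_of_codim`: if the relations which are respected by all symbols of commutators have
codimension at most one in the space of all relations, then all relations are respected.
-/

namespace Pool.Agent.Helper28.KW

open MvPolynomial Module Finset Pool.Agent.Helper58.KW Pool.Agent.Helper34.KW

variable {k : Type*} [Field k] {V : Type*} [AddCommGroup V] [Module k V] {A : Type*} [Ring A]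
  [Algebra k A] {X : Type*}

/-- Relations between the Hamiltonian vector fields. -/
def Rel (e : Basis X k V) (br : V →ₗ[k] V →ₗ[k] V) [Fintype X] (c : X → MvPolynomial X k) : Prop :=
  ∀ y, ∑ x, c x * linf e (br (e x) (e y)) = 0

/-- The symbols of the commutators of `u` with the generators. -/
def Dat (ι : V →ₗ[k] A) (e : Basis X k V) (symb : MvPolynomial X k →ₗ[k] A) (u : A) (m : ℕ)
    (q : X → MvPolynomial X k) : Prop :=
  (∀ x, (q x).IsHomogeneous m) ∧ ∀ x, adA ι (e x) u - symb (q x) ∈ G ι m

/-- Input from the Inner Lemma. -/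
def HI (p : ℕ) (ι : V →ₗ[k] A) (e : Basis X k V) (symb : MvPolynomial X k →ₗ[k] A)
    (br : V →ₗ[k] V →ₗ[k] V) [Fintype X] : Prop :=
  ∀ (u : A) (m : ℕ) (q : X → MvPolynomial X k), Dat ι e symb u m q →
    (∀ c, Rel e br c → ∑ x, c x * q x = 0) →
    ∃ (t : ℕ) (b h : MvPolynomial X k), b ≠ 0 ∧ b.IsHomogeneous t ∧ h.IsHomogeneous (p * t + m) ∧
      ∀ x, b ^ p * q x = Ham e br (e x) h

/-- Input from the Jacobson lemma. -/
def HJ (e : Basis X k V) (br : V →ₗ[k] V →ₗ[k] V) [Fintype X] : Prop :=
  ∀ q : X → MvPolynomial X k, (∀ (r : MvPolynomial X k) (d : ℕ), r.IsHomogeneous d →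
    (∀ x, Ham e br (e x) r = 0) → mkDerivation k q r = 0) →
    ∀ c, Rel e br c → ∑ x, c x * q x = 0

/-- The codimension condition. -/
def HC (ι : V →ₗ[k] A) (e : Basis X k V) (symb : MvPolynomial X k →ₗ[k] A)
    (br : V →ₗ[k] V →ₗ[k] V) [Fintype X] : Prop :=
  ∀ c c', Rel e br c → Rel e br c' → ∃ α β : MvPolynomial X k, (α ≠ 0 ∨ β ≠ 0) ∧
    ∀ u m q, Dat ι e symb u m q → α * ∑ x, c x * q x + β * ∑ x, c' x * q x = 0

section aux

variable {p : ℕ} {ι : V →ₗ[k] A} {e : Basis X k V} {symb : MvPolynomial X k →ₗ[k] A}
  {br : V →ₗ[k] V →ₗ[k] V} {pm : X → V}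

theorem der_pow_p [CharP k p] (D : Derivation k (MvPolynomial X k) (MvPolynomial X k))
    (g : MvPolynomial X k) : D (g ^ p) = 0 := by
  rw [Derivation.leibniz_pow]
  have : (p : MvPolynomial X k) = 0 := CharP.cast_eq_zero _ _
  rw [← Nat.cast_smul_eq_nsmul (MvPolynomial X k), this, zero_smul]

theorem der_mul_pow [CharP k p] (D : Derivation k (MvPolynomial X k) (MvPolynomial X k))
    (g r : MvPolynomial X k) : D (g ^ p * r) = g ^ p * D r := by
  rw [Derivation.leibniz, der_pow_p, smul_zero, add_zero, smul_eq_mul]

theorem prod_symb (h : PBW ι e symb) {d d' : ℕ} {a b : A} {q r : MvPolynomial X k}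
    (hq : q.IsHomogeneous d) (hr : r.IsHomogeneous d') (ha : a - symb q ∈ G ι d)
    (hb : b - symb r ∈ G ι d') : a * b - symb (q * r) ∈ G ι (d + d') := by
  have hb' : b ∈ G ι (d' + 1) := by
    have := add_mem (G_mono ι (Nat.le_succ d') hb) (h.symb_hom hr)
    rwa [sub_add_cancel] at this
  have h1 := G_mul' ι ha hb'
  have h2 := G_mul ι (h.symb_hom hq) hb
  have h3 := h.symb_mul hq hr
  have h4 := add_mem (add_mem h1 h2) h3
  convert h4 using 1
  noncomm_ring

theorem pow_symb (h : PBW ι e symb) (x : X) (n : ℕ) :
    ι (e x) ^ n - symb (MvPolynomial.X x ^ n) ∈ G ι n := by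
  induction n with
  | zero =>
    rw [pow_zero, pow_zero, h.symb_one, sub_self]
    exact zero_mem _
  | succ n ih =>
    rw [pow_succ, pow_succ]
    have h1 : (MvPolynomial.X x ^ n : MvPolynomial X k).IsHomogeneous n := by
      have := (isHomogeneous_X k x).pow n
      rwa [one_mul] at this
    refine prod_symb h h1 (isHomogeneous_X k x) ih ?_
    rw [h.symb_X, sub_self]
    exact zero_mem _

/-- Central elements with a given `p`-th power as symbol. -/
theorem exists_xi [hp : Fact p.Prime] [CharP k p] (h : RD p ι e symb br pm) :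
    ∀ (t : ℕ) (g : MvPolynomial X k), g.IsHomogeneous t →
      ∃ z : A, (∀ a, z * a = a * z) ∧ z - symb (g ^ p) ∈ G ι (p * t) := by
  intro t
  induction t with
  | zero =>
    intro g hg
    have h1 := const_of_hom hg
    refine ⟨(coeff 0 g) ^ p • (1 : A), fun a => by simp, ?_⟩
    rw [h1, smul_pow, one_pow, map_smul, h.pbw.symb_one]
    have h2 : coeff 0 ((coeff 0 g) • (1 : MvPolynomial X k)) = coeff 0 g := by
      rw [coeff_smul, coeff_zero_one, smul_eq_mul, mul_one]
    rw [h2, sub_self]
    exact zero_mem _
  | succ t ih =>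
    intro g hg
    refine hom_induction (P := fun g => ∃ z : A, (∀ a, z * a = a * z) ∧
      z - symb (g ^ p) ∈ G ι (p * (t + 1))) ?_ ?_ ?_ hg
    · rintro q r ⟨z, hz, hz'⟩ ⟨w, hw, hw'⟩
      refine ⟨z + w, fun a => by rw [add_mul, mul_add, hz, hw], ?_⟩
      rw [add_pow_char, map_add]
      have := add_mem hz' hw'
      convert this using 1
      abel
    · refine ⟨0, fun a => by simp, ?_⟩
      rw [zero_pow hp.out.ne_zero, map_zero, sub_zero]
      exact zero_mem _
    · intro x μ hμ
      obtain ⟨z, hz, hz'⟩ := ih μ hμ
      refine ⟨(ι (e x) ^ p - ι (pm x)) * z, fun a => ?_, ?_⟩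
      · rw [mul_assoc, hz, ← mul_assoc, h.cen, mul_assoc]
      · rw [mul_pow]
        have h1 : (MvPolynomial.X x ^ p : MvPolynomial X k).IsHomogeneous p := by
          have := (isHomogeneous_X k x).pow p
          rwa [one_mul] at this
        have h2 : (μ ^ p).IsHomogeneous (p * t) := by
          have := hμ.pow p
          rwa [mul_comm] at this
        have h3 : ι (e x) ^ p - ι (pm x) - symb (MvPolynomial.X x ^ p) ∈ G ι p := by
          have h4 := sub_mem (pow_symb h.pbw x p) (iota_mem_G ι (pm x) hp.out.one_lt)
          convert h4 using 1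
          abel
        have h5 := prod_symb h.pbw h1 h2 h3 hz'
        rwa [show p + p * t = p * (t + 1) by ring] at h5

variable [Fintype X]

theorem mkDer_apply (q : X → MvPolynomial X k) (r : MvPolynomial X k) :
    mkDerivation k q r = ∑ x, pderiv x r * q x := by
  classical
  have h1 : mkDerivation k q = ∑ x, q x • pderiv x := by
    apply derivation_ext
    intro y
    rw [mkDerivation_X]
    have h2 : ∀ s : Finset X, (∑ x ∈ s, q x • pderiv x :
        Derivation k (MvPolynomial X k) (MvPolynomial X k)) (MvPolynomial.X y) =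
        ∑ x ∈ s, q x * (pderiv x (MvPolynomial.X y)) := by
      intro s
      induction s using Finset.induction_on with
      | empty => rw [sum_empty, sum_empty]; rfl
      | insert i s hi ih =>
        rw [sum_insert hi, sum_insert hi, Derivation.add_apply, ih]
        rfl
    rw [h2, Finset.sum_eq_single y]
    · rw [pderiv_X_self, mul_one]
    · intro x _ hx
      rw [pderiv_X_of_ne (Ne.symm hx), mul_zero]
    · intro hy
      exact absurd (mem_univ y) hy
  rw [h1]
  have h2 : ∀ s : Finset X, (∑ x ∈ s, q x • pderiv x :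
      Derivation k (MvPolynomial X k) (MvPolynomial X k)) r =
      ∑ x ∈ s, pderiv x r * q x := by
    intro s
    induction s using Finset.induction_on with
    | empty => rw [sum_empty, sum_empty]; rfl
    | insert i s hi ih =>
      rw [sum_insert hi, sum_insert hi, Derivation.add_apply, ih, Derivation.smul_apply,
        smul_eq_mul, mul_comm (q i)]
  exact h2 univ

theorem br_anti (h : RD p ι e symb br pm) (v w : V) : br v w = - br w v := by
  apply h.iota_inj
  rw [map_neg, h.iota_br, h.iota_br]
  abel

/-- The gradient of a Poisson central polynomial is a relation. -/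
theorem grad_rel (h : RD p ι e symb br pm) {r : MvPolynomial X k}
    (hr : ∀ x, Ham e br (e x) r = 0) : Rel e br (fun x => pderiv x r) := by
  intro y
  have h1 := hr y
  unfold Ham dS at h1
  rw [mkDer_apply] at h1
  have h2 : ∑ x, pderiv x r * linf e (br (e x) (e y)) =
      - ∑ x, pderiv x r * linf e (br (e y) (e x)) := by
    rw [← sum_neg_distrib]
    refine sum_congr rfl fun x _ => ?_
    rw [br_anti h (e x) (e y), map_neg, mul_neg]
  rw [h2, h1, neg_zero]

theorem rel_ham {c : X → MvPolynomial X k} (hc : Rel e br c) (r : MvPolynomial X k) :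
    ∑ x, c x * Ham e br (e x) r = 0 := by
  have h1 : ∀ x, Ham e br (e x) r = ∑ y, pderiv y r * linf e (br (e x) (e y)) := fun x => by
    unfold Ham dS
    rw [mkDer_apply]
  simp only [h1, mul_sum]
  rw [sum_comm]
  refine sum_eq_zero fun y _ => ?_
  have h2 := hc y
  have h3 : ∑ x, c x * (pderiv y r * linf e (br (e x) (e y))) =
      pderiv y r * ∑ x, c x * linf e (br (e x) (e y)) := by
    rw [mul_sum]
    refine sum_congr rfl fun x _ => ?_
    ring
  rw [h3, h2, mul_zero]

end aux

section main

variable {p : ℕ} {ι : V →ₗ[k] A} {e : Basis X k V} {symb : MvPolynomial X k →ₗ[k] A}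
  {br : V →ₗ[k] V →ₗ[k] V} {pm : X → V} [Fintype X]

/-- The statement for elements of deficiency `j`. -/
def PP (ι : V →ₗ[k] A) (e : Basis X k V) (symb : MvPolynomial X k →ₗ[k] A)
    (br : V →ₗ[k] V →ₗ[k] V) [Fintype X] (j : ℕ) : Prop :=
  ∀ (u : A) (m : ℕ) (q : X → MvPolynomial X k), u ∈ G ι (m + j + 1) → Dat ι e symb u m q →
    ∀ c, Rel e br c → ∑ x, c x * q x = 0

theorem dat_zero (h : RD p ι e symb br pm) {u : A} {m : ℕ} {q : X → MvPolynomial X k}
    (hq : Dat ι e symb u m q) {r : MvPolynomial X k} (hr : r.IsHomogeneous m)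
    (hu : u - symb r ∈ G ι m) (x : X) : q x = Ham e br (e x) r :=
  h.symb_unique (hq.1 x) (dS_hom e _ hr) (hq.2 x) (h.ad_symb (e x) hr hu)

theorem PP_zero (h : RD p ι e symb br pm) : PP ι e symb br 0 := by
  intro u m q hu hq c hc
  obtain ⟨r, hr, hur⟩ := h.pbw.symb_surj hu
  have h1 : ∀ x, q x = Ham e br (e x) r := fun x => dat_zero h hq hr hur x
  simp only [h1]
  exact rel_ham hc r

/-- Lifting of Poisson central elements. -/
theorem lift_central [hp : Fact p.Prime] [CharP k p] (h : RD p ι e symb br pm)
    (hI : HI p ι e symb br) {r : MvPolynomial X k} {d : ℕ} (hr : r.IsHomogeneous d)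
    (hrc : ∀ x, Ham e br (e x) r = 0) (j : ℕ) (hP : ∀ i < j, PP ι e symb br i) :
    ∃ (t : ℕ) (g : MvPolynomial X k) (u : A), g ≠ 0 ∧ g.IsHomogeneous t ∧
      u - symb (g ^ p * r) ∈ G ι (p * t + d) ∧ ∀ x, adA ι (e x) u ∈ G ι (p * t + d + 1 - j) := by
  induction j with
  | zero =>
    refine ⟨0, 1, symb r, one_ne_zero, isHomogeneous_one _ _, ?_, fun x => ?_⟩
    · rw [one_pow, one_mul, sub_self]
      exact zero_mem _
    · rw [mul_zero, zero_add, Nat.sub_zero]
      exact h.adA_G (e x) (h.pbw.symb_hom hr)
  | succ j ih =>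
    obtain ⟨t, g, u, hg0, hg, hu, hadu⟩ := ih (fun i hi => hP i (by omega))
    have hgr : (g ^ p * r).IsHomogeneous (p * t + d) := by
      have := (hg.pow p).mul hr
      rwa [mul_comm t p] at this
    by_cases hlt : p * t + d + 1 ≤ j
    · refine ⟨t, g, u, hg0, hg, hu, fun x => ?_⟩
      have h1 := hadu x
      rw [show p * t + d + 1 - j = 0 by omega] at h1
      exact G_mono ι (Nat.zero_le _) h1
    · rw [not_le] at hlt
      set m := p * t + d - j with hm
      have hmj : p * t + d = m + j := by omega
      have hadu' : ∀ x, adA ι (e x) u ∈ G ι (m + 1) := by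
        intro x
        have h1 := hadu x
        rwa [show p * t + d + 1 - j = m + 1 by omega] at h1
      choose q hq hqs using fun x => h.pbw.symb_surj (hadu' x)
      have hdat : Dat ι e symb u m q := ⟨hq, hqs⟩
      have huG : u ∈ G ι (m + j + 1) := by
        rw [← hmj]
        have := add_mem (G_mono ι (Nat.le_succ _) hu) (h.pbw.symb_hom hgr)
        rwa [sub_add_cancel] at this
      have hrel := hP j (Nat.lt_succ_self j) u m q huG hdat
      by_cases hj : j = 0
      · subst hj
        refine ⟨t, g, u, hg0, hg, hu, fun x => ?_⟩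
        have h1 : q x = Ham e br (e x) (g ^ p * r) := by
          rw [add_zero] at hmj
          refine dat_zero h hdat ?_ ?_ x
          · rw [← hmj]
            exact hgr
          · rw [← hmj]
            exact hu
        rw [der_mul_pow, hrc, mul_zero] at h1
        have h2 := hqs x
        rw [h1, map_zero, sub_zero] at h2
        rwa [show p * t + d + 1 - (0 + 1) = m by omega]
      · obtain ⟨t', b, f, hb0, hb, hf, hbf⟩ := hI u m q hdat hrel
        obtain ⟨z, hz, hzs⟩ := exists_xi h t' b hb
        have hbp : (b ^ p).IsHomogeneous (p * t') := by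
          have := hb.pow p
          rwa [mul_comm t' p] at this
        refine ⟨t' + t, b * g, z * u - symb f, mul_ne_zero hb0 hg0, hb.mul hg, ?_, fun x => ?_⟩
        · have h1 := prod_symb h.pbw hbp hgr hzs hu
          have h2 : symb f ∈ G ι (p * t' + (p * t + d)) := by
            refine G_mono ι ?_ (h.pbw.symb_hom hf)
            omega
          have h3 := sub_mem h1 h2
          rw [show p * (t' + t) + d = p * t' + (p * t + d) by ring, mul_pow, mul_assoc]
          convert h3 using 1
          abel
        · have h1 := prod_symb h.pbw hbp (hq x) hzs (hqs x)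
          rw [hbf x] at h1
          have h2 := h.compat (e x) hf
          have h3 := sub_mem h1 h2
          have h4 : adA ι (e x) (z * u - symb f) =
              z * adA ι (e x) u - adA ι (e x) (symb f) := by
            rw [map_sub, adA_apply, adA_apply ι (e x) u, mul_sub, ← mul_assoc, ← hz, mul_assoc,
              mul_assoc]
          rw [h4, show p * (t' + t) + d + 1 - (j + 1) = p * t' + m by
            rw [mul_add]
            omega]
          convert h3 using 1
          abel

/-- All relations are respected if those which are respected have codimension at most one. -/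
theorem PP_all [hp : Fact p.Prime] [CharP k p] (h : RD p ι e symb br pm)
    (hI : HI p ι e symb br) (hJ : HJ e br) (hC : HC ι e symb br) (j : ℕ) :
    PP ι e symb br j := by
  induction j using Nat.strong_induction_on with
  | _ j ih =>
    rcases Nat.eq_zero_or_pos j with hj | hj
    · rw [hj]
      exact PP_zero h
    · intro u m q hu hq
      obtain ⟨hqh, hqs⟩ := hq
      by_contra hcon
      have hnJ : ¬ ∀ (r : MvPolynomial X k) (d : ℕ), r.IsHomogeneous d →
          (∀ x, Ham e br (e x) r = 0) → mkDerivation k q r = 0 := fun hall => hcon (hJ q hall)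
      push Not at hnJ
      obtain ⟨r₀, d₀, hr₀, hr₀c, hne⟩ := hnJ
      -- `d₀` is positive
      obtain ⟨d₁, rfl⟩ : ∃ d₁, d₀ = d₁ + 1 := by
        cases d₀ with
        | zero =>
          exfalso
          apply hne
          rw [const_of_hom hr₀, Derivation.map_smul, Derivation.map_one_eq_zero, smul_zero]
        | succ d₁ => exact ⟨d₁, rfl⟩
      obtain ⟨t, g, u₀, hg0, hg, hu₀, hadu₀⟩ := lift_central h hI hr₀ hr₀c j ih
      have hgr : (g ^ p * r₀).IsHomogeneous (p * t + d₁ + 1) := by
        have := (hg.pow p).mul hr₀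
        rwa [mul_comm t p, ← add_assoc] at this
      rw [← add_assoc] at hu₀
      have hqs' : ∀ x, ι (e x) * u - u * ι (e x) - symb (q x) ∈ G ι m := hqs
      have hA := comm_symb h.pbw hqh hqs' hgr hu₀
      have hlead : ∀ z : A, z ∈ G ι (p * t + d₁ + m) →
          z = u₀ * u - u * u₀ → False := by
        intro z hz hzz
        rw [← hzz] at hA
        have h1 := sub_mem hz hA
        rw [sub_sub_cancel] at h1
        have h2 := h.pbw.symb_lead (mkDer_hom hqh hgr) h1
        rw [der_mul_pow] at h2
        rcases mul_eq_zero.1 h2 with h3 | h3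
        · exact pow_ne_zero p hg0 h3
        · exact hne h3
      by_cases hD : p * t + (d₁ + 1) + 1 ≤ j
      · -- `u₀` is central
        have h0 : ∀ x, adA ι (e x) u₀ = 0 := by
          intro x
          have h1 := hadu₀ x
          rw [show p * t + (d₁ + 1) + 1 - j = 0 by omega, G_zero, Submodule.mem_bot] at h1
          exact h1
        have h1 : ∀ v, ι v * u₀ = u₀ * ι v := by
          intro v
          have h2 : adA ι v u₀ = 0 := by
            rw [adA_sum ι e]
            simp [h0]
          rw [adA_apply] at h2
          exact sub_eq_zero.1 h2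
        have h2 : ∀ a, a * u₀ = u₀ * a := by
          intro a
          obtain ⟨d, hd⟩ := h.pbw.exhaust a
          induction hd using Submodule.span_induction with
          | mem a ha =>
            obtain ⟨l, -, rfl⟩ := ha
            induction l with
            | nil => simp
            | cons v l ihl =>
              rw [List.map_cons, List.prod_cons, mul_assoc, ihl, ← mul_assoc, h1, mul_assoc]
          | zero => simp
          | add x y _ _ hx hy => rw [add_mul, mul_add, hx, hy]
          | smul c x _ hx => rw [smul_mul_assoc, mul_smul_comm, hx]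
        exact hlead 0 (zero_mem _) (by rw [h2 u, sub_self])
      · rw [not_le] at hD
        set m₀ := p * t + (d₁ + 1) - j with hm₀
        have hadu' : ∀ x, adA ι (e x) u₀ ∈ G ι (m₀ + 1) := by
          intro x
          have h1 := hadu₀ x
          rwa [show p * t + (d₁ + 1) + 1 - j = m₀ + 1 by omega] at h1
        choose q₀ hq₀ hq₀s using fun x => h.pbw.symb_surj (hadu' x)
        have hdat₀ : Dat ι e symb u₀ m₀ q₀ := ⟨hq₀, hq₀s⟩
        -- the symbols of `u₀` respect the gradient of `r₀`
        have hself : ∑ x, pderiv x r₀ * q₀ x = 0 := by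
          have h1 := comm_symb h.pbw hq₀ hq₀s hgr hu₀
          rw [sub_self, zero_sub, Submodule.neg_mem_iff] at h1
          have h2 := h.pbw.symb_lead (mkDer_hom hq₀ hgr) h1
          rw [der_mul_pow] at h2
          rcases mul_eq_zero.1 h2 with h3 | h3
          · exact absurd h3 (pow_ne_zero p hg0)
          · rwa [mkDer_apply] at h3
        -- all relations are respected by `u₀`
        have hall : ∀ c', Rel e br c' → ∑ x, c' x * q₀ x = 0 := by
          intro c' hc'
          obtain ⟨α, β, hαβ, hk⟩ := hC c' (fun x => pderiv x r₀) hc' (grad_rel h hr₀c)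
          have hα : α ≠ 0 := by
            intro hα
            have hβ : β ≠ 0 := by
              rcases hαβ with h1 | h1
              · exact absurd hα h1
              · exact h1
            have h1 := hk u m q ⟨hqh, hqs⟩
            rw [hα, zero_mul, zero_add, ← mkDer_apply] at h1
            rcases mul_eq_zero.1 h1 with h2 | h2
            · exact hβ h2
            · exact hne h2
          have h1 := hk u₀ m₀ q₀ hdat₀
          rw [hself, mul_zero, add_zero] at h1
          rcases mul_eq_zero.1 h1 with h2 | h2
          · exact absurd h2 hα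
          · exact h2
        -- the symbol of `u`
        obtain ⟨r, hr, hur⟩ := h.pbw.symb_surj hu
        have hrc : ∀ x, Ham e br (e x) r = 0 := by
          intro x
          have h1 := h.ad_symb (e x) hr hur
          have h2 : adA ι (e x) u - symb 0 ∈ G ι (m + j) := by
            rw [map_zero, sub_zero]
            have h3 := add_mem (G_mono ι (Nat.le_succ m) (hqs x)) (h.pbw.symb_hom (hqh x))
            rw [sub_add_cancel] at h3
            exact G_mono ι (by omega) h3
          exact h.symb_unique (dS_hom e _ hr) (isHomogeneous_zero _ _ _) h1 h2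
        obtain ⟨j', rfl⟩ : ∃ j', j = j' + 1 := ⟨j - 1, by omega⟩
        have hr' : r.IsHomogeneous (m + j' + 1) := hr
        have hur' : u - symb r ∈ G ι (m + j' + 1) := hur
        have hB := comm_symb h.pbw hq₀ hq₀s hr' hur'
        have h3 : mkDerivation k q₀ r = 0 := by
          rw [mkDer_apply]
          exact hall _ (grad_rel h hrc)
        rw [h3, map_zero, sub_zero] at hB
        refine hlead (-(u * u₀ - u₀ * u)) ?_ (by abel)
        rw [Submodule.neg_mem_iff]
        rwa [show p * t + d₁ + m = m + j' + m₀ by omega]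

theorem RR_of_codim [hp : Fact p.Prime] [CharP k p] (h : RD p ι e symb br pm)
    (hI : HI p ι e symb br) (hJ : HJ e br) (hC : HC ι e symb br) : RR ι e symb br := by
  intro u m q hq hu c hc
  obtain ⟨d, hd⟩ := h.pbw.exhaust u
  exact PP_all h hI hJ hC d u m q (G_mono ι (by omega) hd) ⟨hq, hu⟩ c hc

end main

end Pool.Agent.Helper28.KW
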