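import Pool.Agent.Helper28.KW.Final
import Pool.Agent.Helper28.KW.Comm

set_option autoImplicit false

/-!
# Restricted Lie algebras of matrices of size at most `2p`
-/

namespace Pool.Agent.Helper28.KW

open Module Pool.Agent.Helper56.SKW Pool.Agent.Helper56.SKW.PBW Pool.Agent.Helper56.SKU
  Pool.Agent.Helper56.SKR Pool.Agent.Helper58.KW Pool.Agent.Helper34.KW

universe u v w

theorem exists_greatest (Q : ℕ → Prop) (h : ∃ N, Q N) (B : ℕ) (hB : ∀ N, Q N → N ≤ B) :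
    ∃ N, Q N ∧ ∀ M, Q M → M ≤ N := by
  classical
  obtain ⟨N₀, hN₀⟩ := h
  exact ⟨Nat.findGreatest Q B, Nat.findGreatest_spec (hB _ hN₀) hN₀,
    fun M hM => Nat.le_findGreatest (hB _ hM) hM⟩

section rep

variable {k : Type*} [Field k] {L : Type*} [AddCommGroup L] [Module k L]
  {V : Type*} [AddCommGroup V] [Module k V]

theorem rep_pow (br : L →ₗ[k] L →ₗ[k] L) (ρ : L →ₗ[k] Module.End k V)
    (hρ : ∀ x y, ρ (br x y) = ρ x * ρ y - ρ y * ρ x) {p : ℕ} [hp : Fact p.Prime] [CharP k p]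
    {x x' : L} (hx : ρ x' = (ρ x) ^ p) (y : L) :
    ρ (br x' y) = ρ (((br x : Module.End k L) ^ p) y) := by
  by_cases hV : Subsingleton V
  · exact Subsingleton.elim _ _
  have hnt : Nontrivial V := not_subsingleton_iff_nontrivial.1 hV
  have h1 : ∀ n : ℕ, ρ (((br x : Module.End k L) ^ n) y) = ((adA ρ x) ^ n) (ρ y) := by
    intro n
    induction n with
    | zero => rfl
    | succ n ih =>
      rw [pow_succ', pow_succ', Module.End.mul_apply, Module.End.mul_apply, hρ, ih, adA_apply]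
  rw [h1, adA_pow, hρ, hx]

end rep

theorem end_add_pow {k : Type*} [Field k] {V : Type*} [AddCommGroup V] [Module k V] (p : ℕ)
    [hp : Fact p.Prime] [CharP k p] {u v : Module.End k V} (huv : Commute u v) :
    (u + v) ^ p = u ^ p + v ^ p := by
  by_cases hW : Subsingleton V
  · exact Subsingleton.elim _ _
  have hnt : Nontrivial V := not_subsingleton_iff_nontrivial.1 hW
  have hch : CharP (Module.End k V) p :=
    charP_of_injective_algebraMap (FaithfulSMul.algebraMap_injective k (Module.End k V)) p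
  exact add_pow_char_of_commute p huv

theorem nil_pow {k : Type*} [Field k] {V : Type*} [AddCommGroup V] [Module k V]
    [FiniteDimensional k V] {u : Module.End k V} (hu : IsNilpotent u) {n : ℕ}
    (hn : finrank k V ≤ n) : u ^ n = 0 := by
  have h1 : u ^ finrank k V = 0 := by
    have h2 := LinearMap.aeval_self_charpoly u
    rw [hu.charpoly_eq_X_pow_finrank, map_pow, Polynomial.aeval_X] at h2
    exact h2
  obtain ⟨m, rfl⟩ := Nat.exists_eq_add_of_le hn
  rw [pow_add, h1, zero_mul]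

section lin

variable {k : Type*} [Field k] {L : Type*} [AddCommGroup L] [Module k L] [FiniteDimensional k L]
  {V₀ V₁ : Type*} [AddCommGroup V₀] [Module k V₀] [AddCommGroup V₁] [Module k V₁]
  [FiniteDimensional k V₀] [FiniteDimensional k V₁]

/-- A linear map factors through another one with smaller kernel. -/
theorem exists_factor_map {k : Type*} [Field k] {L B E : Type*} [AddCommGroup L] [Module k L]
    [AddCommGroup B] [Module k B] [AddCommGroup E] [Module k E] (R : L →ₗ[k] B) (f : L →ₗ[k] E)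
    (h : ∀ x, R x = 0 → f x = 0) : ∃ φ : B →ₗ[k] E, ∀ x, φ (R x) = f x := by
  obtain ⟨s, hs⟩ := R.rangeRestrict.exists_rightInverse_of_surjective
    (LinearMap.range_rangeRestrict R)
  obtain ⟨φ, hφ⟩ := LinearMap.exists_extend (f ∘ₗ s)
  refine ⟨φ, fun x => ?_⟩
  have h1 : φ (R x) = f (s (R.rangeRestrict x)) := LinearMap.congr_fun hφ (R.rangeRestrict x)
  have h2 : R.rangeRestrict (s (R.rangeRestrict x)) = R.rangeRestrict x :=
    LinearMap.congr_fun hs (R.rangeRestrict x)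
  have h3 : R (s (R.rangeRestrict x)) = R x := congrArg Subtype.val h2
  have h4 : f (s (R.rangeRestrict x) - x) = 0 := h _ (by rw [map_sub, h3, sub_self])
  rw [map_sub, sub_eq_zero] at h4
  rw [h1, h4]

/-- The pointwise bound for Lie algebras of matrices. -/
theorem prk_le (p : ℕ) [hp : Fact p.Prime] [CharP k p] (hk : ∀ c : k, ∃ d : k, d ^ p = c)
    (br : L →ₗ[k] L →ₗ[k] L) (ρ₀ : L →ₗ[k] Module.End k V₀) (ρ₁ : L →ₗ[k] Module.End k V₁)
    (hbr₀ : ∀ x y, ρ₀ (br x y) = ρ₀ x * ρ₀ y - ρ₀ y * ρ₀ x)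
    (hbr₁ : ∀ x y, ρ₁ (br x y) = ρ₁ x * ρ₁ y - ρ₁ y * ρ₁ x)
    (hker : ∀ x, ρ₀ x = 0 → ρ₁ x = 0 → br x = 0)
    (hpc : ∀ x, ∃ x', br x' = (br x : Module.End k L) ^ p ∧ ρ₀ x' = ρ₀ x ^ p ∧ ρ₁ x' = ρ₁ x ^ p)
    (hV₀ : finrank k V₀ ≤ p) (hV₁ : finrank k V₁ ≤ 2 * p) (θ : L →ₗ[k] k)
    (hab : ∀ x ∈ stab br θ, ∀ y ∈ stab br θ, br x y = 0) :
    prk br p θ ≤ prk br (p ^ 2) θ + 1 := by
  classical
  have hp0 := hp.out.ne_zero
  choose P hbrP hP₀ hP₁ using hpc
  set a := stab br θ with ha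
  have hPa : ∀ x ∈ a, P x ∈ a := by
    intro x hx w
    rw [hbrP]
    obtain ⟨n, hn⟩ : ∃ n, p = n + 1 := ⟨p - 1, by have := hp.out.pos; omega⟩
    rw [hn, pow_succ', Module.End.mul_apply]
    exact hx _
  have hc₀ : ∀ x ∈ a, ∀ y ∈ a, Commute (ρ₀ x) (ρ₀ y) := by
    intro x hx y hy
    have h1 := hbr₀ x y
    rw [hab x hx y hy, map_zero] at h1
    exact (sub_eq_zero.1 h1.symm)
  have hc₁ : ∀ x ∈ a, ∀ y ∈ a, Commute (ρ₁ x) (ρ₁ y) := by
    intro x hx y hy
    have h1 := hbr₁ x y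
    rw [hab x hx y hy, map_zero] at h1
    exact (sub_eq_zero.1 h1.symm)
  let R : L →ₗ[k] Module.End k V₀ × Module.End k V₁ := ρ₀.prod ρ₁
  have hR : ∀ x, R x = (ρ₀ x, ρ₁ x) := fun x => rfl
  have hRP : ∀ x, R (P x) = (R x) ^ p := by
    intro x
    rw [hR, hR, hP₀, hP₁]
    rfl
  obtain ⟨φ, hφ⟩ := exists_factor_map R br (fun x hx => by
    rw [hR] at hx
    exact hker x (congrArg Prod.fst hx) (congrArg Prod.snd hx))
  have hadd : ∀ x ∈ a, ∀ y ∈ a, (R x + R y) ^ p = R x ^ p + R y ^ p := by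
    intro x hx y hy
    rw [hR, hR, Prod.mk_add_mk, Prod.pow_mk, Prod.pow_mk, Prod.pow_mk, Prod.mk_add_mk,
      end_add_pow p (hc₀ x hx y hy), end_add_pow p (hc₁ x hx y hy)]
  -- the image of the `p`-map
  let S1 : Submodule k (Module.End k V₀ × Module.End k V₁) :=
    { carrier := {z | ∃ x ∈ a, R x ^ p = z}
      zero_mem' := ⟨0, a.zero_mem, by rw [map_zero, zero_pow hp0]⟩
      add_mem' := by
        rintro _ _ ⟨x, hx, rfl⟩ ⟨y, hy, rfl⟩
        exact ⟨x + y, a.add_mem hx hy, by rw [map_add, hadd x hx y hy]⟩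
      smul_mem' := by
        rintro c _ ⟨x, hx, rfl⟩
        obtain ⟨d, hd⟩ := hk c
        exact ⟨d • x, a.smul_mem d hx, by rw [map_smul, _root_.smul_pow, hd]⟩ }
  have hS1a : ∀ z ∈ S1, ∃ x ∈ a, R x = z := by
    rintro _ ⟨x, hx, rfl⟩
    exact ⟨P x, hPa x hx, hRP x⟩
  have hFadd : ∀ y ∈ S1, ∀ z ∈ S1, (y + z) ^ p = y ^ p + z ^ p := by
    intro y hy z hz
    obtain ⟨x, hx, rfl⟩ := hS1a y hy
    obtain ⟨x', hx', rfl⟩ := hS1a z hz
    exact hadd x hx x' hx'
  let S2 : Submodule k (Module.End k V₀ × Module.End k V₁) :=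
    Submodule.span k {z | ∃ x ∈ a, (R x ^ p) ^ p = z}
  have hS21 : S2 ≤ S1 := by
    refine Submodule.span_le.2 ?_
    rintro _ ⟨x, hx, rfl⟩
    exact ⟨P x, hPa x hx, by rw [hRP]⟩
  let K : Submodule k (Module.End k V₀ × Module.End k V₁) :=
    { carrier := {z | z ∈ S1 ∧ z ^ p = 0}
      zero_mem' := ⟨S1.zero_mem, zero_pow hp0⟩
      add_mem' := fun {y z} hy hz => ⟨S1.add_mem hy.1 hz.1, by
        rw [hFadd y hy.1 z hz.1, hy.2, hz.2, add_zero]⟩
      smul_mem' := fun c y hy => ⟨S1.smul_mem c hy.1, by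
        rw [_root_.smul_pow, hy.2, smul_zero]⟩ }
  -- the ranks
  have r1 : prk br p θ = finrank k (S1.map φ) := by
    have h1 : Submodule.span k {T : Module.End k L | ∃ w ∈ stab br θ,
        T = (br w : Module.End k L) ^ p} = S1.map φ := by
      apply le_antisymm
      · rw [Submodule.span_le]
        rintro _ ⟨w, hw, rfl⟩
        exact ⟨R w ^ p, ⟨w, hw, rfl⟩, by rw [← hRP, hφ, hbrP]⟩
      · rintro _ ⟨_, ⟨w, hw, rfl⟩, rfl⟩
        exact Submodule.subset_span ⟨w, hw, by rw [← hRP, hφ, hbrP]⟩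
    unfold prk
    rw [h1]
  have r2 : prk br (p ^ 2) θ = finrank k (S2.map φ) := by
    have h1 : ∀ w, φ ((R w ^ p) ^ p) = (br w : Module.End k L) ^ (p ^ 2) := by
      intro w
      rw [← hRP, ← hRP, hφ, hbrP, hbrP, ← pow_mul, sq]
    have h2 : Submodule.span k {T : Module.End k L | ∃ w ∈ stab br θ,
        T = (br w : Module.End k L) ^ (p ^ 2)} = S2.map φ := by
      rw [Submodule.map_span]
      congr 1
      ext T
      constructor
      · rintro ⟨w, hw, rfl⟩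
        exact ⟨_, ⟨w, hw, rfl⟩, h1 w⟩
      · rintro ⟨_, ⟨w, hw, rfl⟩, rfl⟩
        exact ⟨w, hw, h1 w⟩
    unfold prk
    rw [h2]
  have r3 : ∀ S : Submodule k (Module.End k V₀ × Module.End k V₁), finrank k (S.map φ) +
      finrank k (S ⊓ LinearMap.ker φ : Submodule k _) = finrank k S := by
    intro S
    have h1 := LinearMap.finrank_range_add_finrank_ker (φ.domRestrict S)
    have h2 : LinearMap.range (φ.domRestrict S) = S.map φ := by
      rw [LinearMap.range_domRestrict]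
    have h3 : finrank k (LinearMap.ker (φ.domRestrict S)) =
        finrank k (S ⊓ LinearMap.ker φ : Submodule k _) := by
      have h4 : LinearMap.ker (φ.domRestrict S) =
          (S ⊓ LinearMap.ker φ : Submodule k _).comap S.subtype := by
        ext y
        constructor
        · intro hy
          exact ⟨y.2, hy⟩
        · intro hy
          exact hy.2
      rw [h4]
      exact (Submodule.comapSubtypeEquivOfLe inf_le_left).finrank_eq
    rw [h2, h3] at h1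
    exact h1
  have r4 := r3 S1
  have r5 := r3 S2
  have r6 : finrank k (S2 ⊓ LinearMap.ker φ : Submodule k _) ≤
      finrank k (S1 ⊓ LinearMap.ker φ : Submodule k _) :=
    Submodule.finrank_mono (inf_le_inf_right _ hS21)
  have r7 : finrank k S1 ≤ finrank k K + finrank k S2 :=
    semi_sub p hk S1 K (fun z => z ^ p) hFadd
      (fun c z _ => _root_.smul_pow c z p) (fun z hz h => ⟨hz, h⟩) S2 (by
        rintro _ ⟨x, hx, rfl⟩
        exact Submodule.subset_span ⟨x, hx, rfl⟩)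
  have r8 : finrank k K ≤ 1 := by
    by_cases hK : K = ⊥
    · rw [hK, finrank_bot]
      exact Nat.zero_le 1
    obtain ⟨w, hw, hw0⟩ := Submodule.exists_mem_ne_zero_of_ne_bot hK
    have h1 : K ≤ Submodule.span k {w} := by
      intro v hv
      obtain ⟨⟨x, hx, rfl⟩, hPw⟩ := hw
      obtain ⟨⟨y, hy, rfl⟩, hPv⟩ := hv
      have hn₀ : ∀ z, (R z ^ p) ^ p = 0 → IsNilpotent (ρ₀ z) := by
        intro z hz
        refine ⟨p * p, ?_⟩
        rw [pow_mul]
        exact congrArg Prod.fst hz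
      have hn₁ : ∀ z, (R z ^ p) ^ p = 0 → IsNilpotent (ρ₁ z) := by
        intro z hz
        refine ⟨p * p, ?_⟩
        rw [pow_mul]
        exact congrArg Prod.snd hz
      have hz₀ : ∀ z, (R z ^ p) ^ p = 0 → ρ₀ z ^ p = 0 := fun z hz => nil_pow (hn₀ z hz) hV₀
      obtain ⟨α, β, hαβ, h2⟩ := pow_dep p (hc₁ x hx y hy) (hn₁ x hPw) (hn₁ y hPv) hV₁
      have h3 : α • R x ^ p + β • R y ^ p = 0 := by
        rw [hR, hR, Prod.pow_mk, Prod.pow_mk, Prod.smul_mk, Prod.smul_mk, Prod.mk_add_mk,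
          hz₀ x hPw, hz₀ y hPv, h2, smul_zero, smul_zero, add_zero]
        rfl
      have hβ : β ≠ 0 := by
        intro h0
        rw [h0, zero_smul, add_zero] at h3
        rcases smul_eq_zero.1 h3 with h4 | h4
        · rcases hαβ with h5 | h5
          · exact h5 h4
          · exact h5 h0
        · exact hw0 h4
      refine Submodule.mem_span_singleton.2 ⟨-(β⁻¹ * α), ?_⟩
      have h4 : R y ^ p = β⁻¹ • (β • R y ^ p) := by
        rw [smul_smul, inv_mul_cancel₀ hβ, one_smul]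
      rw [h4, ← neg_eq_of_add_eq_zero_right h3, smul_neg, smul_smul, neg_smul]
    have h2 := Submodule.finrank_mono h1
    have h3 := finrank_span_singleton (K := k) hw0
    omega
  omega

end lin

section main

/-- Stabilisers of regular linear forms are abelian. -/
theorem abel_of_reg {k : Type*} [Field k] [Infinite k] {L : Type*} [AddCommGroup L] [Module k L]
    [FiniteDimensional k L] (br : L →ₗ[k] L →ₗ[k] L) (hanti : ∀ v w, br v w = - br w v)
    (θ₀ : L →ₗ[k] k) (hreg : ∀ θ, finrank k (stab br θ₀) ≤ finrank k (stab br θ)) :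
    ∀ v ∈ stab br θ₀, ∀ w ∈ stab br θ₀, br v w = 0 := by
  let e := finBasis k L
  obtain ⟨θ₁, rfl⟩ := exists_tof e θ₀
  have hreg' : ∀ θ, (Nt e br θ).rank ≤ (Nt e br θ₁).rank := by
    intro θ
    have h1 := hreg (tof e θ)
    have h2 := finrank_stab e br θ
    have h3 := finrank_stab e br θ₁
    omega
  obtain ⟨d, hd0, hd⟩ := gen_rel e br θ₁ hreg'
  intro v hv w hw
  obtain ⟨-, hrel⟩ := hd θ₁ hd0
  obtain ⟨c, hc, hcv⟩ := hrel v hv
  obtain ⟨c', hc', hcw⟩ := hrel w hw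
  exact stab_abel e br hanti hc hc' hcv hcw

variable {k : Type u} [Field k] {L₀ : Type v} {L₁ : Type w} [AddCommGroup L₀] [Module k L₀]
  [AddCommGroup L₁] [Module k L₁] [FiniteDimensional k L₀]

/-- It is enough to bound the number of long blocks at each regular linear form. -/
theorem kw_pointwise [IsAlgClosed k] [FiniteDimensional k L₁] (p : ℕ) [hp : Fact p.Prime]
    [CharP k p] (hp2 : 2 < p) (g : LieSuper k L₀ L₁)
    (hres : ∀ x, ∃ x', g.b00 x' = (g.b00 x) ^ p ∧ g.b01 x' = (g.b01 x) ^ p)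
    (hF : ∀ θ, (∀ θ', bEven g θ' ≤ bEven g θ) → pRank g p θ ≤ pRank g (p ^ 2) θ + 1) :
    ∃ D : ℕ, MaxSuper g D ∧ IsGreatest {d | ∃ θ : L₀ →ₗ[k] k,
        d = p ^ (bEven g θ / 2) * 2 ^ ((bOdd g θ + 1) / 2)} D := by
  classical
  obtain ⟨N, ⟨θ₁, hθ₁⟩, hN⟩ := exists_greatest (fun N => ∃ θ : L₀ →ₗ[k] k, bEven g θ = N)
    ⟨_, 0, rfl⟩ (finrank k L₀) (by
      rintro N ⟨θ, rfl⟩
      unfold bEven
      omega)
  obtain ⟨M, ⟨θ₀, hθ₀, hM₀⟩, hM⟩ := exists_greatest
    (fun M => ∃ θ : L₀ →ₗ[k] k, bEven g θ = N ∧ pRank g (p ^ 2) θ = M)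
    ⟨_, θ₁, hθ₁, rfl⟩ (finrank k (Module.End k L₀)) (by
      rintro M ⟨θ, -, rfl⟩
      unfold pRank
      exact Submodule.finrank_le _)
  have hreg : ∀ θ, bEven g θ ≤ bEven g θ₀ := fun θ => by
    rw [hθ₀]
    exact hN _ ⟨θ, rfl⟩
  obtain ⟨D, c, hD, -, -, hgr⟩ := kw_blocks p hp2 g hres θ₀ hreg (fun θ hθ => by
    have h1 := hF θ (fun θ' => by rw [hθ]; exact hreg θ')
    have h2 := hM _ ⟨θ, by rw [hθ, hθ₀], rfl⟩
    omega)
  exact ⟨D, hD, hgr⟩

/-- **Restricted Lie superalgebras whose even part consists of matrices of size at most `2p`.** -/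
theorem kw_linear [IsAlgClosed k] [FiniteDimensional k L₁] (p : ℕ) [hp : Fact p.Prime]
    [CharP k p] (hp2 : 2 < p) (g : LieSuper k L₀ L₁)
    (hres : ∀ x, ∃ x', g.b00 x' = (g.b00 x) ^ p ∧ g.b01 x' = (g.b01 x) ^ p)
    {V₀ V₁ : Type*} [AddCommGroup V₀] [Module k V₀] [AddCommGroup V₁] [Module k V₁]
    [FiniteDimensional k V₀] [FiniteDimensional k V₁]
    (ρ₀ : L₀ →ₗ[k] Module.End k V₀) (ρ₁ : L₀ →ₗ[k] Module.End k V₁)
    (hbr₀ : ∀ x y, ρ₀ (g.b00 x y) = ρ₀ x * ρ₀ y - ρ₀ y * ρ₀ x)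
    (hbr₁ : ∀ x y, ρ₁ (g.b00 x y) = ρ₁ x * ρ₁ y - ρ₁ y * ρ₁ x)
    (hker : ∀ x, ρ₀ x = 0 → ρ₁ x = 0 → g.b00 x = 0)
    (hpc : ∀ x, ∃ x', g.b00 x' = (g.b00 x) ^ p ∧ ρ₀ x' = ρ₀ x ^ p ∧ ρ₁ x' = ρ₁ x ^ p)
    (hV₀ : finrank k V₀ ≤ p) (hV₁ : finrank k V₁ ≤ 2 * p) :
    ∃ D : ℕ, MaxSuper g D ∧ IsGreatest {d | ∃ θ : L₀ →ₗ[k] k,
        d = p ^ (bEven g θ / 2) * 2 ^ ((bOdd g θ + 1) / 2)} D := by
  have hinf : Infinite k := IsAlgClosed.instInfinite
  refine kw_pointwise p hp2 g hres fun θ hθ => ?_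
  rw [← prk_eq, ← prk_eq]
  refine prk_le p (fun c => IsAlgClosed.exists_pow_nat_eq c hp.out.pos) g.b00 ρ₀ ρ₁ hbr₀ hbr₁
    hker hpc hV₀ hV₁ θ ?_
  refine abel_of_reg g.b00 (anti00 g) θ fun θ' => ?_
  rw [stab_eq, stab_eq]
  have h1 := hθ θ'
  unfold bEven at h1
  have h2 := Submodule.finrank_le (LinearMap.ker (form₀ g θ))
  have h3 := Submodule.finrank_le (LinearMap.ker (form₀ g θ'))
  omega

end main

end Pool.Agent.Helper28.KW
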