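import Pool.Agent.Helper28.KW.Point

set_option autoImplicit false

/-!
# Restricted Lie algebras whose generic stabilisers have a `p`-map with square of corank at most 3

`RR_of_corank`: it is enough to test the corank at one regular point.
-/

namespace Pool.Agent.Helper28.KW

open MvPolynomial Module Finset Pool.Agent.Helper58.KW Pool.Agent.Helper34.KW

universe u₁ u₂ u₃ u₄

section li

variable {k : Type*} [Field k] {X Y : Type*} [Fintype X] [Fintype Y]

/-- Linear independence is an open condition. -/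
theorem li_open {τ : ℕ} (F : Fin τ → Y → MvPolynomial X k) (θ₀ : X → k)
    (hli : LinearIndependent k fun j => fun y => eval θ₀ (F j y)) :
    ∃ d : MvPolynomial X k, eval θ₀ d ≠ 0 ∧ ∀ θ : X → k, eval θ d ≠ 0 →
      LinearIndependent k fun j => fun y => eval θ (F j y) := by
  classical
  set f : (Fin τ → k) →ₗ[k] (Y → k) :=
    Fintype.linearCombination k (fun j => fun y => eval θ₀ (F j y)) with hf
  have hinj : LinearMap.ker f = ⊥ := by
    rw [LinearMap.ker_eq_bot']
    intro g hg
    rw [hf, Fintype.linearCombination_apply] at hg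
    ext i
    exact (Fintype.linearIndependent_iff.1 hli) g hg i
  obtain ⟨L, hL⟩ := f.exists_leftInverse_of_injective hinj
  set D : Matrix (Fin τ) (Fin τ) (MvPolynomial X k) :=
    Matrix.of fun i j => ∑ y, C (L (Pi.single y 1) i) * F j y with hD
  have hLs : ∀ (v : Y → k) i, L v i = ∑ y, L (Pi.single y 1) i * v y := by
    intro v i
    have h1 : v = ∑ y, v y • (Pi.single y (1 : k) : Y → k) := by
      ext z
      rw [Finset.sum_apply, Finset.sum_eq_single z]
      · simp
      · intro y _ hy
        simp [Pi.single_eq_of_ne (Ne.symm hy)]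
      · intro h
        exact absurd (mem_univ z) h
    conv_lhs => rw [h1]
    rw [map_sum, Finset.sum_apply]
    refine sum_congr rfl fun y _ => ?_
    rw [map_smul, Pi.smul_apply, smul_eq_mul, mul_comm]
  have hDe : ∀ (θ : X → k) i j, eval θ (D i j) = L (fun y => eval θ (F j y)) i := by
    intro θ i j
    rw [hD, Matrix.of_apply, map_sum, hLs]
    refine sum_congr rfl fun y _ => ?_
    rw [map_mul, eval_C]
  refine ⟨D.det, ?_, fun θ hθ => ?_⟩
  · have h1 : D.map (eval θ₀) = 1 := by
      ext i j
      rw [Matrix.map_apply, hDe]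
      have h2 : (fun y => eval θ₀ (F j y)) = f (Pi.single j 1) := by
        rw [hf, Fintype.linearCombination_apply_single, one_smul]
      rw [h2]
      have h3 := congrFun (LinearMap.congr_fun hL (Pi.single j 1)) i
      have h4 : L (f (Pi.single j 1)) i = (Pi.single j (1 : k) : Fin τ → k) i := h3
      rw [h4, Matrix.one_apply, Pi.single_apply]
    rw [RingHom.map_det, RingHom.mapMatrix_apply, h1, Matrix.det_one]
    exact one_ne_zero
  · rw [Fintype.linearIndependent_iff]
    intro g hg
    have h1 : (D.map (eval θ)).mulVec g = 0 := by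
      ext1 i
      rw [Matrix.mulVec, dotProduct, Pi.zero_apply]
      have h2 : ∑ j, (D.map (eval θ)) i j * g j = L (∑ j, g j • fun y => eval θ (F j y)) i := by
        rw [map_sum, Finset.sum_apply]
        refine sum_congr rfl fun j _ => ?_
        rw [Matrix.map_apply, hDe, map_smul, Pi.smul_apply, smul_eq_mul, mul_comm]
      rw [h2, hg, map_zero, Pi.zero_apply]
    have h3 : (D.map (eval θ)).det ≠ 0 := by
      rw [← RingHom.mapMatrix_apply, ← RingHom.map_det]
      exact hθ
    have h4 := Matrix.eq_zero_of_mulVec_eq_zero h3 h1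
    intro i
    exact congrFun h4 i

end li

section adm

variable {k : Type*} [Field k] {V : Type*} [AddCommGroup V] [Module k V] {X : Type*} [Fintype X]
  [DecidableEq X]

/-- The adjoint matrix of a relation. -/
noncomputable def adm (e : Basis X k V) (br : V →ₗ[k] V →ₗ[k] V) (c : X → MvPolynomial X k) :
    Matrix X X (MvPolynomial X k) :=
  Matrix.of fun z y => ∑ x, c x * C (e.repr (br (e x) (e y)) z)

theorem adm_eval (e : Basis X k V) (br : V →ₗ[k] V →ₗ[k] V) (c : X → MvPolynomial X k)
    (θ : X → k) (v : V) (hv : ∀ x, eval θ (c x) = e.repr v x) :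
    (adm e br c).map (eval θ) = LinearMap.toMatrix e e (br v) := by
  ext z y
  rw [Matrix.map_apply, LinearMap.toMatrix_apply]
  unfold adm
  rw [Matrix.of_apply, map_sum]
  conv_rhs => rw [← e.sum_repr v]
  rw [map_sum, LinearMap.sum_apply, map_sum, Finsupp.finset_sum_apply]
  refine sum_congr rfl fun x _ => ?_
  rw [map_mul, eval_C, hv, map_smul, LinearMap.smul_apply, map_smul, Finsupp.smul_apply,
    smul_eq_mul]

theorem adm_pow_eval (e : Basis X k V) (br : V →ₗ[k] V →ₗ[k] V) (c : X → MvPolynomial X k)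
    (θ : X → k) (v : V) (hv : ∀ x, eval θ (c x) = e.repr v x) (n : ℕ) :
    ((adm e br c) ^ n).map (eval θ) = LinearMap.toMatrix e e ((br v : Module.End k V) ^ n) := by
  rw [← RingHom.mapMatrix_apply, map_pow, RingHom.mapMatrix_apply, adm_eval e br c θ v hv,
    LinearMap.toMatrix_pow]

end adm

section main

variable {k : Type u₁} [Field k] {V : Type u₂} [AddCommGroup V] [Module k V]
  [FiniteDimensional k V] {A : Type u₃} [Ring A] [Algebra k A] {X : Type u₄} [Fintype X]
  [DecidableEq X]

variable {p : ℕ} {ι : V →ₗ[k] A} {e : Basis X k V} {symb : MvPolynomial X k →ₗ[k] A}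
  {br : V →ₗ[k] V →ₗ[k] V} {pm : X → V}

/-- The rank of the power map on stabilisers is lower semicontinuous. -/
theorem rank_open [Infinite k] (e : Basis X k V) (br : V →ₗ[k] V →ₗ[k] V) (θ₀ : X → k)
    (hreg : ∀ θ, (Nt e br θ).rank ≤ (Nt e br θ₀).rank) (n : ℕ) :
    ∃ d : MvPolynomial X k, eval θ₀ d ≠ 0 ∧ ∀ θ : X → k, eval θ d ≠ 0 →
      finrank k (Submodule.span k {T : Module.End k V | ∃ w ∈ stab br (tof e θ₀),
        T = (br w : Module.End k V) ^ n}) ≤
      finrank k (Submodule.span k {T : Module.End k V | ∃ w ∈ stab br (tof e θ),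
        T = (br w : Module.End k V) ^ n}) := by
  obtain ⟨d, hd0, hd⟩ := gen_rel e br θ₀ hreg
  obtain ⟨τ, hτ, f, hf, hfli⟩ : ∃ (τ : ℕ) (_ : finrank k (Submodule.span k
      {T : Module.End k V | ∃ w ∈ stab br (tof e θ₀), T = (br w : Module.End k V) ^ n}) = τ)
      (f : Fin τ → Module.End k V), (∀ i, ∃ w ∈ stab br (tof e θ₀),
        f i = (br w : Module.End k V) ^ n) ∧ LinearIndependent k f := by
    obtain ⟨f, hf, -, hfli⟩ := Submodule.exists_fun_fin_finrank_span_eq k
      {T : Module.End k V | ∃ w ∈ stab br (tof e θ₀), T = (br w : Module.End k V) ^ n}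
    exact ⟨_, rfl, f, hf, hfli⟩
  choose w hw hfw using hf
  choose c hc hcw using fun i => (hd θ₀ hd0).2 (w i) (hw i)
  have hmat : ∀ (θ : X → k) (v : Fin τ → V), (∀ i x, eval θ (c i x) = e.repr (v i) x) →
      ∀ i, (fun y : X × X => eval θ ((adm e br (c i) ^ n) y.1 y.2)) =
        fun y : X × X => LinearMap.toMatrix e e ((br (v i) : Module.End k V) ^ n) y.1 y.2 := by
    intro θ v hv i
    ext1 y
    rw [← adm_pow_eval e br (c i) θ (v i) (hv i) n]
    rfl
  let μ : Module.End k V →ₗ[k] (X × X → k) :=
    { toFun := fun T y => LinearMap.toMatrix e e T y.1 y.2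
      map_add' := fun S T => by
        ext1 y
        rw [map_add]
        rfl
      map_smul' := fun a T => by
        ext1 y
        rw [map_smul]
        rfl }
  have hμ : LinearMap.ker μ = ⊥ := by
    rw [LinearMap.ker_eq_bot']
    intro T hT
    apply (LinearMap.toMatrix e e).injective
    rw [map_zero]
    ext z y
    exact congrFun hT (z, y)
  have hli0 : LinearIndependent k
      (fun j => fun y : X × X => eval θ₀ ((adm e br (c j) ^ n) y.1 y.2)) := by
    have h1 := hfli.map' μ hμ
    have h2 : (fun j => fun y : X × X => eval θ₀ ((adm e br (c j) ^ n) y.1 y.2)) = μ ∘ f := by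
      ext1 j
      rw [hmat θ₀ w hcw j]
      ext1 y
      show _ = LinearMap.toMatrix e e (f j) y.1 y.2
      rw [hfw]
    rw [h2]
    exact h1
  obtain ⟨d', hd'0, hd'⟩ := li_open (fun j (y : X × X) => (adm e br (c j) ^ n) y.1 y.2) θ₀ hli0
  refine ⟨d', hd'0, fun θ hθ => ?_⟩
  have h1 := hd' θ hθ
  let v : Fin τ → V := fun i => ∑ x, eval θ (c i x) • e x
  have hv : ∀ i x, eval θ (c i x) = e.repr (v i) x := by
    intro i x
    show _ = e.repr (∑ x, eval θ (c i x) • e x) x
    rw [e.repr_sum_self]
  have hvs : ∀ i, v i ∈ stab br (tof e θ) := by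
    intro i
    rw [stab_iff]
    ext1 y
    have h2 : eval θ (∑ x, c i x * linf e (br (e x) (e y))) = 0 := by rw [hc i y, map_zero]
    rw [Matrix.mulVec, dotProduct, Pi.zero_apply, ← h2, map_sum (eval θ)]
    refine sum_congr rfl fun x _ => ?_
    rw [← hv, Nt_apply, map_mul, eval_linf, mul_comm]
  have h2 : LinearIndependent k (fun i => (br (v i) : Module.End k V) ^ n) := by
    have h3 : LinearIndependent k (fun i => μ ((br (v i) : Module.End k V) ^ n)) := by
      have h4 : (fun i => μ ((br (v i) : Module.End k V) ^ n)) =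
          fun j => fun y : X × X => eval θ ((adm e br (c j) ^ n) y.1 y.2) := by
        ext1 i
        rw [hmat θ v hv i]
        rfl
      rw [h4]
      exact h1
    exact LinearIndependent.of_comp μ h3
  rw [hτ]
  have h3 := finrank_span_eq_card h2
  rw [Fintype.card_fin] at h3
  rw [← h3]
  apply Submodule.finrank_mono
  apply Submodule.span_mono
  rintro _ ⟨i, rfl⟩
  exact ⟨v i, hvs i, rfl⟩

/-- **All relations are respected if the square of the `p`-map on one regular stabiliser has
corank at most three.** -/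
theorem RR_of_corank [Infinite k] [Nontrivial A] [hp : Fact p.Prime] [CharP k p]
    (hk : ∀ c : k, ∃ d : k, d ^ p = c) (h : RD p ι e symb br pm) (hPM : PM p ι) (hTM : TM ι)
    (hI : HI p ι e symb br) (hJ : HJ e br) (θ₀ : V →ₗ[k] k)
    (hreg : ∀ θ : V →ₗ[k] k, finrank k (stab br θ₀) ≤ finrank k (stab br θ))
    (hcor : finrank k (stab br θ₀) ≤ finrank k (LinearMap.ker br) +
      finrank k (Submodule.span k {T : Module.End k V | ∃ w ∈ stab br θ₀,
        T = (br w : Module.End k V) ^ (p ^ 2)}) + 3) : RR ι e symb br := by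
  obtain ⟨θ₁, rfl⟩ := exists_tof e θ₀
  have hreg' : ∀ θ, (Nt e br θ).rank ≤ (Nt e br θ₁).rank := by
    intro θ
    have h1 := hreg (tof e θ)
    have h2 := finrank_stab e br θ
    have h3 := finrank_stab e br θ₁
    omega
  obtain ⟨d, hd0, hd⟩ := gen_rel e br θ₁ hreg'
  obtain ⟨d', hd'0, hd'⟩ := rank_open e br θ₁ hreg' (p ^ 2)
  refine RR_of_codim h hI hJ (HC_of_points (d * d') ?_ fun θ hθ => ?_)
  · intro h0
    have h1 : eval θ₁ (d * d') = 0 := by rw [h0, map_zero]
    rw [map_mul] at h1
    rcases mul_eq_zero.1 h1 with h2 | h2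
    · exact hd0 h2
    · exact hd'0 h2
  · rw [map_mul] at hθ
    obtain ⟨hrk, hrel⟩ := hd θ (left_ne_zero_of_mul hθ)
    have h1 := hd' θ (right_ne_zero_of_mul hθ)
    refine codim_kil hk h hPM hTM ?_ ?_
    · intro v hv w hw
      obtain ⟨c, hc, hcv⟩ := hrel v hv
      obtain ⟨c', hc', hcw⟩ := hrel w hw
      exact stab_abel e br (br_anti h) hc hc' hcv hcw
    · have h2 := finrank_stab e br θ
      have h3 := finrank_stab e br θ₁
      omega

end main

end Pool.Agent.Helper28.KW
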