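import Pool.Agent.Helper28.KW.Final

set_option autoImplicit false

/-!
# From condition (E) to the relations and to the super Kac–Weisfeiler equality
-/

namespace Pool.Agent.Helper28.KW

open MvPolynomial Module Finset Pool.Agent.Helper58.KW Pool.Agent.Helper34.KW
  Pool.Agent.Helper56.SKW Pool.Agent.Helper56.SKW.PBW Pool.Agent.Helper56.SKU
  Pool.Agent.Helper56.SKR

universe u₁ u₂ u₃ u₄

section rr

variable {k : Type u₁} [Field k] {V : Type u₂} [AddCommGroup V] [Module k V]
  [FiniteDimensional k V] {A : Type u₃} [Ring A] [Algebra k A] {X : Type u₄} [Fintype X]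
  {p : ℕ} {ι : V →ₗ[k] A} {e : Basis X k V} {symb : MvPolynomial X k →ₗ[k] A}
  {br : V →ₗ[k] V →ₗ[k] V} {pm : X → V}

/-- Elements satisfying (E) which stabilise `θ` are in `kil`. -/
theorem kil_of_E [DecidableEq X] (h : RD p ι e symb br pm) (hTM : TM ι) {θ : X → k} {y : V}
    (hys : y ∈ stab br (tof e θ))
    (hE : ∀ v a, ι y * a - a * ι y = ι v → ∃ z, br y z = v) :
    y ∈ kil ι e symb θ := by
  intro u m q hd
  obtain ⟨B, b, T, hT⟩ := hTM
  have hθ : ∀ v a, ι y * a - a * ι y = ι v → tof e θ v = 0 := by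
    intro v a hva
    obtain ⟨z, hz⟩ := hE v a hva
    rw [← hz]
    exact hys z
  have h1 := symb_eval_E1 b T ι hT (fun v w => br v w) (fun v w => (h.iota_br v w).symm) e symb
    h.pbw y (tof e θ) hθ u m (lq e q y) (lq_hom hd.1 y) (lq_symb hd y)
  have h2 : (fun x => tof e θ (e x)) = θ := by
    ext1 x
    rw [tof_basis]
  rw [h2] at h1
  exact h1

/-- **All relations are respected if (E) holds for all elements.** -/
theorem RR_of_E [Infinite k] [hp : Fact p.Prime] [CharP k p]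
    (h : RD p ι e symb br pm) (hTM : TM ι)
    (hE : ∀ y v a, ι y * a - a * ι y = ι v → ∃ z, br y z = v) : RR ι e symb br := by
  classical
  have hnt : Nontrivial A := h.nontrivial
  refine RR_of_codim h (HI_of h) (HJ_all h) (HC_of_points 1 one_ne_zero fun θ _ => ?_)
  have h1 : kil ι e symb θ ⊓ stab br (tof e θ) = stab br (tof e θ) :=
    inf_eq_right.2 fun y hy => kil_of_E h hTM hy (hE y)
  rw [h1]
  exact Nat.le_succ _

end rr

section main

universe u v w

variable {k : Type u} [Field k] {L₀ : Type v} {L₁ : Type w} [AddCommGroup L₀] [Module k L₀]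
  [AddCommGroup L₁] [Module k L₁] [FiniteDimensional k L₀]

/-- **The super Kac–Weisfeiler equality from (E).** -/
theorem kw_of_E [IsAlgClosed k] [FiniteDimensional k L₁] (p : ℕ) [hp : Fact p.Prime]
    [CharP k p] (hp2 : 2 < p) (g : LieSuper k L₀ L₁)
    (hres : ∀ x, ∃ x', g.b00 x' = (g.b00 x) ^ p ∧ g.b01 x' = (g.b01 x) ^ p)
    (hE : ∀ (y v : L₀) (a : Env (evAlg g (finBasis k L₀))),
      tau (evAlg g (finBasis k L₀)) y * a - a * tau (evAlg g (finBasis k L₀)) y =
        tau (evAlg g (finBasis k L₀)) v → ∃ z, g.b00 y z = v) :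
    ∃ D₀ D c : ℕ, MaxEven g D₀ ∧ MaxSuper g D ∧
      IsGreatest {d | ∃ θ : L₀ →ₗ[k] k, d = p ^ (bEven g θ / 2)} D₀ ∧
      IsGreatest {e | ∃ θ : L₀ →ₗ[k] k, e = (bOdd g θ + 1) / 2} c ∧ D = D₀ * 2 ^ c ∧
      IsGreatest {d | ∃ θ : L₀ →ₗ[k] k,
        d = p ^ (bEven g θ / 2) * 2 ^ ((bOdd g θ + 1) / 2)} D := by
  classical
  have h2 := two_ne k p hp2
  have hinf : Infinite k := IsAlgClosed.instInfinite
  let G := evAlg g (finBasis k L₀)
  have hres' : ∀ x, ∃ x', g.b00 x' = (g.b00 x) ^ p := fun x => by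
    obtain ⟨x', hx', -⟩ := hres x
    exact ⟨x', hx'⟩
  choose pm hpm using hres'
  have hRD : RD p (tau G) G.e (Pool.Agent.Helper56.SKR.symb G) G.br (fun x => pm (G.e x)) :=
    env_RD (g := G) h2 (fun _ => rfl) (fun x w => LinearMap.congr_fun (hpm _) w)
  have hTM : TM (tau G) := env_TM (g := G) (fun _ => rfl)
  exact super_of_RR p hp2 g hres (RR_of_E hRD hTM hE)

end main

end Pool.Agent.Helper28.KW
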